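import Mathlib
import Pool.Agent.N967.Stm2
import Pool.Agent.H295R2.M

set_option autoImplicit false

/-!
# The Mertens function under the Riemann hypothesis: the statements of the parts (project MX)
-/

namespace Pool.Agent.N964.MX

open Complex MeasureTheory
open Pool.Agent.H295R2 (fz Mx)
open Pool.Agent.Y23 (IsZ mu Lg)
open Pool.Agent.H24R2.JP (XX)

/-- the loss at distance `δ` from the critical line with a polynomial of length `exp l` -/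
noncomputable def Dd (l δ : ℝ) : ℝ := Real.log (1 + 1 / (l * δ))

/-- the kernel of the prime sum -/
noncomputable def kk (l s u : ℝ) : ℝ := Real.sinh (s * (l - u)) / (Real.cosh (l * s) - 1)

/-- the integrated weight of the prime sum -/
noncomputable def ww (l δ u : ℝ) : ℝ := ∫ s in δ..2, kk l s u

/-- the prime sum in the explicit formula, with an arbitrary weight of `log n` -/
noncomputable def PS (l t : ℝ) (w : ℝ → ℝ) : ℝ := ∑ n ∈ Finset.Icc 1 ⌊Real.exp l⌋₊,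
  ArithmeticFunction.vonMangoldt n / Real.sqrt n * w (Real.log n) * Real.cos (t * Real.log n)

/-- the primes up to `exp l` -/
noncomputable def Pl (l : ℝ) : Finset ℕ := (Finset.range (⌊Real.exp l⌋₊ + 1)).filter Nat.Prime

/-- the coefficients of the prime polynomial -/
noncomputable def cc (l δ : ℝ) (p : ℕ) : ℝ := Real.log p / Real.sqrt p * ww l δ (Real.log p)

/-- the prime polynomial -/
noncomputable def PP (l δ t : ℝ) : ℂ := ∑ p ∈ Pl l, ((cc l δ p : ℝ) : ℂ) * (p : ℂ) ^ (-(t : ℂ) * I)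

/-- MX/A: the explicit formula with an exponential test function -/
def S_ef : Prop := RiemannHypothesis → ∃ C : ℝ, 0 < C ∧ ∀ t s l : ℝ, 1 ≤ |t| → 0 < s → s ≤ 2 → 1 ≤ l →
  Real.exp (l / 2) ≤ 1 + |t| → ∀ S : Finset ℂ, (∀ z ∈ S, IsZ z) →
  ∑ z ∈ S, (mu z : ℝ) * (2 * s / (s ^ 2 + (t - z.im) ^ 2)) ≤
    (Lg t + C) * (Real.sinh (l * s) / (Real.cosh (l * s) - 1)) + C + C / (l ^ 2 * s) - 2 * PS l t (kk l s)

/-- MX/B: from finite sums over the zeros to the ratio of `XX` -/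
def S_lim : Prop := RiemannHypothesis → ∀ δ t B : ℝ, 0 < δ → δ ≤ 1 →
  (∀ S : Finset ℂ, (∀ z ∈ S, IsZ z) →
    ∑ z ∈ S, (mu z : ℝ) * (1 / 2 * Real.log ((4 + (t - z.im) ^ 2) / (δ ^ 2 + (t - z.im) ^ 2))) ≤ B) →
  ‖XX (2 + t * I)‖ ≤ Real.exp B * ‖XX (δ + t * I)‖

/-- MX/C: the gamma factor (unconditional) -/
def S_gamma : Prop := ∃ C : ℝ, 0 < C ∧ ∀ δ t : ℝ, 0 ≤ δ → δ ≤ 1 → 1 ≤ |t| →
  ‖XX (δ + t * I)‖ * Real.exp ((2 - δ) / 2 * Lg t - C) ≤ ‖XX (2 + t * I)‖ * ‖riemannZeta (1 / 2 + δ + t * I)‖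

/-- MX/D: the weights and the coefficients (unconditional) -/
def S_coef : Prop := ∃ C : ℝ, 0 < C ∧ ∀ l δ : ℝ, 1 ≤ l → 0 < δ → δ ≤ 1 →
  (∀ u : ℝ, 0 < u → u ≤ l → 0 ≤ ww l δ u ∧ ww l δ u ≤ C * (1 / u + Dd l δ / l)) ∧
  ∑ p ∈ Pl l, cc l δ p ^ 2 ≤ C * (1 + Real.log l + Dd l δ ^ 2) ∧
  ∑ p ∈ Pl l, cc l δ p ≤ C * Real.exp (l / 2) * (1 + Dd l δ) ∧
  ∑ n ∈ (Finset.Icc 1 ⌊Real.exp l⌋₊).filter (fun n => ¬ n.Prime),
    ArithmeticFunction.vonMangoldt n / Real.sqrt n * ww l δ (Real.log n) ≤ C * (1 + Real.log l + Dd l δ)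

/-- MX/E: the bound for `1 / ζ` near the critical line with all prime powers -/
def S_int : Prop := RiemannHypothesis → ∃ C : ℝ, 0 < C ∧ ∀ t δ l : ℝ, 1 ≤ |t| → 0 < δ → δ ≤ 1 → 1 ≤ l →
  Real.exp (l / 2) ≤ 1 + |t| →
  ‖fz (1 / 2 + δ + t * I)‖ ≤ Real.exp (Lg t / l * Dd l δ + C * (1 + Dd l δ) - PS l t (ww l δ))

/-- the bound for `1 / ζ` near the critical line with the prime polynomial -/
def S_main : Prop := RiemannHypothesis → ∃ C : ℝ, 0 < C ∧ ∀ t δ l : ℝ, 1 ≤ |t| → 0 < δ → δ ≤ 1 → 1 ≤ l →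
  Real.exp (l / 2) ≤ 1 + |t| →
  ‖fz (1 / 2 + δ + t * I)‖ ≤ Real.exp (Lg t / l * Dd l δ + C * (1 + Real.log l + Dd l δ) + ‖PP l δ t‖)

/-- MX/G: small heights -/
def S_small : Prop := RiemannHypothesis → ∃ C : ℝ, 0 < C ∧ ∀ t δ : ℝ, |t| ≤ 1 → 0 < δ → δ ≤ 1 / 4 →
  ‖fz (1 / 2 + δ + t * I)‖ ≤ Real.exp (C * (1 + Real.log (1 / δ)))

/-- the first negative moment near the critical line -/
def S_mean : Prop := RiemannHypothesis → ∃ C : ℝ, 0 < C ∧ ∀ T δ : ℝ, 1 ≤ T → 0 < δ → δ ≤ 1 / 4 →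
  ∫ t in (-T)..T, ‖fz (1 / 2 + δ + t * I)‖ ≤
    T * Real.exp (C * (Real.log (1 / δ) / δ) + C * Real.log (Lg T) ^ 2)

/-- the Mertens function -/
def S_M : Prop := RiemannHypothesis → ∃ C : ℝ, 0 < C ∧ ∀ x : ℝ, 3 ≤ x →
  |Mx x| ≤ Real.sqrt x * Real.exp (C * Real.sqrt (Real.log x * Real.log (Real.log x)))

end Pool.Agent.N964.MX
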