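import Mathlib
import Pool.Agent.N964.MX.Defs

set_option autoImplicit false

/-!
# The Mertens function under the Riemann hypothesis: the statements of the parts (project MX2)
-/

namespace Pool.Agent.N964.MX

open Complex MeasureTheory
open Pool.Agent.H295R2 (fz Mx)
open Pool.Agent.Y23 (IsZ mu Lg)

/-- the thresholds of the pieces of the prime polynomial -/
noncomputable def th (n : ℕ) (l m : ℝ) (i : ℕ) : ℝ := if i ≤ n then l * (1 - (2 ^ i - 1) / m) else 0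

/-- the coefficients of the piece `i` -/
noncomputable def cp (n : ℕ) (m l δ : ℝ) (i p : ℕ) : ℝ :=
  if th n l m (i + 1) < Real.log p ∧ Real.log p ≤ th n l m i then cc l δ p else 0

/-- the piece `i` of the prime polynomial -/
noncomputable def Pc (n : ℕ) (m l δ t : ℝ) (i : ℕ) : ℂ :=
  ∑ p ∈ Pl (th n l m i), ((cp n m l δ i p : ℝ) : ℂ) * (p : ℂ) ^ (-(t : ℂ) * I)

/-- MX2/A: the weight near the edge -/
def S_edge : Prop := ∃ C : ℝ, 0 < C ∧ ∀ l δ u : ℝ, 1 ≤ l → 0 < δ → δ ≤ 1 → l / 2 ≤ u → u ≤ l →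
  ww l δ u ≤ C * ((l - u) / l ^ 2) * Dd l δ

/-- MX2/B: primes in short intervals on the logarithmic scale -/
def S_loc : Prop := ∃ C : ℝ, 0 < C ∧ ∀ a b : ℝ, 1 / 2 ≤ a → a ≤ b →
  ∑ p ∈ (Pl b).filter (fun p : ℕ => a < Real.log p), 1 / (p : ℝ) ≤ C * ((b - a + 1) / a)

/-- MX2/C1: the pieces add up to the polynomial -/
def S_split : Prop := ∀ (n : ℕ) (m l δ t : ℝ), 0 < l → 0 < m → (2 : ℝ) ^ n - 1 ≤ m / 2 →
  ‖PP l δ t‖ ≤ ∑ i ∈ Finset.range (n + 1), ‖Pc n m l δ t i‖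

/-- MX2/C2: the square sums of the pieces -/
def S_var : Prop := ∃ B : ℝ, 1 ≤ B ∧ ∀ (n i : ℕ) (m l δ : ℝ), 1 ≤ l → 0 < δ → δ ≤ 1 → 1 ≤ m →
  (2 : ℝ) ^ n - 1 ≤ m / 2 → m ≤ 4 * 2 ^ n → m ≤ 4 * l → Real.log l ≤ 3 * m → Dd l δ ≤ 2 * m → i ≤ n →
  ∑ p ∈ Pl (th n l m i), cp n m l δ i p ^ 2 ≤ B * 8 ^ i / m

/-- MX2/D: the terms of the sum over the levels and the pieces -/
def S_term : Prop := ∀ B : ℝ, 1 ≤ B → ∃ C δ0 : ℝ, 0 < C ∧ 0 < δ0 ∧ δ0 ≤ 1 / 4 ∧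
  ∀ (δ τ : ℝ) (V i : ℕ), 0 < δ → δ ≤ δ0 → Real.exp 2 ≤ τ → τ ≤ 1 / δ ^ 3 →
  1 / (δ * Real.log (1 / δ) ^ 3) ≤ (V : ℝ) → (V : ℝ) ≤ τ / Real.log τ → (2 : ℝ) ^ i - 1 ≤ Real.log (1 / δ) / 2 →
  Real.exp (((V : ℝ) + 1) * Real.log (1 + ((V : ℝ) + 1) / (τ * δ)) + 5 * ((V : ℝ) + 1)) *
    (B * 13 ^ i / (Real.log (1 / δ) * V)) ^ (V + ⌊(V : ℝ) * ((2 ^ i - 1) / Real.log (1 / δ))⌋₊) ≤
  Real.exp (C * (1 / (δ * Real.log (1 / δ) ^ 2)))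

/-- the first negative moment near the critical line, sharper -/
def S_mean2 : Prop := RiemannHypothesis → ∃ C : ℝ, 0 < C ∧ ∀ T δ : ℝ, 1 ≤ T → 0 < δ → δ ≤ 1 / 4 → Lg T ≤ 1 / δ ^ 3 →
  ∫ t in (-T)..T, ‖fz (1 / 2 + δ + t * I)‖ ≤ T * Real.exp (C * (1 / (δ * Real.log (1 / δ) ^ 2)))

/-- MX2/E: the Mertens function, sharper -/
def S_M2 : Prop := RiemannHypothesis → ∃ C : ℝ, 0 < C ∧ ∀ x : ℝ, 3 ≤ x →
  |Mx x| ≤ Real.sqrt x * Real.exp (C * (Real.sqrt (Real.log x) / Real.log (Real.log x)))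

/-- MX2/F: the converse (unconditional) -/
def S_conv2 : Prop := (∃ C : ℝ, ∀ x : ℝ, 3 ≤ x →
  |Mx x| ≤ Real.sqrt x * Real.exp (C * (Real.sqrt (Real.log x) / Real.log (Real.log x)))) → RiemannHypothesis

end Pool.Agent.N964.MX
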