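import Mathlib
import Pool.Agent.N964.MX.Defs

set_option autoImplicit false

/-!
# Project MX: the bound with the prime polynomial
-/

namespace Pool.Agent.N964.MX

open Complex MeasureTheory
open Pool.Agent.H295R2 (fz Mx)
open Pool.Agent.Y23 (IsZ mu Lg)

lemma ppow_eq {p : ℕ} (hp : p ≠ 0) (t : ℝ) :
    (p : ℂ) ^ (-(t : ℂ) * I) = cexp (((-(t * Real.log p) : ℝ) : ℂ) * I) := by
  rw [Complex.cpow_def_of_ne_zero (by exact_mod_cast hp), ← Complex.natCast_log]
  congr 1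
  push_cast
  ring

lemma norm_ppow {p : ℕ} (hp : p ≠ 0) (t : ℝ) : ‖(p : ℂ) ^ (-(t : ℂ) * I)‖ = 1 := by
  rw [ppow_eq hp, Complex.norm_exp_ofReal_mul_I]

lemma re_ppow {p : ℕ} (hp : p ≠ 0) (t : ℝ) : ((p : ℂ) ^ (-(t : ℂ) * I)).re = Real.cos (t * Real.log p) := by
  rw [ppow_eq hp, Complex.exp_ofReal_mul_I_re, Real.cos_neg]

lemma mem_Pl {l : ℝ} {p : ℕ} : p ∈ Pl l ↔ p ≤ ⌊Real.exp l⌋₊ ∧ p.Prime := by
  unfold Pl
  rw [Finset.mem_filter, Finset.mem_range]
  constructor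
  · rintro ⟨h1, h2⟩; exact ⟨by omega, h2⟩
  · rintro ⟨h1, h2⟩; exact ⟨by omega, h2⟩

lemma Pl_eq (l : ℝ) : Pl l = (Finset.Icc 1 ⌊Real.exp l⌋₊).filter Nat.Prime := by
  ext p
  rw [mem_Pl, Finset.mem_filter, Finset.mem_Icc]
  constructor
  · rintro ⟨h1, h2⟩; exact ⟨⟨h2.one_lt.le, h1⟩, h2⟩
  · rintro ⟨⟨_, h1⟩, h2⟩; exact ⟨h1, h2⟩

lemma log_mem {l : ℝ} {n : ℕ} (h1 : 1 ≤ n) (h2 : n ≤ ⌊Real.exp l⌋₊) : Real.log n ≤ l := by
  have h3 : (n : ℝ) ≤ Real.exp l := (Nat.le_floor_iff (Real.exp_pos _).le).1 h2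
  have h4 : (0 : ℝ) < n := by exact_mod_cast h1
  rw [Real.log_le_iff_le_exp h4]
  exact h3

theorem main_of (h1 : S_int) (h2 : S_coef) : S_main := by
  intro RH
  obtain ⟨C1, hC1, H1⟩ := h1 RH
  obtain ⟨C2, hC2, H2⟩ := h2
  refine ⟨C1 + C2, by positivity, fun t δ l ht hδ hδ1 hl hlt => ?_⟩
  refine (H1 t δ l ht hδ hδ1 hl hlt).trans ?_
  rw [Real.exp_le_exp]
  obtain ⟨a1, -, -, a4⟩ := H2 l δ hl hδ hδ1
  have hlog : 0 ≤ Real.log l := Real.log_nonneg hl
  have hD : 0 ≤ Dd l δ := by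
    unfold Dd
    refine Real.log_nonneg ?_
    have : 0 ≤ 1 / (l * δ) := by positivity
    linarith
  have key : |PS l t (ww l δ)| ≤ ‖PP l δ t‖ + C2 * (1 + Real.log l + Dd l δ) := by
    unfold PS
    rw [← Finset.sum_filter_add_sum_filter_not (Finset.Icc 1 ⌊Real.exp l⌋₊) Nat.Prime]
    refine (abs_add_le _ _).trans (add_le_add ?_ ?_)
    · rw [← Pl_eq]
      have e : ∑ n ∈ Pl l, ArithmeticFunction.vonMangoldt n / Real.sqrt n * ww l δ (Real.log n) *
          Real.cos (t * Real.log n) = (PP l δ t).re := by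
        unfold PP
        rw [Complex.re_sum]
        refine Finset.sum_congr rfl fun p hp => ?_
        rw [mem_Pl] at hp
        rw [Complex.re_ofReal_mul, re_ppow hp.2.ne_zero, ArithmeticFunction.vonMangoldt_apply_prime hp.2]
        rfl
      rw [e]
      exact Complex.abs_re_le_norm _
    · refine le_trans ?_ a4
      refine (Finset.abs_sum_le_sum_abs _ _).trans (Finset.sum_le_sum fun n hn => ?_)
      rw [Finset.mem_filter, Finset.mem_Icc] at hn
      rw [abs_mul]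
      have hw : 0 ≤ ArithmeticFunction.vonMangoldt n / Real.sqrt n * ww l δ (Real.log n) := by
        rcases eq_or_lt_of_le hn.1.1 with h | h
        · rw [← h]; simp
        · have hn2 : (1 : ℝ) < n := by exact_mod_cast h
          have h5 := (a1 (Real.log n) (Real.log_pos hn2) (log_mem hn.1.1 hn.1.2)).1
          have h6 : 0 ≤ ArithmeticFunction.vonMangoldt n / Real.sqrt n :=
            div_nonneg ArithmeticFunction.vonMangoldt_nonneg (Real.sqrt_nonneg _)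
          exact mul_nonneg h6 h5
      rw [abs_of_nonneg hw]
      have h7 := Real.abs_cos_le_one (t * Real.log n)
      nlinarith
  have h3 := neg_le_abs (PS l t (ww l δ))
  nlinarith
end Pool.Agent.N964.MX
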