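import Mathlib
import Pool.Agent.N964.MX.F

set_option autoImplicit false

/-!
# Project MX: the mean of `1 / ζ`, preparations
-/

namespace Pool.Agent.N964.MX

open Complex MeasureTheory
open Pool.Agent.H295R2 (fz Mx)
open Pool.Agent.Y23 (IsZ mu Lg)

/-- the first good index -/
lemma first_good (P G : ℕ → ℝ) (g : ℝ) (V0 n : ℕ) (hG : ∀ V, 0 ≤ G V) (hV0 : 1 ≤ V0)
    (hlast : P (V0 + n) ≤ (V0 + n : ℕ))
    (hg : ∀ V, V0 ≤ V → V ≤ V0 + n → P V ≤ (V : ℝ) → g ≤ G V) :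
    g ≤ G V0 + ∑ j ∈ Finset.range n, G (V0 + j + 1) * (P (V0 + j) / ((V0 + j : ℕ) : ℝ)) ^ (2 * (V0 + j)) := by
  induction n with
  | zero =>
    simp only [Finset.range_zero, Finset.sum_empty, add_zero]
    exact hg V0 le_rfl le_rfl hlast
  | succ n ih =>
    have hterm : ∀ j, 0 ≤ G (V0 + j + 1) * (P (V0 + j) / ((V0 + j : ℕ) : ℝ)) ^ (2 * (V0 + j)) := by
      intro j
      refine mul_nonneg (hG _) ?_
      rw [pow_mul]
      exact pow_nonneg (sq_nonneg _) _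
    by_cases h : P (V0 + n) ≤ (V0 + n : ℕ)
    · refine (ih h fun V h1 h2 => hg V h1 (by omega)).trans ?_
      rw [Finset.sum_range_succ]
      linarith [hterm n]
    · rw [not_le] at h
      have h1 := hg (V0 + (n + 1)) (by omega) le_rfl hlast
      rw [Finset.sum_range_succ]
      have h2 : 0 ≤ ∑ j ∈ Finset.range n, G (V0 + j + 1) * (P (V0 + j) / ((V0 + j : ℕ) : ℝ)) ^ (2 * (V0 + j)) :=
        Finset.sum_nonneg fun j _ => hterm j
      have h3 : 1 ≤ (P (V0 + n) / ((V0 + n : ℕ) : ℝ)) ^ (2 * (V0 + n)) := by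
        refine one_le_pow₀ ?_
        have h4 : (0 : ℝ) < ((V0 + n : ℕ) : ℝ) := by
          have : 0 < V0 + n := by omega
          exact_mod_cast this
        rw [le_div_iff₀ h4, one_mul]
        exact h.le
      have h5 : G (V0 + (n + 1)) ≤ G (V0 + n + 1) * (P (V0 + n) / ((V0 + n : ℕ) : ℝ)) ^ (2 * (V0 + n)) := by
        have e : V0 + (n + 1) = V0 + n + 1 := by omega
        rw [e]
        exact le_mul_of_one_le_right (hG _) h3
      linarith [hG V0]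

lemma Dd_nonneg {l δ : ℝ} (hl : 0 < l) (hδ : 0 < δ) : 0 ≤ Dd l δ := by
  unfold Dd
  refine Real.log_nonneg ?_
  have : 0 ≤ 1 / (l * δ) := by positivity
  linarith

lemma Dd_le {l δ : ℝ} (hl : 1 ≤ l) (hδ : 0 < δ) (hδ4 : δ ≤ 1 / 4) : Dd l δ ≤ 2 * Real.log (1 / δ) := by
  unfold Dd
  have e : 2 * Real.log (1 / δ) = Real.log ((1 / δ) ^ 2) := by rw [Real.log_pow]; norm_num
  rw [e]
  refine Real.log_le_log (by positivity) ?_
  have h1 : 1 / (l * δ) ≤ 1 / δ := by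
    refine one_div_le_one_div_of_le hδ ?_
    nlinarith
  have h2 : 4 ≤ 1 / δ := by
    rw [le_div_iff₀ hδ]; linarith
  nlinarith

lemma ell_ge {δ : ℝ} (hδ : 0 < δ) (hδ4 : δ ≤ 1 / 4) : 1 ≤ Real.log (1 / δ) := by
  rw [Real.le_log_iff_exp_le (by positivity)]
  have h2 : 4 ≤ 1 / δ := by
    rw [le_div_iff₀ hδ]; linarith
  have := Real.exp_one_lt_d9
  linarith

lemma PP_le {C2 l δ t : ℝ} (h : ∑ p ∈ Pl l, cc l δ p ≤ C2 * Real.exp (l / 2) * (1 + Dd l δ))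
    (h0 : ∀ u : ℝ, 0 < u → u ≤ l → 0 ≤ ww l δ u) :
    ‖PP l δ t‖ ≤ C2 * Real.exp (l / 2) * (1 + Dd l δ) := by
  refine le_trans ?_ h
  unfold PP
  refine (norm_sum_le _ _).trans (Finset.sum_le_sum fun p hp => ?_)
  rw [mem_Pl] at hp
  rw [norm_mul, norm_ppow hp.2.ne_zero, mul_one, Complex.norm_real, Real.norm_eq_abs, abs_of_nonneg]
  unfold cc
  have h1 : (1 : ℝ) < p := by exact_mod_cast hp.2.one_lt
  exact mul_nonneg (div_nonneg (Real.log_pos h1).le (Real.sqrt_nonneg _))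
    (h0 _ (Real.log_pos h1) (log_mem hp.2.one_lt.le hp.1))

/-- the bound at the level `V` -/
noncomputable def GV (C τ δ : ℝ) (V : ℕ) : ℝ :=
  Real.exp (V * Real.log (1 + V / (τ * δ)) + V + C * Real.log τ)

/-- the data used below -/
structure Dat (C : ℝ) : Prop where
  pos : 0 < C
  main : ∀ t δ l : ℝ, 1 ≤ |t| → 0 < δ → δ ≤ 1 → 1 ≤ l → Real.exp (l / 2) ≤ 1 + |t| →
    ‖fz (1 / 2 + δ + t * I)‖ ≤ Real.exp (Lg t / l * Dd l δ + C * (1 + Real.log l + Dd l δ) + ‖PP l δ t‖)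
  wnn : ∀ l δ : ℝ, 1 ≤ l → 0 < δ → δ ≤ 1 → ∀ u : ℝ, 0 < u → u ≤ l → 0 ≤ ww l δ u
  sq : ∀ l δ : ℝ, 1 ≤ l → 0 < δ → δ ≤ 1 → ∑ p ∈ Pl l, cc l δ p ^ 2 ≤ C * (1 + Real.log l + Dd l δ ^ 2)
  one : ∀ l δ : ℝ, 1 ≤ l → 0 < δ → δ ≤ 1 → ∑ p ∈ Pl l, cc l δ p ≤ C * Real.exp (l / 2) * (1 + Dd l δ)
  mom : ∀ (X k : ℕ) (c : ℕ → ℝ) (T : ℝ), 1 ≤ T → (X : ℝ) ^ k ≤ T →
    ∫ t in (-T)..T, ‖∑ p ∈ (Finset.range (X + 1)).filter Nat.Prime, ((c p : ℝ) : ℂ) * (p : ℂ) ^ (-(t : ℂ) * I)‖ ^ (2 * k) ≤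
      C * T * k.factorial * (∑ p ∈ (Finset.range (X + 1)).filter Nat.Prime, c p ^ 2) ^ k

lemma dat_of (h1 : S_main) (h2 : S_coef) (h3 : Pool.Agent.N967.S_mom) (RH : RiemannHypothesis) :
    ∃ C : ℝ, Dat C := by
  obtain ⟨C1, hC1, H1⟩ := h1 RH
  obtain ⟨C2, hC2, H2⟩ := h2
  obtain ⟨C3, hC3, H3⟩ := h3
  refine ⟨C1 + C2 + C3, ⟨by positivity, fun t δ l ht hδ hδ1 hl hlt => ?_, fun l δ hl hδ hδ1 u hu hul =>
    ((H2 l δ hl hδ hδ1).1 u hu hul).1, fun l δ hl hδ hδ1 => ?_, fun l δ hl hδ hδ1 => ?_, fun X k c T hT hX => ?_⟩⟩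
  · refine (H1 t δ l ht hδ hδ1 hl hlt).trans (Real.exp_le_exp.2 ?_)
    have h5 : 0 ≤ 1 + Real.log l + Dd l δ := by
      have := Real.log_nonneg hl
      have := Dd_nonneg (by linarith : 0 < l) hδ
      linarith
    nlinarith
  · refine (H2 l δ hl hδ hδ1).2.1.trans ?_
    have h5 : 0 ≤ 1 + Real.log l + Dd l δ ^ 2 := by
      have := Real.log_nonneg hl
      positivity
    nlinarith
  · refine (H2 l δ hl hδ hδ1).2.2.1.trans ?_
    have h5 : 0 ≤ Real.exp (l / 2) * (1 + Dd l δ) := by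
      have := Dd_nonneg (by linarith : 0 < l) hδ
      positivity
    nlinarith
  · refine (H3 X k c T hT hX).trans ?_
    have h5 : 0 ≤ T * k.factorial * (∑ p ∈ (Finset.range (X + 1)).filter Nat.Prime, c p ^ 2) ^ k := by
      have : 0 ≤ ∑ p ∈ (Finset.range (X + 1)).filter Nat.Prime, c p ^ 2 :=
        Finset.sum_nonneg fun p _ => sq_nonneg _
      positivity
    calc C3 * T * k.factorial * (∑ p ∈ (Finset.range (X + 1)).filter Nat.Prime, c p ^ 2) ^ k =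
        C3 * (T * k.factorial * (∑ p ∈ (Finset.range (X + 1)).filter Nat.Prime, c p ^ 2) ^ k) := by ring
      _ ≤ (C1 + C2 + C3) * (T * k.factorial * (∑ p ∈ (Finset.range (X + 1)).filter Nat.Prime, c p ^ 2) ^ k) := by
        nlinarith
      _ = _ := by ring

/-- the pointwise bound on the good set at the level `V` -/
lemma good_bound {C : ℝ} (D : Dat C) {T δ t : ℝ} (hT : 3 ≤ T) (hδ : 0 < δ) (hδ4 : δ ≤ 1 / 4)
    (h1 : T / 2 ≤ |t|) (h2 : |t| ≤ T) {V : ℕ} (hV : 1 ≤ V) (hVt : (V : ℝ) ≤ Lg T)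
    (hτ : Real.log (1 / δ) ≤ Real.log (Lg T)) (hP : ‖PP (Lg T / V) δ t‖ ≤ V) :
    ‖fz (1 / 2 + δ + t * I)‖ ≤ GV (4 * C) (Lg T) δ V := by
  have hC := D.pos
  set τ := Lg T with hτd
  have hV0 : (0 : ℝ) < V := by exact_mod_cast hV
  have hV1 : (1 : ℝ) ≤ V := by exact_mod_cast hV
  have hτ0 : 0 < τ := hV0.trans_le hVt
  have hl1 : 1 ≤ τ / V := by rw [le_div_iff₀ hV0]; linarith
  have hℓ := ell_ge hδ hδ4
  have hLt : Lg t ≤ τ := by
    rw [hτd]
    unfold Lg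
    refine Real.log_le_log (by positivity) ?_
    rw [abs_of_nonneg (by linarith : (0 : ℝ) ≤ T)]
    linarith
  have hexp : Real.exp (τ / V / 2) ≤ 1 + |t| := by
    have h3 : τ / V / 2 ≤ τ / 2 := by
      have : τ / V ≤ τ := by
        rw [div_le_iff₀ hV0]
        nlinarith
      linarith
    refine (Real.exp_le_exp.2 h3).trans ?_
    have h4 : Real.exp (τ / 2) ^ 2 = 3 + T := by
      rw [← Real.exp_nat_mul]
      have : ((2 : ℕ) : ℝ) * (τ / 2) = τ := by push_cast; ring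
      rw [this, hτd]
      unfold Lg
      rw [Real.exp_log (by positivity), abs_of_nonneg (by linarith : (0 : ℝ) ≤ T)]
    have h5 : 3 + T ≤ (1 + |t|) ^ 2 := by nlinarith
    have h6 : Real.exp (τ / 2) ^ 2 ≤ (1 + |t|) ^ 2 := by rw [h4]; exact h5
    exact le_of_sq_le_sq h6 (by positivity)
  have h3 := D.main t δ (τ / V) (by linarith) hδ (by linarith) hl1 hexp
  refine h3.trans ?_
  unfold GV
  rw [Real.exp_le_exp]
  have eD : Dd (τ / V) δ = Real.log (1 + V / (τ * δ)) := by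
    unfold Dd
    congr 2
    field_simp
  have hD0 := Dd_nonneg (by linarith : 0 < τ / V) hδ
  have hD2 := Dd_le hl1 hδ hδ4
  have hlog : Real.log (τ / V) ≤ Real.log τ := by
    refine Real.log_le_log (by positivity) ?_
    rw [div_le_iff₀ hV0]
    nlinarith
  have h4 : Lg t / (τ / V) * Dd (τ / V) δ ≤ V * Real.log (1 + V / (τ * δ)) := by
    rw [← eD]
    refine mul_le_mul_of_nonneg_right ?_ hD0
    rw [div_le_iff₀ (by positivity)]
    have : (V : ℝ) * (τ / V) = τ := by field_simp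
    rw [this]
    exact hLt
  have h5 : C * (1 + Real.log (τ / V) + Dd (τ / V) δ) ≤ 4 * C * Real.log τ := by
    have : 1 + Real.log (τ / V) + Dd (τ / V) δ ≤ 4 * Real.log τ := by linarith
    nlinarith
  linarith

end Pool.Agent.N964.MX
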