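import Mathlib
import Pool.Agent.N964.MX.H1

set_option autoImplicit false

/-!
# Project MX: numerical lemmas
-/

namespace Pool.Agent.N964.MX

lemma log_le_four {τ : ℝ} (h : 1 ≤ τ) : Real.log τ ≤ 4 * τ ^ (1 / 4 : ℝ) := by
  have h2 := Real.log_le_rpow_div (x := τ) (by linarith) (ε := 1 / 4) (by norm_num)
  calc _ ≤ _ := h2
    _ = _ := by ring

lemma log_sq_le {τ : ℝ} (h : 1 ≤ τ) : Real.log τ ^ 2 ≤ 16 * Real.sqrt τ := by
  have h0 := Real.log_nonneg h
  have h1 := log_le_four h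
  have e : (τ ^ (1 / 4 : ℝ)) ^ 2 = Real.sqrt τ := by
    rw [← Real.rpow_natCast, ← Real.rpow_mul (by linarith), Real.sqrt_eq_rpow]
    norm_num
  calc Real.log τ ^ 2 ≤ (4 * τ ^ (1 / 4 : ℝ)) ^ 2 := pow_le_pow_left₀ h0 h1 2
    _ = 16 * Real.sqrt τ := by rw [mul_pow, e]; norm_num

lemma log_four_le {τ : ℝ} (h : 1 ≤ τ) : Real.log τ ^ 4 ≤ 256 * τ := by
  have h1 := log_sq_le h
  have h2 : Real.sqrt τ ^ 2 = τ := Real.sq_sqrt (by linarith)
  have h3 : (Real.log τ ^ 2) ^ 2 ≤ (16 * Real.sqrt τ) ^ 2 := pow_le_pow_left₀ (sq_nonneg _) h1 2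
  calc Real.log τ ^ 4 = (Real.log τ ^ 2) ^ 2 := by ring
    _ ≤ _ := h3
    _ = 256 * τ := by rw [mul_pow, h2]; norm_num

/-- the size of `log τ` in the critical range -/
lemma logtau {K τ δ : ℝ} (hK : 1 ≤ K) (hτ : 1 ≤ τ) (hδ : 0 < δ) (hℓ : 1 ≤ Real.log (1 / δ))
    (h : τ * δ ≤ K * Real.log τ ^ 2) : Real.log τ ≤ 2 * (Real.log (16 * K) + 1) * Real.log (1 / δ) := by
  have h1 := log_sq_le hτ
  have hs : 1 ≤ Real.sqrt τ := by rw [Real.one_le_sqrt]; exact hτ
  have h2 : Real.sqrt τ ^ 2 = τ := Real.sq_sqrt (by linarith)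
  have h3 : τ * δ ≤ 16 * K * Real.sqrt τ := by nlinarith
  have h4 : Real.sqrt τ ≤ 16 * K * (1 / δ) := by
    rw [mul_one_div, le_div_iff₀ hδ]
    have : Real.sqrt τ * (Real.sqrt τ * δ) ≤ Real.sqrt τ * (16 * K) := by nlinarith
    exact le_of_mul_le_mul_left this (by linarith)
  have h5 : Real.log (Real.sqrt τ) ≤ Real.log (16 * K) + Real.log (1 / δ) := by
    rw [← Real.log_mul (by positivity) (by positivity)]
    exact Real.log_le_log (by linarith) h4
  rw [Real.log_sqrt (by linarith)] at h5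
  have h6 : 0 ≤ Real.log (16 * K) := Real.log_nonneg (by linarith)
  nlinarith

/-- the terms of the sum over the levels -/
lemma term_bound {C τ δ A v : ℝ} {V : ℕ} (hC : 0 < C) (hτ : Real.exp 2 ≤ τ) (hδ : 0 < δ) (hδ4 : δ ≤ 1 / 4)
    (hA : A = 6 * C * Real.log τ ^ 2) (hV : (V : ℝ) = v) (hv1 : 1 ≤ v) (hv4 : 12 * A ≤ v) (hvτ : v + 1 ≤ τ)
    (hvm : v ≤ 2 * τ / Real.log τ) :
    Real.exp ((v + 1) * Real.log (1 + (v + 1) / (τ * δ)) + (v + 1)) * (A / v) ^ V ≤
      Real.exp (3 * Real.log (1 / δ) + 144 * C * (2 * (Real.log (16 * (48 * C + 1)) + 1)) * (Real.log (1 / δ) / δ)) := by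
  have hτ0 : 0 < τ := (Real.exp_pos _).trans_le hτ
  have he2 : (7 : ℝ) ≤ Real.exp 2 := by
    have h1 : Real.exp 2 = Real.exp 1 * Real.exp 1 := by rw [← Real.exp_add]; norm_num
    have := Real.exp_one_gt_d9
    rw [h1]
    nlinarith
  have hτ1 : 1 ≤ τ := by linarith
  have hℓ := ell_ge hδ hδ4
  have hlτ : 2 ≤ Real.log τ := by rw [Real.le_log_iff_exp_le hτ0]; exact hτ
  have hA0 : 0 < A := by rw [hA]; positivity
  have hv0 : 0 < v := by linarith
  have hy0 : 0 < (v + 1) / (τ * δ) := by positivity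
  set y := (v + 1) / (τ * δ) with hy
  -- rewrite the left side
  have e1 : Real.exp ((v + 1) * Real.log (1 + y) + (v + 1)) * (A / v) ^ V =
      Real.exp 1 * (1 + y) * (Real.exp 1 * (1 + y) * (A / v)) ^ V := by
    have h1 : Real.exp ((v + 1) * Real.log (1 + y) + (v + 1)) = (Real.exp 1 * (1 + y)) ^ (V + 1) := by
      have h2 : Real.exp 1 * (1 + y) = Real.exp (Real.log (1 + y) + 1) := by
        rw [Real.exp_add, Real.exp_log (by linarith)]; ring
      rw [h2, ← Real.exp_nat_mul]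
      congr 1
      push_cast
      rw [hV]; ring
    rw [h1, pow_succ, mul_pow (Real.exp 1 * (1 + y)) (A / v)]
    ring
  rw [e1]
  have h1y : 1 + y ≤ Real.exp (2 * Real.log (1 / δ)) := by
    have h2 : Real.exp (2 * Real.log (1 / δ)) = (1 / δ) ^ 2 := by
      have : 2 * Real.log (1 / δ) = Real.log ((1 / δ) ^ 2) := by rw [Real.log_pow]; norm_num
      rw [this, Real.exp_log (by positivity)]
    rw [h2]
    have h3 : 4 ≤ 1 / δ := by rw [le_div_iff₀ hδ]; linarith
    have h4 : y ≤ 1 / δ := by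
      rw [hy, div_le_div_iff₀ (by positivity) hδ]
      nlinarith
    nlinarith
  have he3 : Real.exp 1 ≤ 3 := by linarith [Real.exp_one_lt_d9]
  set q := 6 * A / (τ * δ) with hq
  have hq0 : 0 < q := by positivity
  have hbase : Real.exp 1 * (1 + y) * (A / v) ≤ 1 / 4 + q := by
    have h2 : Real.exp 1 * (1 + y) * (A / v) ≤ 3 * (1 + y) * (A / v) := by gcongr
    refine h2.trans ?_
    have h3 : 3 * (1 + y) * (A / v) = 3 * A / v + 3 * A * (y / v) := by field_simp
    rw [h3]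
    have h4 : 3 * A / v ≤ 1 / 4 := by
      rw [div_le_div_iff₀ hv0 (by norm_num)]
      linarith
    have h5 : y / v ≤ 2 / (τ * δ) := by
      rw [hy, div_div, div_le_div_iff₀ (by positivity) (by positivity)]
      have : 0 < τ * δ := by positivity
      nlinarith
    have h6 : 3 * A * (y / v) ≤ 3 * A * (2 / (τ * δ)) := by gcongr
    have h7 : 3 * A * (2 / (τ * δ)) = q := by rw [hq]; ring
    linarith
  have hbase0 : 0 ≤ Real.exp 1 * (1 + y) * (A / v) := by positivity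
  have hpow : (Real.exp 1 * (1 + y) * (A / v)) ^ V ≤
      Real.exp (144 * C * (2 * (Real.log (16 * (48 * C + 1)) + 1)) * (Real.log (1 / δ) / δ)) := by
    refine (pow_le_pow_left₀ hbase0 hbase V).trans ?_
    have hlogK : 0 ≤ Real.log (16 * (48 * C + 1)) := Real.log_nonneg (by linarith)
    rcases le_or_gt q (3 / 4) with h | h
    · refine (pow_le_one₀ (by positivity) (by linarith)).trans ?_
      exact Real.one_le_exp (by positivity)
    · have h2 : 1 / 4 + q ≤ 2 * q := by linarith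
      refine (pow_le_pow_left₀ (by positivity) h2 V).trans ?_
      have h3 : (2 * q) ^ V = Real.exp (v * Real.log (2 * q)) := by
        rw [← hV, Real.exp_nat_mul, Real.exp_log (by positivity)]
      rw [h3, Real.exp_le_exp]
      have h4 : Real.log (2 * q) ≤ 2 * q := by
        have := Real.log_le_sub_one_of_pos (x := 2 * q) (by positivity)
        linarith
      have h5 : v * Real.log (2 * q) ≤ (2 * τ / Real.log τ) * (2 * q) := by
        calc v * Real.log (2 * q) ≤ v * (2 * q) := by gcongr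
          _ ≤ _ := by gcongr
      have hlτ0 : 0 < Real.log τ := by linarith
      have h6 : (2 * τ / Real.log τ) * (2 * q) = 144 * C * (Real.log τ / δ) := by
        rw [hq, hA]
        field_simp
        ring
      rw [h6] at h5
      refine h5.trans ?_
      have h7 : τ * δ ≤ (48 * C + 1) * Real.log τ ^ 2 := by
        rw [hq, lt_div_iff₀ (by positivity)] at h
        rw [hA] at h
        nlinarith [sq_nonneg (Real.log τ)]
      have h8 := logtau (by linarith) hτ1 hδ hℓ h7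
      rw [mul_assoc (144 * C)]
      refine mul_le_mul_of_nonneg_left ?_ (by positivity)
      rw [← mul_div_assoc]
      exact div_le_div_of_nonneg_right h8 hδ.le
  have hfin : Real.exp 1 * (1 + y) ≤ Real.exp (3 * Real.log (1 / δ)) := by
    calc Real.exp 1 * (1 + y) ≤ Real.exp (Real.log (1 / δ)) * Real.exp (2 * Real.log (1 / δ)) := by gcongr
      _ = _ := by rw [← Real.exp_add]; congr 1; ring
  rw [Real.exp_add]
  exact mul_le_mul hfin hpow (by positivity) (Real.exp_pos _).le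

/-- the first term -/
lemma first_bound {C τ δ A : ℝ} {V : ℕ} (hC : 0 < C) (hτ : Real.exp 2 ≤ τ) (hδ : 0 < δ) (hδ4 : δ ≤ 1 / 4)
    (hA : A = 6 * C * Real.log τ ^ 2) (hV : (V : ℝ) ≤ 12 * A + 1) :
    (V : ℝ) * Real.log (1 + V / (τ * δ)) + V ≤
      256 * (72 * C + 1) ^ 2 * (Real.log (1 / δ) / δ) + (72 * C + 1) * Real.log τ ^ 2 := by
  have hτ0 : 0 < τ := (Real.exp_pos _).trans_le hτ
  have he2 : (7 : ℝ) ≤ Real.exp 2 := by
    have h1 : Real.exp 2 = Real.exp 1 * Real.exp 1 := by rw [← Real.exp_add]; norm_num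
    have := Real.exp_one_gt_d9
    rw [h1]
    nlinarith
  have hτ1 : 1 ≤ τ := by linarith
  have hℓ := ell_ge hδ hδ4
  have hlτ : 2 ≤ Real.log τ := by rw [Real.le_log_iff_exp_le hτ0]; exact hτ
  have hVK : (V : ℝ) ≤ (72 * C + 1) * Real.log τ ^ 2 := by
    rw [hA] at hV
    nlinarith
  have hV0 : (0 : ℝ) ≤ V := Nat.cast_nonneg _
  have h1 : Real.log (1 + V / (τ * δ)) ≤ V / (τ * δ) := by
    have := Real.log_le_sub_one_of_pos (x := 1 + V / (τ * δ)) (by positivity)
    linarith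
  have h2 : (V : ℝ) * Real.log (1 + V / (τ * δ)) ≤ V * (V / (τ * δ)) := by gcongr
  have h3 : (V : ℝ) * (V / (τ * δ)) = V ^ 2 / τ * (1 / δ) := by
    field_simp
  have h4 : (V : ℝ) ^ 2 / τ ≤ 256 * (72 * C + 1) ^ 2 := by
    rw [div_le_iff₀ hτ0]
    have h5 := log_four_le hτ1
    calc (V : ℝ) ^ 2 ≤ ((72 * C + 1) * Real.log τ ^ 2) ^ 2 := pow_le_pow_left₀ hV0 hVK 2
      _ = (72 * C + 1) ^ 2 * Real.log τ ^ 4 := by ring
      _ ≤ (72 * C + 1) ^ 2 * (256 * τ) := by gcongr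
      _ = _ := by ring
  have h5 : 1 / δ ≤ Real.log (1 / δ) / δ := by gcongr
  have h6 : V ^ 2 / τ * (1 / δ) ≤ 256 * (72 * C + 1) ^ 2 * (Real.log (1 / δ) / δ) := by
    have : 0 ≤ 1 / δ := by positivity
    calc V ^ 2 / τ * (1 / δ) ≤ 256 * (72 * C + 1) ^ 2 * (1 / δ) := by gcongr
      _ ≤ _ := by gcongr
  linarith

/-- all that is needed about large `τ` -/
lemma exists_tau (C : ℝ) (hC : 0 < C) : ∃ τ1 : ℝ, Real.exp 2 ≤ τ1 ∧ ∀ τ : ℝ, τ1 ≤ τ →
    12 * (6 * C * Real.log τ ^ 2) + 1 ≤ τ / Real.log τ ∧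
    C * Real.sqrt τ * (1 + 2 * Real.log τ) ≤ τ / Real.log τ ∧ τ / Real.log τ + 1 ≤ τ := by
  have hlog : Filter.Tendsto (fun τ : ℝ => Real.log τ ^ 3 / τ ^ (1 / 2 : ℝ)) Filter.atTop (nhds 0) := by
    have h := isLittleO_log_rpow_rpow_atTop (s := 1 / 2) 3 (by norm_num)
    have h2 := h.tendsto_div_nhds_zero
    refine h2.congr fun x => ?_
    norm_cast
  have h1 := hlog.eventually (gt_mem_nhds (show (0 : ℝ) < 1 / (72 * C + 3 * C + 1) by positivity))
  obtain ⟨a, ha⟩ := Filter.eventually_atTop.1 h1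
  refine ⟨max a (Real.exp 2), le_max_right _ _, fun τ hτ => ?_⟩
  have hτ2 : Real.exp 2 ≤ τ := (le_max_right _ _).trans hτ
  have hτ0 : 0 < τ := (Real.exp_pos _).trans_le hτ2
  have he2 : (7 : ℝ) ≤ Real.exp 2 := by
    have h1 : Real.exp 2 = Real.exp 1 * Real.exp 1 := by rw [← Real.exp_add]; norm_num
    have := Real.exp_one_gt_d9
    rw [h1]
    nlinarith
  have hlτ : 2 ≤ Real.log τ := by rw [Real.le_log_iff_exp_le hτ0]; exact hτ2
  have h2 := ha τ ((le_max_left _ _).trans hτ)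
  rw [← Real.sqrt_eq_rpow, div_lt_div_iff₀ (Real.sqrt_pos.2 hτ0) (by positivity), one_mul] at h2
  set x := Real.log τ with hx
  set r := Real.sqrt τ with hr
  have hr0 : 0 < r := Real.sqrt_pos.2 hτ0
  have hr2 : r * r = τ := Real.mul_self_sqrt hτ0.le
  have hr1 : 1 ≤ r := by rw [hr, Real.one_le_sqrt]; linarith
  have hx3 : 4 ≤ x ^ 2 := by nlinarith
  refine ⟨?_, ?_, ?_⟩
  · rw [le_div_iff₀ (by linarith)]
    have h3 : (12 * (6 * C * x ^ 2) + 1) * x ≤ x ^ 3 * (72 * C + 3 * C + 1) := by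
      have h4 : x ≤ x ^ 3 := by nlinarith
      have h5 : 0 ≤ C * x ^ 3 := by positivity
      nlinarith
    nlinarith
  · rw [le_div_iff₀ (by linarith)]
    have h3 : C * (1 + 2 * x) * x ≤ x ^ 3 * (72 * C + 3 * C + 1) := by
      have h4 : (1 + 2 * x) * x ≤ 3 * x ^ 3 := by nlinarith
      have h5 : 0 ≤ x ^ 3 := by positivity
      nlinarith [mul_le_mul_of_nonneg_left h4 hC.le, mul_nonneg hC.le h5]
    calc C * r * (1 + 2 * x) * x = r * (C * (1 + 2 * x) * x) := by ring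
      _ ≤ r * r := by
        refine mul_le_mul_of_nonneg_left ?_ hr0.le
        linarith
      _ = τ := hr2
  · have h3 : τ / x ≤ τ / 2 := by gcongr
    linarith

end Pool.Agent.N964.MX
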