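import Mathlib
import Pool.Agent.N964.MX.H2

set_option autoImplicit false

/-!
# Project MX: the mean over a dyadic block
-/

namespace Pool.Agent.N964.MX

open Complex MeasureTheory
open Pool.Agent.H295R2 (fz Mx)
open Pool.Agent.Y23 (IsZ mu Lg)

lemma PP_cont (l δ : ℝ) : Continuous (fun t : ℝ => PP l δ t) := by
  unfold PP
  refine continuous_finsetSum _ fun p hp => ?_
  rw [mem_Pl] at hp
  have hp0 : (p : ℂ) ≠ 0 := by exact_mod_cast hp.2.ne_zero
  refine Continuous.mul continuous_const ?_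
  refine Continuous.const_cpow (by fun_prop) (Or.inl hp0)

lemma GV_nonneg (C τ δ : ℝ) (V : ℕ) : 0 ≤ GV C τ δ V := (Real.exp_pos _).le

/-- the integral of one term -/
lemma int_term {C : ℝ} (D : Dat C) {T δ : ℝ} (hT : 3 ≤ T) (hδ : 0 < δ) (hδ4 : δ ≤ 1 / 4) {V : ℕ} (hV : 1 ≤ V)
    (hVt : (V : ℝ) ≤ Lg T) (hτ : Real.log (1 / δ) ≤ Real.log (Lg T)) (hτ1 : 1 ≤ Real.log (Lg T)) :
    ∫ t in (-(3 + T))..(3 + T), (‖PP (Lg T / V) δ t‖ / V) ^ (2 * V) ≤
      C * (3 + T) * (6 * C * Real.log (Lg T) ^ 2 / V) ^ V := by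
  have hC := D.pos
  set τ := Lg T with hτd
  have hV0 : (0 : ℝ) < V := by exact_mod_cast hV
  have hV1 : (1 : ℝ) ≤ V := by exact_mod_cast hV
  have hτ0 : 0 < τ := hV0.trans_le hVt
  have hl1 : 1 ≤ τ / V := by rw [le_div_iff₀ hV0]; linarith
  have hexp : Real.exp τ = 3 + T := by
    rw [hτd]; unfold Lg
    rw [Real.exp_log (by positivity), abs_of_nonneg (by linarith : (0 : ℝ) ≤ T)]
  have hX : ((⌊Real.exp (τ / V)⌋₊ : ℕ) : ℝ) ^ V ≤ 3 + T := by
    have h1 : ((⌊Real.exp (τ / V)⌋₊ : ℕ) : ℝ) ≤ Real.exp (τ / V) := Nat.floor_le (Real.exp_pos _).le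
    calc ((⌊Real.exp (τ / V)⌋₊ : ℕ) : ℝ) ^ V ≤ Real.exp (τ / V) ^ V := pow_le_pow_left₀ (Nat.cast_nonneg _) h1 V
      _ = Real.exp τ := by
        rw [← Real.exp_nat_mul]
        congr 1
        field_simp
      _ = _ := hexp
  have h1 := D.mom ⌊Real.exp (τ / V)⌋₊ V (cc (τ / V) δ) (3 + T) (by linarith) hX
  have h2 := D.sq (τ / V) δ hl1 hδ (by linarith)
  have e1 : ∀ t : ℝ, (‖PP (τ / V) δ t‖ / V) ^ (2 * V) =
      (1 / (V : ℝ)) ^ (2 * V) * ‖∑ p ∈ (Finset.range (⌊Real.exp (τ / V)⌋₊ + 1)).filter Nat.Prime,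
        ((cc (τ / V) δ p : ℝ) : ℂ) * (p : ℂ) ^ (-(t : ℂ) * I)‖ ^ (2 * V) := by
    intro t
    rw [div_eq_mul_one_div, mul_pow, mul_comm]
    rfl
  simp_rw [e1]
  rw [intervalIntegral.integral_const_mul]
  have hS0 : 0 ≤ ∑ p ∈ Pl (τ / V), cc (τ / V) δ p ^ 2 := Finset.sum_nonneg fun p _ => sq_nonneg _
  have hℓ := ell_ge hδ hδ4
  have hA : ∑ p ∈ Pl (τ / V), cc (τ / V) δ p ^ 2 ≤ 6 * C * Real.log τ ^ 2 := by
    refine h2.trans ?_
    have hlog : Real.log (τ / V) ≤ Real.log τ := by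
      refine Real.log_le_log (by positivity) ?_
      rw [div_le_iff₀ hV0]
      nlinarith
    have hD0 := Dd_nonneg (by linarith : 0 < τ / V) hδ
    have hD2 := Dd_le hl1 hδ hδ4
    have hD3 : Dd (τ / V) δ ≤ 2 * Real.log τ := by linarith
    have hD4 : Dd (τ / V) δ ^ 2 ≤ (2 * Real.log τ) ^ 2 := pow_le_pow_left₀ hD0 hD3 2
    have : 1 + Real.log (τ / V) + Dd (τ / V) δ ^ 2 ≤ 6 * Real.log τ ^ 2 := by nlinarith
    nlinarith
  have hfac : (V.factorial : ℝ) ≤ (V : ℝ) ^ V := by exact_mod_cast Nat.factorial_le_pow V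
  have hV2 : (1 / (V : ℝ)) ^ (2 * V) * ((V : ℝ) ^ V * (6 * C * Real.log τ ^ 2) ^ V) = (6 * C * Real.log τ ^ 2 / V) ^ V := by
    rw [pow_mul, ← mul_pow, ← mul_pow]
    congr 1
    field_simp
  calc (1 / (V : ℝ)) ^ (2 * V) * ∫ t in (-(3 + T))..(3 + T), ‖∑ p ∈ (Finset.range (⌊Real.exp (τ / V)⌋₊ + 1)).filter Nat.Prime,
        ((cc (τ / V) δ p : ℝ) : ℂ) * (p : ℂ) ^ (-(t : ℂ) * I)‖ ^ (2 * V) ≤
      (1 / (V : ℝ)) ^ (2 * V) * (C * (3 + T) * V.factorial * (∑ p ∈ Pl (τ / V), cc (τ / V) δ p ^ 2) ^ V) := by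
        refine mul_le_mul_of_nonneg_left h1 (by positivity)
    _ ≤ (1 / (V : ℝ)) ^ (2 * V) * (C * (3 + T) * (V : ℝ) ^ V * (6 * C * Real.log τ ^ 2) ^ V) := by
        gcongr
    _ = C * (3 + T) * ((1 / (V : ℝ)) ^ (2 * V) * ((V : ℝ) ^ V * (6 * C * Real.log τ ^ 2) ^ V)) := by ring
    _ = _ := by rw [hV2]

/-- the block bound for large heights -/
lemma block {C : ℝ} (D : Dat C) {τ1 : ℝ} (hτ1 : Real.exp 2 ≤ τ1)
    (H : ∀ τ : ℝ, τ1 ≤ τ → 12 * (6 * C * Real.log τ ^ 2) + 1 ≤ τ / Real.log τ ∧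
      C * Real.sqrt τ * (1 + 2 * Real.log τ) ≤ τ / Real.log τ ∧ τ / Real.log τ + 1 ≤ τ) :
    ∃ K : ℝ, 0 < K ∧ ∀ T δ : ℝ, 3 ≤ T → 0 < δ → δ ≤ 1 / 4 → τ1 ≤ Lg T → 1 / δ ≤ Lg T →
      ∃ R : ℝ → ℝ, Continuous R ∧ (∀ t, 0 ≤ R t) ∧ (∀ t : ℝ, T / 2 ≤ |t| → |t| ≤ T → ‖fz (1 / 2 + δ + t * I)‖ ≤ R t) ∧
      ∫ t in (-(3 + T))..(3 + T), R t ≤ T * Real.exp (K * (Real.log (1 / δ) / δ) + K * Real.log (Lg T) ^ 2) := by
  have hC := D.pos
  set K1 := 2 * (Real.log (16 * (48 * C + 1)) + 1) with hK1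
  have hK10 : 0 ≤ K1 := by
    have : 0 ≤ Real.log (16 * (48 * C + 1)) := Real.log_nonneg (by linarith)
    rw [hK1]; linarith
  refine ⟨256 * (72 * C + 1) ^ 2 + (72 * C + 1) + 4 * C + 144 * C * K1 + 3 + 1 + C + 4, by positivity, ?_⟩
  intro T δ hT hδ hδ4 hτT hδT
  set τ := Lg T with hτd
  obtain ⟨a1, a2, a3⟩ := H τ hτT
  have hτ2 : Real.exp 2 ≤ τ := hτ1.trans hτT
  have hτ0 : 0 < τ := (Real.exp_pos _).trans_le hτ2
  have he2 : (7 : ℝ) ≤ Real.exp 2 := by
    have h1 : Real.exp 2 = Real.exp 1 * Real.exp 1 := by rw [← Real.exp_add]; norm_num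
    have := Real.exp_one_gt_d9
    rw [h1]
    nlinarith
  have hlτ : 2 ≤ Real.log τ := by rw [Real.le_log_iff_exp_le hτ0]; exact hτ2
  have hℓτ : Real.log (1 / δ) ≤ Real.log τ := Real.log_le_log (by positivity) hδT
  have hℓ := ell_ge hδ hδ4
  set A := 6 * C * Real.log τ ^ 2 with hA
  have hA0 : 0 < A := by positivity
  set V0 := ⌈12 * A⌉₊ with hV0
  set Vm := ⌈τ / Real.log τ⌉₊ with hVm
  have hV0a : 12 * A ≤ (V0 : ℝ) := Nat.le_ceil _
  have hV0b : (V0 : ℝ) < 12 * A + 1 := Nat.ceil_lt_add_one (by positivity)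
  have hV01 : 1 ≤ V0 := by
    rw [Nat.one_le_iff_ne_zero]
    intro h
    rw [h] at hV0a
    simp at hV0a
    linarith
  have hVm1 : τ / Real.log τ ≤ (Vm : ℝ) := Nat.le_ceil _
  have hVm2 : (Vm : ℝ) < τ / Real.log τ + 1 := Nat.ceil_lt_add_one (by positivity)
  have hle : V0 ≤ Vm := by
    have h1 : (V0 : ℝ) ≤ Vm := by linarith
    exact_mod_cast h1
  obtain ⟨n, hn⟩ := Nat.exists_eq_add_of_le hle
  set R : ℝ → ℝ := fun t => GV (4 * C) τ δ V0 + ∑ j ∈ Finset.range n,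
    GV (4 * C) τ δ (V0 + j + 1) * (‖PP (τ / ((V0 + j : ℕ) : ℝ)) δ t‖ / ((V0 + j : ℕ) : ℝ)) ^ (2 * (V0 + j)) with hR
  have hcont : ∀ j : ℕ, Continuous (fun t : ℝ => GV (4 * C) τ δ (V0 + j + 1) *
      (‖PP (τ / ((V0 + j : ℕ) : ℝ)) δ t‖ / ((V0 + j : ℕ) : ℝ)) ^ (2 * (V0 + j))) := by
    intro j
    exact continuous_const.mul ((((PP_cont _ _).norm).div_const _).pow _)
  have hterm0 : ∀ (j : ℕ) (t : ℝ), 0 ≤ GV (4 * C) τ δ (V0 + j + 1) *
      (‖PP (τ / ((V0 + j : ℕ) : ℝ)) δ t‖ / ((V0 + j : ℕ) : ℝ)) ^ (2 * (V0 + j)) := by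
    intro j t
    have := GV_nonneg (4 * C) τ δ (V0 + j + 1)
    positivity
  have hVmτ : (Vm : ℝ) ≤ τ := by linarith
  refine ⟨R, continuous_const.add (continuous_finsetSum _ fun j _ => hcont j), fun t => ?_, fun t h1 h2 => ?_, ?_⟩
  · exact add_nonneg (GV_nonneg _ _ _ _) (Finset.sum_nonneg fun j _ => hterm0 j t)
  · refine first_good (fun V => ‖PP (τ / (V : ℝ)) δ t‖) (GV (4 * C) τ δ) _ V0 n (fun V => GV_nonneg _ _ _ _) hV01 ?_ ?_
    · -- the last level is always good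
      rw [← hn]
      have hVm0 : (0 : ℝ) < Vm := by
        have : 0 < τ / Real.log τ := by positivity
        linarith
      have hl1 : 1 ≤ τ / Vm := by rw [le_div_iff₀ hVm0]; linarith
      have h3 := PP_le (t := t) (D.one (τ / Vm) δ hl1 hδ (by linarith)) (D.wnn (τ / Vm) δ hl1 hδ (by linarith))
      refine h3.trans ?_
      have h4 : Real.exp (τ / Vm / 2) ≤ Real.sqrt τ := by
        have h5 : τ / Vm ≤ Real.log τ := by
          rw [div_le_iff₀ hVm0]
          rw [div_le_iff₀ (by linarith)] at hVm1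
          linarith
        have h6 : Real.sqrt τ = Real.exp (Real.log τ / 2) := by
          rw [Real.sqrt_eq_rpow, Real.rpow_def_of_pos hτ0]
          congr 1
          ring
        rw [h6, Real.exp_le_exp]
        linarith
      have hD2 := Dd_le hl1 hδ hδ4
      have hD0 := Dd_nonneg (by linarith : 0 < τ / Vm) hδ
      calc C * Real.exp (τ / Vm / 2) * (1 + Dd (τ / Vm) δ) ≤ C * Real.sqrt τ * (1 + 2 * Real.log τ) := by
            gcongr
            linarith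
        _ ≤ _ := a2
        _ ≤ _ := hVm1
    · intro V hV1 hV2 hP
      rw [← hn] at hV2
      have h3 : (V : ℝ) ≤ Vm := by exact_mod_cast hV2
      exact good_bound D hT hδ hδ4 h1 h2 (hV01.trans hV1) (h3.trans hVmτ) hℓτ hP
  · -- the integral
    have hint : ∀ j : ℕ, IntervalIntegrable (fun t : ℝ => GV (4 * C) τ δ (V0 + j + 1) *
      (‖PP (τ / ((V0 + j : ℕ) : ℝ)) δ t‖ / ((V0 + j : ℕ) : ℝ)) ^ (2 * (V0 + j))) volume (-(3 + T)) (3 + T) :=
      fun j => (hcont j).intervalIntegrable _ _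
    rw [hR]
    rw [intervalIntegral.integral_add (continuous_const.intervalIntegrable _ _)
      ((continuous_finsetSum _ fun j _ => hcont j).intervalIntegrable _ _), intervalIntegral.integral_const,
      intervalIntegral.integral_finset_sum fun j _ => hint j]
    simp_rw [intervalIntegral.integral_const_mul]
    set E := 256 * (72 * C + 1) ^ 2 * (Real.log (1 / δ) / δ) + (72 * C + 1) * Real.log τ ^ 2 + 4 * C * Real.log τ with hE
    have hfirst : GV (4 * C) τ δ V0 ≤ Real.exp E := by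
      unfold GV
      rw [Real.exp_le_exp]
      have := first_bound hC hτ2 hδ hδ4 hA hV0b.le
      linarith
    have hj : ∀ j ∈ Finset.range n, GV (4 * C) τ δ (V0 + j + 1) *
        ∫ t in (-(3 + T))..(3 + T), (‖PP (τ / ((V0 + j : ℕ) : ℝ)) δ t‖ / ((V0 + j : ℕ) : ℝ)) ^ (2 * (V0 + j)) ≤
        C * (3 + T) * Real.exp (3 * Real.log (1 / δ) + 144 * C * K1 * (Real.log (1 / δ) / δ) + 4 * C * Real.log τ) := by
      intro j hj
      rw [Finset.mem_range] at hj
      have hv1 : 1 ≤ V0 + j := by omega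
      have hvm : V0 + j + 1 ≤ Vm := by omega
      have hvm' : ((V0 + j : ℕ) : ℝ) + 1 ≤ Vm := by exact_mod_cast hvm
      have h3 := int_term D hT hδ hδ4 hv1 (by rw [← hτd]; linarith) hℓτ (by rw [← hτd]; linarith)
      rw [← hτd, ← hA] at h3
      have h4 := term_bound (V := V0 + j) hC hτ2 hδ hδ4 hA rfl (by exact_mod_cast hv1) (by push_cast; linarith [(Nat.cast_nonneg j : (0 : ℝ) ≤ j)])
        (by linarith) (by
          have h5 : ((V0 + j : ℕ) : ℝ) ≤ τ / Real.log τ := by linarith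
          have h6 : 0 ≤ τ / Real.log τ := by positivity
          have h7 : 2 * τ / Real.log τ = 2 * (τ / Real.log τ) := by ring
          rw [h7]; linarith)
      rw [← hK1] at h4
      have h5 : GV (4 * C) τ δ (V0 + j + 1) = Real.exp ((((V0 + j : ℕ) : ℝ) + 1) *
          Real.log (1 + (((V0 + j : ℕ) : ℝ) + 1) / (τ * δ)) + (((V0 + j : ℕ) : ℝ) + 1)) * Real.exp (4 * C * Real.log τ) := by
        unfold GV
        rw [← Real.exp_add]
        push_cast
        rfl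
      rw [h5]
      calc _ ≤ Real.exp ((((V0 + j : ℕ) : ℝ) + 1) *
          Real.log (1 + (((V0 + j : ℕ) : ℝ) + 1) / (τ * δ)) + (((V0 + j : ℕ) : ℝ) + 1)) * Real.exp (4 * C * Real.log τ) *
            (C * (3 + T) * (A / ((V0 + j : ℕ) : ℝ)) ^ (V0 + j)) :=
            mul_le_mul_of_nonneg_left h3 (by positivity)
        _ = C * (3 + T) * Real.exp (4 * C * Real.log τ) * (Real.exp ((((V0 + j : ℕ) : ℝ) + 1) *
          Real.log (1 + (((V0 + j : ℕ) : ℝ) + 1) / (τ * δ)) + (((V0 + j : ℕ) : ℝ) + 1)) *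
            (A / ((V0 + j : ℕ) : ℝ)) ^ (V0 + j)) := by ring
        _ ≤ C * (3 + T) * Real.exp (4 * C * Real.log τ) *
            Real.exp (3 * Real.log (1 / δ) + 144 * C * K1 * (Real.log (1 / δ) / δ)) :=
            mul_le_mul_of_nonneg_left h4 (by positivity)
        _ = _ := by rw [mul_assoc, ← Real.exp_add]; congr 2; ring
    have hsum := Finset.sum_le_sum hj
    rw [Finset.sum_const, Finset.card_range, nsmul_eq_mul] at hsum
    have hnτ : (n : ℝ) ≤ Real.exp (Real.log τ) := by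
      rw [Real.exp_log hτ0]
      have : n ≤ Vm := by omega
      have h4 : (n : ℝ) ≤ Vm := by exact_mod_cast this
      linarith
    have h3T : 3 + T ≤ 2 * T := by linarith
    have hCe : C ≤ Real.exp C := by linarith [Real.add_one_le_exp C]
    set F := 3 * Real.log (1 / δ) + 144 * C * K1 * (Real.log (1 / δ) / δ) + 4 * C * Real.log τ with hF
    set G := (256 * (72 * C + 1) ^ 2 + (72 * C + 1) + 4 * C + 144 * C * K1 + 3 + 1 + C + 4) * (Real.log (1 / δ) / δ) +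
      (256 * (72 * C + 1) ^ 2 + (72 * C + 1) + 4 * C + 144 * C * K1 + 3 + 1 + C + 4) * Real.log τ ^ 2 with hG
    have hx2 : Real.log τ ≤ Real.log τ ^ 2 := by nlinarith
    have hu1 : Real.log (1 / δ) ≤ Real.log (1 / δ) / δ := by
      rw [le_div_iff₀ hδ]
      nlinarith
    have hu2 : 1 ≤ Real.log (1 / δ) / δ := by linarith
    set u := Real.log (1 / δ) / δ with hu
    set x2 := Real.log τ ^ 2 with hx2d
    have hx20 : 1 ≤ x2 := by nlinarith
    have hCK : 0 ≤ 144 * C * K1 := by positivity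
    have hC2 : 0 ≤ (72 * C + 1) ^ 2 := by positivity
    have hEG : E + 2 ≤ G := by
      rw [hE, hG]
      nlinarith [mul_nonneg hC2 (by linarith : 0 ≤ x2), mul_nonneg hCK (by linarith : 0 ≤ u), mul_nonneg hCK (by linarith : 0 ≤ x2),
        mul_nonneg hC.le (by linarith : 0 ≤ u), mul_nonneg hC.le (by linarith : 0 ≤ x2 - Real.log τ), mul_nonneg hC.le (by linarith : 0 ≤ x2)]
    have hFG : Real.log τ + C + F + 2 ≤ G := by
      rw [hF, hG]
      nlinarith [mul_nonneg hC2 (by linarith : 0 ≤ x2), mul_nonneg hC2 (by linarith : 0 ≤ u), mul_nonneg hCK (by linarith : 0 ≤ x2),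
        mul_nonneg hC.le (by linarith : 0 ≤ u - 1), mul_nonneg hC.le (by linarith : 0 ≤ x2 - Real.log τ), mul_nonneg hC.le (by linarith : 0 ≤ x2)]
    have hT0 : 0 < T := by linarith
    have he1 : (2 : ℝ) ≤ Real.exp 1 := by linarith [Real.exp_one_gt_d9]
    have he4 : (4 : ℝ) ≤ Real.exp 2 := by linarith
    have p1 : (3 + T - -(3 + T)) • GV (4 * C) τ δ V0 ≤ T * (4 * Real.exp E) := by
      rw [smul_eq_mul]
      have : 3 + T - -(3 + T) ≤ 4 * T := by linarith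
      calc (3 + T - -(3 + T)) * GV (4 * C) τ δ V0 ≤ (4 * T) * Real.exp E := by
            refine mul_le_mul this hfirst (GV_nonneg _ _ _ _) (by positivity)
        _ = _ := by ring
    have p2 : (n : ℝ) * (C * (3 + T) * Real.exp F) ≤ T * (2 * Real.exp (Real.log τ + C + F)) := by
      calc (n : ℝ) * (C * (3 + T) * Real.exp F) ≤ Real.exp (Real.log τ) * (Real.exp C * (2 * T) * Real.exp F) := by gcongr
        _ = T * (2 * (Real.exp (Real.log τ) * Real.exp C * Real.exp F)) := by ring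
        _ = _ := by rw [← Real.exp_add, ← Real.exp_add]
    -- a slightly better form
    have q3 : 4 * Real.exp E + 2 * Real.exp (Real.log τ + C + F) ≤ Real.exp G := by
      have r1 : 4 * Real.exp E ≤ 4 * Real.exp (G - 2) := by
        gcongr
        linarith
      have r2 : 2 * Real.exp (Real.log τ + C + F) ≤ 2 * Real.exp (G - 2) := by
        gcongr
        linarith
      have r3 : Real.exp G = Real.exp 2 * Real.exp (G - 2) := by rw [← Real.exp_add]; congr 1; ring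
      rw [r3]
      nlinarith [Real.exp_pos (G - 2)]
    calc (3 + T - -(3 + T)) • GV (4 * C) τ δ V0 + ∑ j ∈ Finset.range n, GV (4 * C) τ δ (V0 + j + 1) *
        ∫ t in (-(3 + T))..(3 + T), (‖PP (τ / ((V0 + j : ℕ) : ℝ)) δ t‖ / ((V0 + j : ℕ) : ℝ)) ^ (2 * (V0 + j)) ≤
        T * (4 * Real.exp E) + T * (2 * Real.exp (Real.log τ + C + F)) := by linarith
      _ = T * (4 * Real.exp E + 2 * Real.exp (Real.log τ + C + F)) := by ring
      _ ≤ T * Real.exp G := by gcongr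

end Pool.Agent.N964.MX
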