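import Mathlib
import Pool.Agent.N964.MX.H3

set_option autoImplicit false

/-!
# Project MX: the mean of `1 / ζ`
-/

namespace Pool.Agent.N964.MX

open Complex MeasureTheory
open Pool.Agent.H295R2 (fz Mx Zs)
open Pool.Agent.Y23 (IsZ mu Lg)

lemma rh_right' (h : RiemannHypothesis) {s : ℂ} (h0 : riemannZeta s = 0) : s.re ≤ 1 / 2 := by
  by_contra hc
  rw [not_le] at hc
  have h3 := h s h0 (by
    rintro ⟨n, hn⟩
    have := congrArg Complex.re hn
    simp at this
    have h3 : (0 : ℝ) ≤ n := Nat.cast_nonneg n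
    linarith) (by
      rintro rfl
      exact riemannZeta_one_ne_zero h0)
  linarith

lemma Zs_ne (h : RiemannHypothesis) {s : ℂ} (hs : 1 / 2 < s.re) : Zs s ≠ 0 := by
  intro h0
  by_cases h1 : s = 1
  · exact Pool.Agent.H295R2.Zs_ne_zero_of_one_le (s := s) (by rw [h1]; simp) h0
  · rw [← Pool.Agent.H295R2.Zs_eq h1] at h0
    rcases mul_eq_zero.mp h0 with h2 | h2
    · exact h1 (sub_eq_zero.mp h2)
    · linarith [rh_right' h h2]

lemma fz_cont (h : RiemannHypothesis) {b : ℝ} (hb : 0 < b) :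
    Continuous fun u : ℝ => fz (1 / 2 + b + (u : ℂ) * I) := by
  rw [continuous_iff_continuousAt]
  intro t
  have h2 : ContinuousAt fz (1 / 2 + b + (t : ℂ) * I) := by
    refine (Pool.Agent.H295R2.fz_differentiableAt (Zs_ne h ?_)).continuousAt
    simp
    exact hb
  exact ContinuousAt.comp (f := fun u : ℝ => (1 / 2 : ℂ) + b + (u : ℂ) * I) h2 (by fun_prop)

/-- the pointwise bound with a short polynomial -/
lemma pt_one {C : ℝ} (D : Dat C) {δ t : ℝ} (hδ : 0 < δ) (hδ4 : δ ≤ 1 / 4) (ht : 1 ≤ |t|) :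
    ‖fz (1 / 2 + δ + t * I)‖ ≤ Real.exp ((2 * Lg t + 9 * C) * Real.log (1 / δ)) := by
  have hC := D.pos
  have he : Real.exp (1 / 2) ≤ 2 := by
    have h1 : Real.exp (1 / 2) * Real.exp (1 / 2) = Real.exp 1 := by rw [← Real.exp_add]; norm_num
    have h2 := Real.exp_one_lt_d9
    nlinarith [Real.exp_pos (1 / 2)]
  have h1 := D.main t δ 1 ht hδ (by linarith) le_rfl (by linarith)
  refine h1.trans (Real.exp_le_exp.2 ?_)
  have hℓ := ell_ge hδ hδ4
  have hD0 := Dd_nonneg one_pos hδ
  have hD2 := Dd_le le_rfl hδ hδ4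
  have hP := PP_le (t := t) (D.one 1 δ le_rfl hδ (by linarith)) (D.wnn 1 δ le_rfl hδ (by linarith))
  have hL := Pool.Agent.Y23.one_le_Lg t
  have h2 : C * Real.exp (1 / 2) * (1 + Dd 1 δ) ≤ C * 2 * (1 + 2 * Real.log (1 / δ)) := by gcongr
  rw [Real.log_one, div_one, add_zero]
  have h3 : Lg t * Dd 1 δ ≤ Lg t * (2 * Real.log (1 / δ)) := by gcongr
  nlinarith [mul_nonneg hC.le (by linarith : 0 ≤ 2 * Real.log (1 / δ) - Dd 1 δ), mul_nonneg hC.le (by linarith : 0 ≤ Real.log (1 / δ) - 1)]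

lemma Lg_mono {T t : ℝ} (h : |t| ≤ T) : Lg t ≤ Lg T := by
  have h0 : 0 ≤ T := (abs_nonneg t).trans h
  unfold Lg
  refine Real.log_le_log (by positivity) ?_
  rw [abs_of_nonneg h0]
  linarith

/-- all blocks -/
lemma blocks {C : ℝ} (D : Dat C) (RH : RiemannHypothesis) : ∃ K : ℝ, 0 < K ∧ ∀ T δ : ℝ, 3 ≤ T → 0 < δ → δ ≤ 1 / 4 →
    (∫ t in (-T)..(-(T / 2)), ‖fz (1 / 2 + δ + t * I)‖) + (∫ t in (T / 2)..T, ‖fz (1 / 2 + δ + t * I)‖) ≤
      T * Real.exp (K * (Real.log (1 / δ) / δ) + K * Real.log (Lg T) ^ 2) := by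
  have hC := D.pos
  obtain ⟨τ1, hτ1, H⟩ := exists_tau C hC
  obtain ⟨K, hK, HK⟩ := block D hτ1 H
  have hτ10 : 0 < τ1 := (Real.exp_pos _).trans_le hτ1
  refine ⟨K + (2 * τ1 + 2 + 9 * C), by positivity, fun T δ hT hδ hδ4 => ?_⟩
  have hℓ := ell_ge hδ hδ4
  have hu : 1 ≤ Real.log (1 / δ) / δ := by
    rw [le_div_iff₀ hδ]; linarith
  have hu1 : Real.log (1 / δ) ≤ Real.log (1 / δ) / δ := by
    rw [le_div_iff₀ hδ]
    nlinarith
  have hgc : Continuous (fun t : ℝ => ‖fz (1 / 2 + δ + t * I)‖) := (fz_cont RH hδ).norm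
  rcases le_or_gt (max τ1 (1 / δ)) (Lg T) with h | h
  · obtain ⟨R, hR1, hR2, hR3, hR4⟩ := HK T δ hT hδ hδ4 ((le_max_left _ _).trans h) ((le_max_right _ _).trans h)
    have i1 : ∫ t in (-T)..(-(T / 2)), ‖fz (1 / 2 + δ + t * I)‖ ≤ ∫ t in (-T)..(-(T / 2)), R t := by
      refine intervalIntegral.integral_mono_on (by linarith) (hgc.intervalIntegrable _ _) (hR1.intervalIntegrable _ _) ?_
      intro t ht
      rw [Set.mem_Icc] at ht
      refine hR3 t ?_ ?_
      · rw [abs_of_nonpos (by linarith [ht.2])]; linarith [ht.2]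
      · rw [abs_of_nonpos (by linarith [ht.2])]; linarith [ht.1]
    have i2 : ∫ t in (T / 2)..T, ‖fz (1 / 2 + δ + t * I)‖ ≤ ∫ t in (T / 2)..T, R t := by
      refine intervalIntegral.integral_mono_on (by linarith) (hgc.intervalIntegrable _ _) (hR1.intervalIntegrable _ _) ?_
      intro t ht
      rw [Set.mem_Icc] at ht
      refine hR3 t ?_ ?_
      · rw [abs_of_nonneg (by linarith [ht.1])]; exact ht.1
      · rw [abs_of_nonneg (by linarith [ht.1])]; exact ht.2
    have i3 : (∫ t in (-T)..(-(T / 2)), R t) + (∫ t in (T / 2)..T, R t) ≤ ∫ t in (-(3 + T))..(3 + T), R t := by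
      have s1 : ∀ a b : ℝ, a ≤ b → 0 ≤ ∫ t in a..b, R t := fun a b hab =>
        intervalIntegral.integral_nonneg hab fun t _ => hR2 t
      have s2 : ∫ t in (-(3 + T))..(3 + T), R t = (∫ t in (-(3 + T))..(-T), R t) + (∫ t in (-T)..(-(T / 2)), R t) +
          (∫ t in (-(T / 2))..(T / 2), R t) + (∫ t in (T / 2)..T, R t) + (∫ t in T..(3 + T), R t) := by
        rw [intervalIntegral.integral_add_adjacent_intervals (hR1.intervalIntegrable _ _) (hR1.intervalIntegrable _ _),
          intervalIntegral.integral_add_adjacent_intervals (hR1.intervalIntegrable _ _) (hR1.intervalIntegrable _ _),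
          intervalIntegral.integral_add_adjacent_intervals (hR1.intervalIntegrable _ _) (hR1.intervalIntegrable _ _),
          intervalIntegral.integral_add_adjacent_intervals (hR1.intervalIntegrable _ _) (hR1.intervalIntegrable _ _)]
      rw [s2]
      have := s1 (-(3 + T)) (-T) (by linarith)
      have := s1 (-(T / 2)) (T / 2) (by linarith)
      have := s1 T (3 + T) (by linarith)
      linarith
    refine ((add_le_add i1 i2).trans (i3.trans hR4)).trans ?_
    refine mul_le_mul_of_nonneg_left (Real.exp_le_exp.2 ?_) (by linarith)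
    have := sq_nonneg (Real.log (Lg T))
    have h9 : 0 ≤ 2 * τ1 + 2 + 9 * C := by positivity
    nlinarith [mul_nonneg h9 this, mul_nonneg h9 (by linarith : 0 ≤ Real.log (1 / δ) / δ)]
  · have hpt : ∀ t : ℝ, 1 ≤ |t| → |t| ≤ T → ‖fz (1 / 2 + δ + t * I)‖ ≤
        Real.exp ((2 * τ1 + 2 + 9 * C) * (Real.log (1 / δ) / δ)) := by
      intro t h1 h2
      refine (pt_one D hδ hδ4 h1).trans (Real.exp_le_exp.2 ?_)
      have h3 := Lg_mono h2
      have h4 : Lg T ≤ τ1 + 1 / δ := by
        refine h.le.trans (max_le ?_ ?_)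
        · have : 0 < 1 / δ := by positivity
          linarith
        · linarith
      have e1 : (1 / δ) * Real.log (1 / δ) = Real.log (1 / δ) / δ := by ring
      calc (2 * Lg t + 9 * C) * Real.log (1 / δ) ≤ (2 * (τ1 + 1 / δ) + 9 * C) * Real.log (1 / δ) := by
            refine mul_le_mul_of_nonneg_right ?_ (by linarith)
            linarith
        _ = (2 * τ1 + 9 * C) * Real.log (1 / δ) + 2 * (Real.log (1 / δ) / δ) := by rw [← e1]; ring
        _ ≤ (2 * τ1 + 9 * C) * (Real.log (1 / δ) / δ) + 2 * (Real.log (1 / δ) / δ) := by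
            have : 0 ≤ 2 * τ1 + 9 * C := by positivity
            nlinarith
        _ = _ := by ring
    have i1 : ∫ t in (-T)..(-(T / 2)), ‖fz (1 / 2 + δ + t * I)‖ ≤
        ∫ t in (-T)..(-(T / 2)), Real.exp ((2 * τ1 + 2 + 9 * C) * (Real.log (1 / δ) / δ)) := by
      refine intervalIntegral.integral_mono_on (by linarith) (hgc.intervalIntegrable _ _) (continuous_const.intervalIntegrable _ _) ?_
      intro t ht
      rw [Set.mem_Icc] at ht
      refine hpt t ?_ ?_
      · rw [abs_of_nonpos (by linarith [ht.2])]; linarith [ht.2]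
      · rw [abs_of_nonpos (by linarith [ht.2])]; linarith [ht.1]
    have i2 : ∫ t in (T / 2)..T, ‖fz (1 / 2 + δ + t * I)‖ ≤
        ∫ t in (T / 2)..T, Real.exp ((2 * τ1 + 2 + 9 * C) * (Real.log (1 / δ) / δ)) := by
      refine intervalIntegral.integral_mono_on (by linarith) (hgc.intervalIntegrable _ _) (continuous_const.intervalIntegrable _ _) ?_
      intro t ht
      rw [Set.mem_Icc] at ht
      refine hpt t ?_ ?_
      · rw [abs_of_nonneg (by linarith [ht.1])]; linarith [ht.1]
      · rw [abs_of_nonneg (by linarith [ht.1])]; exact ht.2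
    rw [intervalIntegral.integral_const, smul_eq_mul] at i1 i2
    have h5 : (-(T / 2) - -T) * Real.exp ((2 * τ1 + 2 + 9 * C) * (Real.log (1 / δ) / δ)) +
        (T - T / 2) * Real.exp ((2 * τ1 + 2 + 9 * C) * (Real.log (1 / δ) / δ)) =
        T * Real.exp ((2 * τ1 + 2 + 9 * C) * (Real.log (1 / δ) / δ)) := by ring
    have h6 : T * Real.exp ((2 * τ1 + 2 + 9 * C) * (Real.log (1 / δ) / δ)) ≤
        T * Real.exp ((K + (2 * τ1 + 2 + 9 * C)) * (Real.log (1 / δ) / δ) + (K + (2 * τ1 + 2 + 9 * C)) * Real.log (Lg T) ^ 2) := by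
      refine mul_le_mul_of_nonneg_left (Real.exp_le_exp.2 ?_) (by linarith)
      have h8 : 0 ≤ (K + (2 * τ1 + 2 + 9 * C)) * Real.log (Lg T) ^ 2 := by positivity
      nlinarith [mul_nonneg hK.le (by linarith : 0 ≤ Real.log (1 / δ) / δ)]
    linarith

theorem mean_of (h1 : S_main) (h2 : S_coef) (h3 : Pool.Agent.N967.S_mom) (h4 : S_small) : S_mean := by
  intro RH
  obtain ⟨C, D⟩ := dat_of h1 h2 h3 RH
  obtain ⟨C4, hC4, H4⟩ := h4 RH
  obtain ⟨K, hK, HK⟩ := blocks D RH
  have hC := D.pos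
  have hL3 : 0 < Lg 3 := by linarith [Pool.Agent.Y23.one_le_Lg 3]
  set M := K + (2 * Lg 3 + 9 * C) + 2 * C4 with hM
  have hM0 : 0 < M := by positivity
  refine ⟨M + 1, by positivity, fun T δ hT hδ hδ4 => ?_⟩
  have hℓ := ell_ge hδ hδ4
  set u := Real.log (1 / δ) / δ with hu
  have hu0 : 1 ≤ u := by
    rw [hu, le_div_iff₀ hδ]; linarith
  have hu1 : Real.log (1 / δ) ≤ u := by
    rw [hu, le_div_iff₀ hδ]
    nlinarith
  have hgc : Continuous (fun t : ℝ => ‖fz (1 / 2 + δ + t * I)‖) := (fz_cont RH hδ).norm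
  have hbase : ∀ t : ℝ, |t| ≤ 3 → ‖fz (1 / 2 + δ + t * I)‖ ≤ Real.exp (M * u) := by
    intro t ht
    rcases le_total |t| 1 with h | h
    · refine (H4 t δ h hδ hδ4).trans (Real.exp_le_exp.2 ?_)
      have : C4 * (1 + Real.log (1 / δ)) ≤ 2 * C4 * u := by nlinarith
      have h5 : 0 ≤ (K + (2 * Lg 3 + 9 * C)) * u := by positivity
      rw [hM]
      nlinarith
    · refine (pt_one D hδ hδ4 h).trans (Real.exp_le_exp.2 ?_)
      have h3 := Lg_mono ht
      have h4 : (2 * Lg t + 9 * C) * Real.log (1 / δ) ≤ (2 * Lg 3 + 9 * C) * u := by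
        refine mul_le_mul (by linarith) hu1 (by linarith) (by positivity)
      have h5 : 0 ≤ (K + 2 * C4) * u := by positivity
      rw [hM]
      nlinarith
  have key : ∀ n : ℕ, ∀ T : ℝ, 1 ≤ T → T ≤ 3 * 2 ^ n →
      ∫ t in (-T)..T, ‖fz (1 / 2 + δ + t * I)‖ ≤ 2 * T * Real.exp (M * u + M * Real.log (Lg T) ^ 2) := by
    intro n
    induction n with
    | zero =>
      intro T hT hT3
      have i1 : ∫ t in (-T)..T, ‖fz (1 / 2 + δ + t * I)‖ ≤ ∫ t in (-T)..T, Real.exp (M * u) := by
        refine intervalIntegral.integral_mono_on (by linarith) (hgc.intervalIntegrable _ _) (continuous_const.intervalIntegrable _ _) ?_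
        intro t ht
        rw [Set.mem_Icc] at ht
        refine hbase t (abs_le.2 ⟨?_, ?_⟩)
        · norm_num at hT3; linarith [ht.1]
        · norm_num at hT3; linarith [ht.2]
      rw [intervalIntegral.integral_const, smul_eq_mul] at i1
      have e : T - -T = 2 * T := by ring
      rw [e] at i1
      refine i1.trans (mul_le_mul_of_nonneg_left (Real.exp_le_exp.2 ?_) (by linarith))
      have : 0 ≤ M * Real.log (Lg T) ^ 2 := by positivity
      linarith
    | succ n ih =>
      intro T hT hTn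
      rcases le_or_gt T (3 * 2 ^ n) with h | h
      · exact ih T hT h
      · have h3 : 3 ≤ T := by
          have : (1 : ℝ) ≤ 2 ^ n := one_le_pow₀ (by norm_num)
          linarith
        have h5 := ih (T / 2) (by linarith) (by rw [pow_succ] at hTn; linarith)
        have h6 := HK T δ h3 hδ hδ4
        have s2 : ∫ t in (-T)..T, ‖fz (1 / 2 + δ + t * I)‖ = (∫ t in (-T)..(-(T / 2)), ‖fz (1 / 2 + δ + t * I)‖) +
          (∫ t in (-(T / 2))..(T / 2), ‖fz (1 / 2 + δ + t * I)‖) + (∫ t in (T / 2)..T, ‖fz (1 / 2 + δ + t * I)‖) := by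
          rw [intervalIntegral.integral_add_adjacent_intervals (hgc.intervalIntegrable _ _) (hgc.intervalIntegrable _ _),
            intervalIntegral.integral_add_adjacent_intervals (hgc.intervalIntegrable _ _) (hgc.intervalIntegrable _ _)]
        rw [s2]
        have hLL : Real.log (Lg (T / 2)) ^ 2 ≤ Real.log (Lg T) ^ 2 := by
          have h7 : Lg (T / 2) ≤ Lg T := Lg_mono (by rw [abs_of_nonneg (by linarith)]; linarith)
          have h8 := Pool.Agent.Y23.one_le_Lg (T / 2)
          exact pow_le_pow_left₀ (Real.log_nonneg h8) (Real.log_le_log (by linarith) h7) 2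
        have h9 : 2 * (T / 2) * Real.exp (M * u + M * Real.log (Lg (T / 2)) ^ 2) ≤
            T * Real.exp (M * u + M * Real.log (Lg T) ^ 2) := by
          have e : 2 * (T / 2) = T := by ring
          rw [e]
          refine mul_le_mul_of_nonneg_left (Real.exp_le_exp.2 ?_) (by linarith)
          have := mul_le_mul_of_nonneg_left hLL hM0.le
          linarith
        have h10 : T * Real.exp (K * u + K * Real.log (Lg T) ^ 2) ≤ T * Real.exp (M * u + M * Real.log (Lg T) ^ 2) := by
          refine mul_le_mul_of_nonneg_left (Real.exp_le_exp.2 ?_) (by linarith)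
          have hKM : K ≤ M := by rw [hM]; nlinarith
          have := sq_nonneg (Real.log (Lg T))
          nlinarith
        linarith
  obtain ⟨n, hn⟩ := pow_unbounded_of_one_lt T (one_lt_two)
  have h7 := key n T hT (by
    have : (0 : ℝ) < 2 ^ n := by positivity
    linarith)
  refine h7.trans ?_
  have h8 : 2 ≤ Real.exp u := by
    have := Real.add_one_le_exp u
    linarith
  have h9 : 2 * T * Real.exp (M * u + M * Real.log (Lg T) ^ 2) ≤ T * (Real.exp u * Real.exp (M * u + M * Real.log (Lg T) ^ 2)) := by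
    have h10 := Real.exp_pos (M * u + M * Real.log (Lg T) ^ 2)
    nlinarith [mul_le_mul_of_nonneg_right h8 (mul_nonneg (by linarith : 0 ≤ T) h10.le)]
  refine h9.trans (mul_le_mul_of_nonneg_left ?_ (by linarith))
  rw [← Real.exp_add, Real.exp_le_exp]
  have := sq_nonneg (Real.log (Lg T))
  nlinarith

end Pool.Agent.N964.MX
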