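import Mathlib
import Pool.Agent.N964.MX.H4

set_option autoImplicit false

/-!
# Project MX: Perron's formula
-/

namespace Pool.Agent.N964.MX

open Complex MeasureTheory Filter
open Pool.Agent.H295R2
open Pool.Agent.Y23 (Lg)

/-- the smoothed Perron formula -/
lemma mx_perron (RH : RiemannHypothesis) {σ y : ℝ} (hσ : 1 / 2 < σ) (hσ2 : σ ≤ 2) (hy : 1 ≤ y) :
    |Mx y| ≤ 20 + ‖∫ ξ : ℝ, PH (1 / y) (Real.log y) step (σ + 2 * Real.pi * ξ * Complex.I)‖ := by
  have hy0 : 0 < y := by linarith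
  set x : ℝ := Real.log y with hx
  set η : ℝ := 1 / y with hη
  have hη0 : 0 < η := by rw [hη]; positivity
  have hη1 : η ≤ 1 := by rw [hη, div_le_one hy0]; exact hy
  have hexpx : Real.exp x = y := by rw [hx, Real.exp_log hy0]
  have key := perron (x := x) (θ := 1 / 2) (by norm_num) (fun s hs => Zs_ne RH hs) hσ hσ2 step_nice hη0 hη1
  set k2 := avg η (avg η step) with hk2
  have hn : Nice k2 1 0 (0 - η - η) := (step_nice.avg hη0).avg hη0
  set N : ℕ := ⌊y * Real.exp (2 * η)⌋₊ with hN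
  have hzero : ∀ m ∉ Finset.Icc 1 N, ((ArithmeticFunction.moebius m : ℤ) : ℂ) * k2 (x - Real.log m) = 0 := by
    intro m hm
    rcases Nat.eq_zero_or_pos m with rfl | hm0
    · simp
    · have hm1 : N < m := by
        by_contra hcon
        exact hm (Finset.mem_Icc.mpr ⟨hm0, by omega⟩)
      have hm2 : y * Real.exp (2 * η) < m := (Nat.floor_lt (by positivity)).mp hm1
      rw [hn.zero, mul_zero]
      have h3 := Real.log_lt_log (by positivity) hm2
      rw [Real.log_mul hy0.ne' (Real.exp_pos _).ne', Real.log_exp] at h3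
      linarith
  have hsum := (hasSum_sum_of_ne_finset_zero hzero).unique key
  have hfloor : ⌊y⌋₊ ≤ N := by
    rw [hN]
    refine Nat.floor_le_floor ?_
    have : 1 ≤ Real.exp (2 * η) := Real.one_le_exp (by positivity)
    nlinarith
  have hsplit : ∑ m ∈ Finset.Icc 1 N, ((ArithmeticFunction.moebius m : ℤ) : ℂ) * k2 (x - Real.log m) =
      (Mx y : ℂ) + ∑ m ∈ Finset.Ioc ⌊y⌋₊ N, ((ArithmeticFunction.moebius m : ℤ) : ℂ) * k2 (x - Real.log m) := by
    have e0 : Finset.Icc 1 N = Finset.Icc 1 ⌊y⌋₊ ∪ Finset.Ioc ⌊y⌋₊ N := by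
      ext m
      simp only [Finset.mem_Icc, Finset.mem_union, Finset.mem_Ioc]
      omega
    rw [e0, Finset.sum_union]
    · congr 1
      unfold Mx mu
      push_cast
      refine Finset.sum_congr rfl fun m hm => ?_
      rw [Finset.mem_Icc] at hm
      have hm1 : (m:ℝ) ≤ y := (Nat.le_floor_iff hy0.le).mp hm.2
      have hm0 : (0:ℝ) < m := by exact_mod_cast hm.1
      have : 0 ≤ x - Real.log m := by
        have := Real.log_le_log hm0 hm1
        linarith
      rw [hk2, avg2_step_of_nonneg hη0 this, mul_one]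
    · rw [Finset.disjoint_left]
      intro m hm1 hm2
      rw [Finset.mem_Icc] at hm1
      rw [Finset.mem_Ioc] at hm2
      omega
  have hrest : ‖∑ m ∈ Finset.Ioc ⌊y⌋₊ N, ((ArithmeticFunction.moebius m : ℤ) : ℂ) * k2 (x - Real.log m)‖ ≤ 20 := by
    have hb : ∀ m ∈ Finset.Ioc ⌊y⌋₊ N, ‖((ArithmeticFunction.moebius m : ℤ) : ℂ) * k2 (x - Real.log m)‖ ≤ 1 := by
      intro m _
      rw [norm_mul, Complex.norm_intCast]
      have h3 : |((ArithmeticFunction.moebius m : ℤ) : ℝ)| ≤ 1 := abs_mu_le m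
      have h4 : ‖k2 (x - Real.log m)‖ ≤ 1 := by simpa using hn.bound (x - Real.log m)
      nlinarith [norm_nonneg (k2 (x - Real.log m)), abs_nonneg ((ArithmeticFunction.moebius m : ℤ) : ℝ)]
    refine (norm_sum_le_of_le _ hb).trans ?_
    rw [Finset.sum_const, Nat.card_Ioc, nsmul_eq_mul, mul_one, Nat.cast_sub hfloor]
    have h3 : (N:ℝ) ≤ y * Real.exp (2 * η) := Nat.floor_le (by positivity)
    have h4 : y - 1 < ⌊y⌋₊ := Nat.sub_one_lt_floor y
    have h5 : Real.exp (2 * η) ≤ 1 + 2 * η * Real.exp (2 * η) := by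
      have h6 := Real.add_one_le_exp (-(2 * η))
      have h7 : Real.exp (-(2 * η)) * Real.exp (2 * η) = 1 := by rw [← Real.exp_add]; simp
      nlinarith [Real.exp_pos (2 * η)]
    have h6 : Real.exp (2 * η) ≤ 9 := by
      calc Real.exp (2 * η) ≤ Real.exp 2 := Real.exp_le_exp.mpr (by linarith)
        _ = Real.exp 1 * Real.exp 1 := by rw [← Real.exp_add]; norm_num
        _ ≤ 9 := by nlinarith [Real.exp_one_lt_d9, Real.exp_pos 1]
    have h7 : y * η = 1 := by rw [hη]; field_simp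
    have h8 : y * Real.exp (2 * η) ≤ y + 18 := by
      calc y * Real.exp (2 * η) ≤ y * (1 + 2 * η * 9) := by
            gcongr
            calc Real.exp (2 * η) ≤ 1 + 2 * η * Real.exp (2 * η) := h5
              _ ≤ 1 + 2 * η * 9 := by gcongr
        _ = y + 18 * (y * η) := by ring
        _ = y + 18 := by rw [h7]; ring
    linarith
  have hfin : (Mx y : ℂ) = (∫ ξ : ℝ, PH η x step (σ + 2 * Real.pi * ξ * Complex.I)) -
      ∑ m ∈ Finset.Ioc ⌊y⌋₊ N, ((ArithmeticFunction.moebius m : ℤ) : ℂ) * k2 (x - Real.log m) := by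
    rw [← hsum, hsplit]; ring
  have hnorm : |Mx y| = ‖(Mx y : ℂ)‖ := by rw [Complex.norm_real, Real.norm_eq_abs]
  rw [hnorm, hfin]
  refine (norm_sub_le _ _).trans ?_
  linarith

/-- the weight -/
noncomputable def wt (y t : ℝ) : ℝ := min 1 (y / (1 + |t|)) / (1 + |t|)

lemma wt_nonneg {y : ℝ} (hy : 0 ≤ y) (t : ℝ) : 0 ≤ wt y t := by
  unfold wt
  have : 0 ≤ y / (1 + |t|) := by positivity
  have h2 : 0 ≤ min 1 (y / (1 + |t|)) := le_min zero_le_one this
  positivity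

lemma wt_cont (y : ℝ) : Continuous (wt y) := by
  unfold wt
  have h : ∀ t : ℝ, 1 + |t| ≠ 0 := fun t => by positivity
  exact (continuous_const.min (continuous_const.div (by fun_prop) h)).div (by fun_prop) h

lemma wt_le {y : ℝ} (hy : 0 ≤ y) (t : ℝ) : wt y t ≤ y * (1 + |t|) ^ (-2 : ℝ) := by
  unfold wt
  rw [Real.rpow_neg (by positivity)]
  have h1 : min 1 (y / (1 + |t|)) ≤ y / (1 + |t|) := min_le_right _ _
  have h2 : (0 : ℝ) < 1 + |t| := by positivity
  calc min 1 (y / (1 + |t|)) / (1 + |t|) ≤ y / (1 + |t|) / (1 + |t|) := by gcongr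
    _ = y * ((1 + |t|) ^ (2 : ℝ))⁻¹ := by
      norm_num
      field_simp

/-- the integrand is bounded by the weight -/
lemma PH_le {σ y : ℝ} (hσ : 1 / 4 ≤ σ) (hσ2 : σ ≤ 2) (hy : 1 ≤ y) (t : ℝ) :
    ‖PH (1 / y) (Real.log y) step (σ + t * I)‖ ≤ 2750 * y ^ σ * (‖fz (σ + t * I)‖ * wt y t) := by
  have hy0 : 0 < y := by linarith
  have hη0 : 0 < 1 / y := by positivity
  have hη1 : 1 / y ≤ 1 := by rw [div_le_one hy0]; exact hy
  set s : ℂ := σ + t * I with hs
  have hsre : s.re = σ := by simp [hs]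
  have hsim : s.im = t := by simp [hs]
  set T : ℝ := 1 + |t| with hT
  have hT0 : 0 < T := by rw [hT]; positivity
  unfold PH
  rw [norm_mul, norm_mul, norm_mul, norm_pow, Lap_step (by rw [hsre]; linarith)]
  have a1 : ‖1 / s‖ ≤ 5 / T := by
    rw [norm_div, norm_one]
    have hs0 : 1 / 4 ≤ ‖s‖ := by
      have := Complex.abs_re_le_norm s
      rw [hsre] at this
      exact hσ.trans ((le_abs_self _).trans this)
    have hs1 : |t| ≤ ‖s‖ := by rw [← hsim]; exact Complex.abs_im_le_norm s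
    rw [div_le_div_iff₀ (by linarith) hT0]
    rw [hT]; linarith
  have a2 : ‖phi (1 / y) s‖ ^ 2 ≤ 550 * min 1 (y / T) := by
    have h0 := norm_phi_pow (a := 0) hη0 hη1 (s := s) (by rw [hsre]; exact hσ) (by rw [hsre]; exact hσ2) le_rfl zero_le_one
    have h1 := norm_phi_pow (a := 1) hη0 hη1 (s := s) (by rw [hsre]; exact hσ) (by rw [hsre]; exact hσ2) zero_le_one le_rfl
    rw [neg_zero, Real.rpow_zero, mul_one] at h0
    rw [hsim, ← hT, Real.rpow_neg (by positivity), Real.rpow_one] at h1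
    have e : (1 / y * T)⁻¹ = y / T := by
      rw [mul_inv, one_div, inv_inv, div_eq_mul_inv]
    rw [e] at h1
    rcases min_choice 1 (y / T) with h | h
    · rw [h, mul_one]; exact h0
    · rw [h]; exact h1
  have a3 : ‖Complex.exp (s * ((Real.log y : ℝ) : ℂ))‖ = y ^ σ := by
    rw [Complex.norm_exp]
    simp only [Complex.mul_re, Complex.ofReal_re, Complex.ofReal_im, mul_zero, sub_zero, hsre]
    rw [Real.rpow_def_of_pos hy0, mul_comm]
  rw [a3]
  have hm : 0 ≤ min 1 (y / T) := le_min zero_le_one (by positivity)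
  have hyσ : 0 ≤ y ^ σ := Real.rpow_nonneg hy0.le _
  calc ‖1 / s‖ * ‖phi (1 / y) s‖ ^ 2 * y ^ σ * ‖fz s‖ ≤ (5 / T) * (550 * min 1 (y / T)) * y ^ σ * ‖fz s‖ := by gcongr
    _ = 2750 * y ^ σ * (‖fz s‖ * (min 1 (y / T) / T)) := by ring

lemma int_fw (RH : RiemannHypothesis) {δ y : ℝ} (hδ : 0 < δ) (hδ4 : δ ≤ 1 / 4) (hy : 1 ≤ y) :
    Integrable (fun t : ℝ => ‖fz (1 / 2 + δ + t * I)‖ * wt y t) := by
  obtain ⟨Cf, hCf0, hCf⟩ := fz_bound (θ := 1 / 2) (σ := 1 / 2 + δ) (ε := 1 / 2) (by norm_num)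
    (fun s hs => Zs_ne RH hs) (by linarith) (by norm_num)
  have hd := integrable_decay.const_mul (Cf * y)
  refine hd.mono' ?_ (Eventually.of_forall fun t => ?_)
  · exact ((fz_cont RH hδ).norm.mul (wt_cont y)).aestronglyMeasurable
  · have h1 := hCf (1 / 2 + δ + t * I) (by simp) (by simp; linarith)
    have him : (1 / 2 + (δ : ℂ) + t * I).im = t := by simp
    rw [him] at h1
    have h2 := wt_le (by linarith : 0 ≤ y) t
    rw [Real.norm_eq_abs, abs_of_nonneg (mul_nonneg (norm_nonneg _) (wt_nonneg (by linarith) t))]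
    have hT : (0 : ℝ) < 1 + |t| := by positivity
    calc ‖fz (1 / 2 + δ + t * I)‖ * wt y t ≤ (Cf * (1 + |t|) ^ (1 / 2 : ℝ)) * (y * (1 + |t|) ^ (-2 : ℝ)) := by
          refine mul_le_mul h1 h2 (wt_nonneg (by linarith) t) (by positivity)
      _ = Cf * y * ((1 + |t|) ^ (1 / 2 : ℝ) * (1 + |t|) ^ (-2 : ℝ)) := by ring
      _ = _ := by
        rw [← Real.rpow_add hT]
        norm_num

theorem mx_le (RH : RiemannHypothesis) {δ y : ℝ} (hδ : 0 < δ) (hδ4 : δ ≤ 1 / 4) (hy : 1 ≤ y) :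
    |Mx y| ≤ 20 + 2750 * y ^ (1 / 2 + δ) * ∫ t : ℝ, ‖fz (1 / 2 + δ + t * I)‖ * wt y t := by
  have h1 := mx_perron RH (σ := 1 / 2 + δ) (by linarith) (by linarith) hy
  have h2 := scale_integral (PH (1 / y) (Real.log y) step) (1 / 2 + δ)
  rw [h2] at h1
  have e0 : (((2 * Real.pi)⁻¹ : ℝ) : ℂ) = (2 * Real.pi : ℂ)⁻¹ := by push_cast; ring
  rw [e0] at h1
  refine h1.trans ?_
  have h3 : ‖(2 * Real.pi : ℂ)⁻¹ * ∫ t : ℝ, PH (1 / y) (Real.log y) step (((1 / 2 + δ : ℝ) : ℂ) + t * I)‖ ≤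
      2750 * y ^ (1 / 2 + δ) * ∫ t : ℝ, ‖fz (1 / 2 + δ + t * I)‖ * wt y t := by
    rw [norm_mul]
    have h4 : ‖(2 * Real.pi : ℂ)⁻¹‖ ≤ 1 := by
      rw [norm_inv]
      refine inv_le_one_of_one_le₀ ?_
      have : ‖(2 * Real.pi : ℂ)‖ = 2 * Real.pi := by
        rw [norm_mul, Complex.norm_real, Real.norm_eq_abs, abs_of_pos Real.pi_pos]
        norm_num
      rw [this]
      linarith [Real.pi_gt_three]
    have hI := (int_fw RH hδ hδ4 hy).const_mul (2750 * y ^ (1 / 2 + δ))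
    have h5 : ‖∫ t : ℝ, PH (1 / y) (Real.log y) step (((1 / 2 + δ : ℝ) : ℂ) + t * I)‖ ≤
        ∫ t : ℝ, 2750 * y ^ (1 / 2 + δ) * (‖fz (1 / 2 + δ + t * I)‖ * wt y t) := by
      refine norm_integral_le_of_norm_le hI (Eventually.of_forall fun t => ?_)
      have h6 := PH_le (σ := 1 / 2 + δ) (by linarith) (by linarith) hy t
      have e : (((1 / 2 + δ : ℝ) : ℂ) + t * I) = 1 / 2 + δ + t * I := by push_cast; ring
      rw [e] at h6 ⊢
      exact h6
    rw [integral_const_mul] at h5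
    calc _ ≤ 1 * ‖∫ t : ℝ, PH (1 / y) (Real.log y) step (((1 / 2 + δ : ℝ) : ℂ) + t * I)‖ := by gcongr
      _ ≤ _ := by rw [one_mul]; exact h5
  linarith [h3]

end Pool.Agent.N964.MX
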