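import Mathlib
import Pool.Agent.N964.MX.I1

set_option autoImplicit false

/-!
# Project MX: the bound for the Mertens function
-/

namespace Pool.Agent.N964.MX

open Complex MeasureTheory Filter Topology
open Pool.Agent.H295R2
open Pool.Agent.Y23 (Lg)

/-- the exponent -/
noncomputable def QQ (y : ℝ) : ℝ := Real.sqrt (Real.log y * Real.log (Real.log y))

lemma log3 : (1.09 : ℝ) ≤ Real.log 3 := by
  rw [Real.le_log_iff_exp_le (by norm_num)]
  have h1 : Real.exp 1.09 = Real.exp 1 * Real.exp 0.09 := by rw [← Real.exp_add]; norm_num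
  have h2 := Real.exp_one_lt_d9
  have h3 : Real.exp 0.09 ≤ 1.1 := by
    have := Real.abs_exp_sub_one_sub_id_le (x := 0.09) (by rw [abs_of_pos] <;> norm_num)
    have := (abs_le.1 this).2
    linarith
  rw [h1]
  nlinarith [Real.exp_pos 1, Real.exp_pos 0.09]

lemma log_ge {y : ℝ} (hy : 3 ≤ y) : 1.09 ≤ Real.log y := log3.trans (Real.log_le_log (by norm_num) hy)

lemma loglog_ge {y : ℝ} (hy : 3 ≤ y) : 0.08 ≤ Real.log (Real.log y) := by
  have h1 := log_ge hy
  have h2 := Real.one_sub_inv_le_log_of_pos (x := Real.log y) (by linarith)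
  have h3 : (Real.log y)⁻¹ ≤ (1.09 : ℝ)⁻¹ := inv_anti₀ (by norm_num) h1
  have h4 : (1.09 : ℝ)⁻¹ ≤ 0.92 := by norm_num
  linarith

lemma QQ_ge_sqrt {y : ℝ} (hy : 3 ≤ y) : 0.25 * Real.sqrt (Real.log y) ≤ QQ y := by
  unfold QQ
  have h1 := log_ge hy
  have h2 := loglog_ge hy
  rw [Real.sqrt_mul (by linarith)]
  have h3 : (0.25 : ℝ) ≤ Real.sqrt (Real.log (Real.log y)) := Real.le_sqrt_of_sq_le (by norm_num; linarith)
  have h4 := Real.sqrt_nonneg (Real.log y)
  nlinarith

lemma QQ_ge {y : ℝ} (hy : 3 ≤ y) : 0.25 ≤ QQ y := by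
  refine le_trans ?_ (QQ_ge_sqrt hy)
  have : 1 ≤ Real.sqrt (Real.log y) := by rw [Real.one_le_sqrt]; linarith [log_ge hy]
  linarith

/-- `(log log)²` is small -/
lemma loglog_small (K A : ℝ) (hK : 0 ≤ K) (hA : 1 ≤ A) : ∃ C : ℝ, 0 < C ∧ ∀ y : ℝ, 3 ≤ y →
    K * Real.log (A * Real.log y) ^ 2 + 2 * Real.log (A * Real.log y) ≤ C * QQ y := by
  refine ⟨(16 * K + 8) * (Real.sqrt A) * 4, by positivity, fun y hy => ?_⟩
  have h1 := log_ge hy
  have h2 : 1 ≤ A * Real.log y := by nlinarith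
  have h3 := log_sq_le h2
  have h4 : Real.log (A * Real.log y) ≤ 2 * Real.sqrt (A * Real.log y) := by
    have h5 := Real.log_le_rpow_div (x := A * Real.log y) (by linarith) (ε := 1 / 2) (by norm_num)
    rw [← Real.sqrt_eq_rpow] at h5
    calc _ ≤ _ := h5
      _ = _ := by ring
  rw [Real.sqrt_mul (by linarith)] at h3 h4
  have h6 := QQ_ge_sqrt hy
  have h7 : 0 ≤ Real.sqrt A := Real.sqrt_nonneg _
  have h8 : Real.sqrt A * Real.sqrt (Real.log y) ≤ Real.sqrt A * (4 * QQ y) := by gcongr; linarith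
  have h9 : 0 ≤ Real.sqrt A * Real.sqrt (Real.log y) := by positivity
  calc K * Real.log (A * Real.log y) ^ 2 + 2 * Real.log (A * Real.log y) ≤
      K * (16 * (Real.sqrt A * Real.sqrt (Real.log y))) + 2 * (2 * (Real.sqrt A * Real.sqrt (Real.log y))) := by gcongr
    _ ≤ (16 * K + 8) * (Real.sqrt A * Real.sqrt (Real.log y)) := by nlinarith
    _ ≤ (16 * K + 8) * (Real.sqrt A * (4 * QQ y)) := by gcongr
    _ = _ := by ring

lemma Lg_two_pow (n : ℕ) : Lg (2 ^ (n + 1)) ≤ 2 * ((n : ℝ) + 1) + 1 := by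
  unfold Lg
  rw [abs_of_pos (by positivity)]
  have h1 : (3 : ℝ) + 2 ^ (n + 1) ≤ 4 * 2 ^ (n + 1) := by
    have : (2 : ℝ) ≤ 2 ^ (n + 1) := by
      rw [pow_succ]
      have : (1 : ℝ) ≤ 2 ^ n := one_le_pow₀ (by norm_num)
      linarith
    linarith
  have h2 : Real.log (3 + 2 ^ (n + 1)) ≤ Real.log (4 * 2 ^ (n + 1)) := Real.log_le_log (by positivity) h1
  rw [Real.log_mul (by norm_num) (by positivity), Real.log_pow] at h2
  have h3 : Real.log 2 ≤ 0.7 := by linarith [Real.log_two_lt_d9]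
  have h4 : Real.log 4 = 2 * Real.log 2 := by
    rw [show (4 : ℝ) = 2 ^ 2 by norm_num, Real.log_pow]; norm_num
  rw [h4] at h2
  push_cast at h2
  have h5 : (0 : ℝ) ≤ n := Nat.cast_nonneg n
  nlinarith

/-- the terms of the dyadic sum -/
lemma dy_term (K : ℝ) (hK : 0 ≤ K) : ∃ C : ℝ, 0 < C ∧ ∀ y : ℝ, 3 ≤ y → ∀ n : ℕ,
    min 1 (y / 2 ^ n) * Real.exp (K * Real.log (Lg (2 ^ (n + 1))) ^ 2) * ((n : ℝ) + 1) ^ 2 ≤ Real.exp (C * QQ y) := by
  -- the sequence is bounded with the factor `2^(-n/2)`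
  have hb : ∃ B : ℝ, 0 < B ∧ ∀ n : ℕ, (1 / Real.sqrt 2) ^ n * Real.exp (K * Real.log (2 * ((n : ℝ) + 1) + 1) ^ 2) *
      ((n : ℝ) + 1) ^ 2 ≤ B := by
    have ht : Tendsto (fun n : ℕ => (1 / Real.sqrt 2) ^ n * Real.exp (K * Real.log (2 * ((n : ℝ) + 1) + 1) ^ 2) *
      ((n : ℝ) + 1) ^ 2) atTop (𝓝 0) := by
      have hq : Tendsto (fun x : ℝ => Real.exp (-(x * (Real.log 2 / 2)) + K * Real.log (2 * (x + 1) + 1) ^ 2 + 2 * Real.log (x + 1)))
          atTop (𝓝 0) := by
        refine Real.tendsto_exp_atBot.comp ?_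
        -- `-(x c) + o(x)`
        have ho : (fun x : ℝ => K * Real.log (2 * (x + 1) + 1) ^ 2 + 2 * Real.log (x + 1)) =o[atTop] fun x : ℝ => x := by
          have l1 : (fun x : ℝ => Real.log (2 * (x + 1) + 1) ^ 2) =o[atTop] fun x : ℝ => (2 * (x + 1) + 1) := by
            have h := isLittleO_log_rpow_rpow_atTop (s := 1) 2 one_pos
            have h2 : (fun x : ℝ => Real.log x ^ 2) =o[atTop] fun x : ℝ => x := by
              refine h.congr (fun x => ?_) (fun x => ?_)
              · norm_cast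
              · rw [Real.rpow_one]
            exact h2.comp_tendsto (tendsto_atTop_add_const_right _ _ ((tendsto_atTop_add_const_right _ _ tendsto_id).const_mul_atTop (by norm_num)))
          have l2 : (fun x : ℝ => Real.log (x + 1)) =o[atTop] fun x : ℝ => x + 1 := by
            have h2 : (fun x : ℝ => Real.log x) =o[atTop] fun x : ℝ => x := Real.isLittleO_log_id_atTop
            exact h2.comp_tendsto (tendsto_atTop_add_const_right _ _ tendsto_id)
          have b1 : (fun x : ℝ => (2 * (x + 1) + 1)) =O[atTop] fun x : ℝ => x := by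
            refine Asymptotics.IsBigO.of_bound 5 ?_
            filter_upwards [eventually_ge_atTop 1] with x hx
            rw [Real.norm_eq_abs, Real.norm_eq_abs, abs_of_nonneg (by linarith), abs_of_nonneg (by linarith)]
            linarith
          have b2 : (fun x : ℝ => (x + 1)) =O[atTop] fun x : ℝ => x := by
            refine Asymptotics.IsBigO.of_bound 5 ?_
            filter_upwards [eventually_ge_atTop 1] with x hx
            rw [Real.norm_eq_abs, Real.norm_eq_abs, abs_of_nonneg (by linarith), abs_of_nonneg (by linarith)]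
            linarith
          exact ((l1.trans_isBigO b1).const_mul_left K).add ((l2.trans_isBigO b2).const_mul_left 2)
        have hc : 0 < Real.log 2 / 4 := by have := Real.log_pos one_lt_two; positivity
        have he := ho.def hc
        have hlin : Tendsto (fun x : ℝ => -(x * (Real.log 2 / 4))) atTop atBot :=
          tendsto_neg_atTop_atBot.comp (tendsto_id.atTop_mul_const hc)
        refine tendsto_atBot_mono' _ ?_ hlin
        filter_upwards [he, eventually_ge_atTop 0] with x hx hx0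
        rw [Real.norm_eq_abs, Real.norm_eq_abs, abs_of_nonneg hx0] at hx
        have := (abs_le.1 hx).2
        linarith
      refine (hq.comp tendsto_natCast_atTop_atTop).congr fun n => ?_
      simp only [Function.comp]
      have hn : (0 : ℝ) < (n : ℝ) + 1 := by positivity
      rw [Real.exp_add, Real.exp_add]
      have e1 : Real.exp (-((n : ℝ) * (Real.log 2 / 2))) = (1 / Real.sqrt 2) ^ n := by
        have : (1 / Real.sqrt 2) = Real.exp (-(Real.log 2 / 2)) := by
          rw [Real.exp_neg, Real.sqrt_eq_rpow, Real.rpow_def_of_pos (by norm_num), one_div]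
          congr 2
          ring
        rw [this, ← Real.exp_nat_mul]
        congr 1
        ring
      have e2 : Real.exp (2 * Real.log ((n : ℝ) + 1)) = ((n : ℝ) + 1) ^ 2 := by
        have : 2 * Real.log ((n : ℝ) + 1) = Real.log (((n : ℝ) + 1) ^ 2) := by rw [Real.log_pow]; norm_num
        rw [this, Real.exp_log (by positivity)]
      rw [e1, e2]
    obtain ⟨B, hB⟩ := ht.bddAbove_range
    refine ⟨max B 1, by positivity, fun n => ?_⟩
    exact (hB ⟨n, rfl⟩).trans (le_max_left _ _)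
  obtain ⟨B, hB0, hB⟩ := hb
  obtain ⟨C1, hC1, H1⟩ := loglog_small K 20 hK (by norm_num)
  refine ⟨C1 + 4 * |Real.log B|, by positivity, fun y hy n => ?_⟩
  have hy0 : 0 < y := by linarith
  have hL := log_ge hy
  have hLn : 0 < Lg (2 ^ (n + 1)) := by linarith [Pool.Agent.Y23.one_le_Lg (2 ^ (n + 1))]
  have hlogLn : 0 ≤ Real.log (Lg (2 ^ (n + 1))) := Real.log_nonneg (Pool.Agent.Y23.one_le_Lg _)
  have hle := Lg_two_pow n
  have hQ := QQ_ge hy
  have hn0 : (0 : ℝ) ≤ n := Nat.cast_nonneg n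
  rcases le_or_gt (y ^ 2) (2 ^ n) with h | h
  · -- large `n`
    have h1 : min 1 (y / 2 ^ n) ≤ (1 / Real.sqrt 2) ^ n := by
      refine (min_le_right _ _).trans ?_
      have h2 : Real.sqrt 2 ^ n * Real.sqrt 2 ^ n = 2 ^ n := by
        rw [← mul_pow, Real.mul_self_sqrt (by norm_num)]
      have h3 : y ≤ Real.sqrt 2 ^ n := by
        have : y ^ 2 ≤ (Real.sqrt 2 ^ n) ^ 2 := by rw [sq (Real.sqrt 2 ^ n), h2]; exact h
        exact le_of_sq_le_sq this (by positivity)
      rw [one_div, inv_pow, ← h2, div_le_iff₀ (by positivity)]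
      have h4 : (0 : ℝ) < Real.sqrt 2 ^ n := by positivity
      have h5 : (Real.sqrt 2 ^ n)⁻¹ * (Real.sqrt 2 ^ n * Real.sqrt 2 ^ n) = Real.sqrt 2 ^ n := by
        field_simp
      rw [h5]; exact h3
    have h2 : Real.exp (K * Real.log (Lg (2 ^ (n + 1))) ^ 2) ≤ Real.exp (K * Real.log (2 * ((n : ℝ) + 1) + 1) ^ 2) := by
      rw [Real.exp_le_exp]
      refine mul_le_mul_of_nonneg_left ?_ hK
      exact pow_le_pow_left₀ hlogLn (Real.log_le_log hLn hle) 2
    have hmin : 0 ≤ min 1 (y / 2 ^ n) := le_min zero_le_one (by positivity)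
    calc min 1 (y / 2 ^ n) * Real.exp (K * Real.log (Lg (2 ^ (n + 1))) ^ 2) * ((n : ℝ) + 1) ^ 2 ≤
        (1 / Real.sqrt 2) ^ n * Real.exp (K * Real.log (2 * ((n : ℝ) + 1) + 1) ^ 2) * ((n : ℝ) + 1) ^ 2 := by gcongr
      _ ≤ B := hB n
      _ = Real.exp (Real.log B) := (Real.exp_log hB0).symm
      _ ≤ _ := by
        rw [Real.exp_le_exp]
        have h5 := le_abs_self (Real.log B)
        have h6 := abs_nonneg (Real.log B)
        have h7 : |Real.log B| ≤ 4 * |Real.log B| * QQ y := by nlinarith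
        nlinarith [mul_nonneg hC1.le (by linarith : 0 ≤ QQ y)]
  · -- small `n`
    have h1 : (n : ℝ) * Real.log 2 < 2 * Real.log y := by
      have h2 := Real.log_lt_log (by positivity) h
      rw [Real.log_pow, Real.log_pow] at h2
      exact_mod_cast h2
    have h2 : (n : ℝ) ≤ 3 * Real.log y := by
      have := Real.log_two_gt_d9
      nlinarith
    have h3 : 2 * ((n : ℝ) + 1) + 1 ≤ 20 * Real.log y := by nlinarith
    have h4 : min 1 (y / 2 ^ n) ≤ 1 := min_le_left _ _
    have h5 : Real.exp (K * Real.log (Lg (2 ^ (n + 1))) ^ 2) ≤ Real.exp (K * Real.log (20 * Real.log y) ^ 2) := by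
      rw [Real.exp_le_exp]
      refine mul_le_mul_of_nonneg_left ?_ hK
      exact pow_le_pow_left₀ hlogLn (Real.log_le_log hLn (hle.trans h3)) 2
    have h6 : ((n : ℝ) + 1) ^ 2 ≤ Real.exp (2 * Real.log (20 * Real.log y)) := by
      have : 2 * Real.log (20 * Real.log y) = Real.log ((20 * Real.log y) ^ 2) := by rw [Real.log_pow]; norm_num
      rw [this, Real.exp_log (by positivity)]
      exact pow_le_pow_left₀ (by positivity) (by linarith) 2
    have hmin : 0 ≤ min 1 (y / 2 ^ n) := le_min zero_le_one (by positivity)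
    calc min 1 (y / 2 ^ n) * Real.exp (K * Real.log (Lg (2 ^ (n + 1))) ^ 2) * ((n : ℝ) + 1) ^ 2 ≤
        1 * Real.exp (K * Real.log (20 * Real.log y) ^ 2) * Real.exp (2 * Real.log (20 * Real.log y)) := by gcongr
      _ = Real.exp (K * Real.log (20 * Real.log y) ^ 2 + 2 * Real.log (20 * Real.log y)) := by
        rw [one_mul, ← Real.exp_add]
      _ ≤ Real.exp (C1 * QQ y) := Real.exp_le_exp.2 (H1 y hy)
      _ ≤ _ := by
        rw [Real.exp_le_exp]
        have h6 := abs_nonneg (Real.log B)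
        nlinarith [mul_nonneg h6 (by linarith : 0 ≤ QQ y)]

/-- the weighted integral -/
lemma int_bound {g : ℝ → ℝ} (hg : Continuous g) (hg0 : ∀ t, 0 ≤ g t) {y E K B : ℝ} (hy : 3 ≤ y) (hE : 0 ≤ E)
    (hi : Integrable (fun t => g t * wt y t))
    (hm : ∀ T : ℝ, 1 ≤ T → ∫ t in (-T)..T, g t ≤ T * (E * Real.exp (K * Real.log (Lg T) ^ 2)))
    (hB : ∀ n : ℕ, min 1 (y / 2 ^ n) * Real.exp (K * Real.log (Lg (2 ^ (n + 1))) ^ 2) * ((n : ℝ) + 1) ^ 2 ≤ B)
    (hK : 0 ≤ K) : ∫ t : ℝ, g t * wt y t ≤ 9 * E * B := by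
  have hy0 : 0 < y := by linarith
  have hw0 : ∀ t, 0 ≤ wt y t := wt_nonneg hy0.le
  have hc : Continuous (fun t => g t * wt y t) := hg.mul (wt_cont y)
  have hB0 : 0 ≤ B := by
    refine le_trans ?_ (hB 0)
    have : 0 ≤ min 1 (y / 2 ^ 0) := le_min zero_le_one (by positivity)
    positivity
  -- the weight on a block
  have hwb : ∀ (n : ℕ) (t : ℝ), 2 ^ n ≤ |t| → wt y t ≤ min 1 (y / 2 ^ n) / 2 ^ n := by
    intro n t ht
    unfold wt
    have h1 : (0 : ℝ) < 2 ^ n := by positivity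
    have h2 : (2 : ℝ) ^ n ≤ 1 + |t| := by linarith
    have h3 : min 1 (y / (1 + |t|)) ≤ min 1 (y / 2 ^ n) := by
      refine min_le_min le_rfl ?_
      gcongr
    have h4 : 0 ≤ min 1 (y / 2 ^ n) := le_min zero_le_one (by positivity)
    calc min 1 (y / (1 + |t|)) / (1 + |t|) ≤ min 1 (y / 2 ^ n) / (1 + |t|) := by gcongr
      _ ≤ _ := by gcongr
  have hblock : ∀ n : ℕ, (∫ t in (-(2 : ℝ) ^ (n + 1))..(-(2 : ℝ) ^ n), g t * wt y t) + (∫ t in ((2 : ℝ) ^ n)..(2 ^ (n + 1)), g t * wt y t) ≤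
      2 * E * B / ((n : ℝ) + 1) ^ 2 := by
    intro n
    have hp1 : (1 : ℝ) ≤ 2 ^ n := one_le_pow₀ (by norm_num)
    have hp2 : (2 : ℝ) ^ (n + 1) = 2 * 2 ^ n := by rw [pow_succ]; ring
    set c := min 1 (y / 2 ^ n) / 2 ^ n with hcdef
    have hc0 : 0 ≤ c := by
      have : 0 ≤ min 1 (y / 2 ^ n) := le_min zero_le_one (by positivity)
      positivity
    have i1 : ∫ t in (-(2 : ℝ) ^ (n + 1))..(-(2 : ℝ) ^ n), g t * wt y t ≤ ∫ t in (-(2 : ℝ) ^ (n + 1))..(-(2 : ℝ) ^ n), c * g t := by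
      refine intervalIntegral.integral_mono_on (by linarith) (hc.intervalIntegrable _ _) ((continuous_const.mul hg).intervalIntegrable _ _) ?_
      intro t ht
      rw [Set.mem_Icc] at ht
      have := hwb n t (by rw [abs_of_nonpos (by linarith [ht.2])]; linarith [ht.2])
      have h0 := hg0 t
      nlinarith
    have i2 : ∫ t in ((2 : ℝ) ^ n)..(2 ^ (n + 1)), g t * wt y t ≤ ∫ t in ((2 : ℝ) ^ n)..(2 ^ (n + 1)), c * g t := by
      refine intervalIntegral.integral_mono_on (by linarith) (hc.intervalIntegrable _ _) ((continuous_const.mul hg).intervalIntegrable _ _) ?_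
      intro t ht
      rw [Set.mem_Icc] at ht
      have := hwb n t (by rw [abs_of_nonneg (by linarith [ht.1])]; linarith [ht.1])
      have h0 := hg0 t
      nlinarith
    rw [intervalIntegral.integral_const_mul] at i1 i2
    have i3 : (∫ t in (-(2 : ℝ) ^ (n + 1))..(-(2 : ℝ) ^ n), g t) + (∫ t in ((2 : ℝ) ^ n)..(2 ^ (n + 1)), g t) ≤
        ∫ t in (-(2 : ℝ) ^ (n + 1))..(2 ^ (n + 1)), g t := by
      have s2 : ∫ t in (-(2 : ℝ) ^ (n + 1))..(2 ^ (n + 1)), g t = (∫ t in (-(2 : ℝ) ^ (n + 1))..(-(2 : ℝ) ^ n), g t) +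
          (∫ t in (-(2 : ℝ) ^ n)..(2 ^ n), g t) + (∫ t in ((2 : ℝ) ^ n)..(2 ^ (n + 1)), g t) := by
        rw [intervalIntegral.integral_add_adjacent_intervals (hg.intervalIntegrable _ _) (hg.intervalIntegrable _ _),
          intervalIntegral.integral_add_adjacent_intervals (hg.intervalIntegrable _ _) (hg.intervalIntegrable _ _)]
      have s3 : 0 ≤ ∫ t in (-(2 : ℝ) ^ n)..(2 ^ n), g t := intervalIntegral.integral_nonneg (by linarith) fun t _ => hg0 t
      linarith
    have i4 := hm (2 ^ (n + 1)) (by linarith)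
    have hBn := hB n
    have hn1 : (0 : ℝ) < ((n : ℝ) + 1) ^ 2 := by positivity
    calc _ ≤ c * ∫ t in (-(2 : ℝ) ^ (n + 1))..(2 ^ (n + 1)), g t := by
          have := mul_le_mul_of_nonneg_left i3 hc0
          linarith
      _ ≤ c * (2 ^ (n + 1) * (E * Real.exp (K * Real.log (Lg (2 ^ (n + 1))) ^ 2))) := mul_le_mul_of_nonneg_left i4 hc0
      _ = 2 * E * (min 1 (y / 2 ^ n) * Real.exp (K * Real.log (Lg (2 ^ (n + 1))) ^ 2)) := by
          rw [hcdef, hp2]
          field_simp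
      _ ≤ 2 * E * (B / ((n : ℝ) + 1) ^ 2) := by
          refine mul_le_mul_of_nonneg_left ?_ (by positivity)
          rw [le_div_iff₀ hn1]
          exact hBn
      _ = _ := by ring
  have hbase : ∫ t in (-(2 : ℝ) ^ 0)..(2 ^ 0), g t * wt y t ≤ E * B := by
    rw [pow_zero]
    have i1 : ∫ t in (-(1 : ℝ))..1, g t * wt y t ≤ ∫ t in (-(1 : ℝ))..1, g t := by
      refine intervalIntegral.integral_mono_on (by norm_num) (hc.intervalIntegrable _ _) (hg.intervalIntegrable _ _) ?_
      intro t ht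
      have h1 : wt y t ≤ 1 := by
        unfold wt
        rw [div_le_one (by positivity)]
        have := abs_nonneg t
        exact (min_le_left _ _).trans (by linarith)
      have h0 := hg0 t
      nlinarith
    have i2 := hm 1 le_rfl
    have h3 := hB 0
    have h4 : min 1 (y / 2 ^ 0) = 1 := by
      rw [pow_zero, div_one]
      exact min_eq_left (by linarith)
    rw [h4, one_mul] at h3
    have h5 : Real.exp (K * Real.log (Lg 1) ^ 2) ≤ Real.exp (K * Real.log (Lg (2 ^ (0 + 1))) ^ 2) := by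
      rw [Real.exp_le_exp]
      refine mul_le_mul_of_nonneg_left ?_ hK
      have h6 : Lg 1 ≤ Lg (2 ^ (0 + 1)) := Lg_mono (by norm_num)
      have h7 := Pool.Agent.Y23.one_le_Lg 1
      exact pow_le_pow_left₀ (Real.log_nonneg h7) (Real.log_le_log (by linarith) h6) 2
    have h6 : Real.exp (K * Real.log (Lg 1) ^ 2) ≤ B := by
      refine h5.trans ?_
      simpa using h3
    calc _ ≤ _ := i1
      _ ≤ _ := i2
      _ = E * Real.exp (K * Real.log (Lg 1) ^ 2) := by ring
      _ ≤ _ := by gcongr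
  -- telescoping with the bound `9 - 4/(n+1)`
  have key : ∀ n : ℕ, ∫ t in (-(2 : ℝ) ^ n)..(2 ^ n), g t * wt y t ≤ E * B * (5 - 4 / ((n : ℝ) + 1)) := by
    intro n
    induction n with
    | zero =>
      refine hbase.trans (le_of_eq ?_)
      norm_num
    | succ n ih =>
      have hp1 : (1 : ℝ) ≤ 2 ^ n := one_le_pow₀ (by norm_num)
      have s2 : ∫ t in (-(2 : ℝ) ^ (n + 1))..(2 ^ (n + 1)), g t * wt y t =
          (∫ t in (-(2 : ℝ) ^ (n + 1))..(-(2 : ℝ) ^ n), g t * wt y t) +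
          (∫ t in (-(2 : ℝ) ^ n)..(2 ^ n), g t * wt y t) + (∫ t in ((2 : ℝ) ^ n)..(2 ^ (n + 1)), g t * wt y t) := by
        rw [intervalIntegral.integral_add_adjacent_intervals (hc.intervalIntegrable _ _) (hc.intervalIntegrable _ _),
          intervalIntegral.integral_add_adjacent_intervals (hc.intervalIntegrable _ _) (hc.intervalIntegrable _ _)]
      have hb := hblock n
      have hEB : 0 ≤ E * B := mul_nonneg hE hB0
      have h1 : 2 * E * B / ((n : ℝ) + 1) ^ 2 ≤ E * B * (4 / ((n : ℝ) + 1) - 4 / ((n : ℝ) + 1 + 1)) := by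
        have h2 : 2 / ((n : ℝ) + 1) ^ 2 ≤ 4 / ((n : ℝ) + 1) - 4 / ((n : ℝ) + 1 + 1) := by
          rw [div_sub_div _ _ (by positivity) (by positivity), div_le_div_iff₀ (by positivity) (by positivity)]
          have : (0 : ℝ) ≤ n := Nat.cast_nonneg n
          nlinarith
        calc 2 * E * B / ((n : ℝ) + 1) ^ 2 = E * B * (2 / ((n : ℝ) + 1) ^ 2) := by ring
          _ ≤ _ := mul_le_mul_of_nonneg_left h2 hEB
      rw [s2]
      push_cast
      nlinarith
  have hlim : Tendsto (fun n : ℕ => ∫ t in (-(2 : ℝ) ^ n)..(2 ^ n), g t * wt y t) atTop (𝓝 (∫ t : ℝ, g t * wt y t)) := by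
    have h1 : Tendsto (fun n : ℕ => (2 : ℝ) ^ n) atTop atTop := tendsto_pow_atTop_atTop_of_one_lt (by norm_num)
    exact intervalIntegral_tendsto_integral hi (tendsto_neg_atTop_atBot.comp h1) h1
  refine le_of_tendsto hlim (Eventually.of_forall fun n => (key n).trans ?_)
  have hEB : 0 ≤ E * B := mul_nonneg hE hB0
  have h1 : 0 ≤ 4 / ((n : ℝ) + 1) := by positivity
  nlinarith

end Pool.Agent.N964.MX
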