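import Mathlib
import Pool.Agent.N964.MX.H4
import Pool.Agent.N964.MX.Defs2

set_option autoImplicit false

/-!
# Project MX2: the levels with several pieces
-/

namespace Pool.Agent.N964.MX

open Complex MeasureTheory
open Pool.Agent.H295R2 (fz Mx)
open Pool.Agent.Y23 (IsZ mu Lg)

/-- the first good index -/
lemma first_good2 (Good : ℕ → Prop) (G B : ℕ → ℝ) (g : ℝ) (V0 n : ℕ) (hG : ∀ V, 0 ≤ G V) (hB : ∀ V, 0 ≤ B V)
    (hlast : Good (V0 + n)) (hbad : ∀ V, V0 ≤ V → V < V0 + n → ¬ Good V → 1 ≤ B V)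
    (hg : ∀ V, V0 ≤ V → V ≤ V0 + n → Good V → g ≤ G V) :
    g ≤ G V0 + ∑ j ∈ Finset.range n, G (V0 + j + 1) * B (V0 + j) := by
  induction n with
  | zero => simpa using hg V0 le_rfl le_rfl hlast
  | succ n ih =>
    by_cases h : Good (V0 + n)
    · refine (ih h (fun V h1 h2 => hbad V h1 (by omega)) fun V h1 h2 => hg V h1 (by omega)).trans ?_
      rw [Finset.sum_range_succ]
      have := mul_nonneg (hG (V0 + n + 1)) (hB (V0 + n))
      linarith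
    · have h1 := hg (V0 + (n + 1)) (by omega) le_rfl hlast
      rw [Finset.sum_range_succ]
      have h2 : 0 ≤ ∑ j ∈ Finset.range n, G (V0 + j + 1) * B (V0 + j) :=
        Finset.sum_nonneg fun j _ => mul_nonneg (hG _) (hB _)
      have h3 := hbad (V0 + n) (by omega) (by omega) h
      have h5 : G (V0 + (n + 1)) ≤ G (V0 + n + 1) * B (V0 + n) := by
        have e : V0 + (n + 1) = V0 + n + 1 := by omega
        rw [e]
        exact le_mul_of_one_le_right (hG _) h3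
      linarith [hG V0]

/-- the bound at the level `V` -/
noncomputable def GW (C m τ δ : ℝ) (V : ℕ) : ℝ :=
  Real.exp (V * Real.log (1 + V / (τ * δ)) + 5 * V + C * m)

/-- the pointwise bound on the good set at the level `V` -/
lemma good_bound2 {C : ℝ} (D : Dat C) {T δ t : ℝ} (hT : 3 ≤ T) (hδ : 0 < δ) (hδ4 : δ ≤ 1 / 4)
    (h1 : T / 2 ≤ |t|) (h2 : |t| ≤ T) {V : ℕ} (hV : 1 ≤ V) (hVt : (V : ℝ) ≤ Lg T)
    (hτ : Real.log (Lg T) ≤ 3 * Real.log (1 / δ)) (hP : ‖PP (Lg T / V) δ t‖ ≤ 5 * V) :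
    ‖fz (1 / 2 + δ + t * I)‖ ≤ GW (6 * C) (Real.log (1 / δ)) (Lg T) δ V := by
  have hC := D.pos
  set τ := Lg T with hτd
  have hV0 : (0 : ℝ) < V := by exact_mod_cast hV
  have hV1 : (1 : ℝ) ≤ V := by exact_mod_cast hV
  have hτ0 : 0 < τ := hV0.trans_le hVt
  have hl1 : 1 ≤ τ / V := by rw [le_div_iff₀ hV0]; linarith
  have hℓ := ell_ge hδ hδ4
  have hLt : Lg t ≤ τ := Lg_mono h2
  have hexp : Real.exp (τ / V / 2) ≤ 1 + |t| := by
    have h3 : τ / V / 2 ≤ τ / 2 := by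
      have : τ / V ≤ τ := by
        rw [div_le_iff₀ hV0]
        nlinarith
      linarith
    refine (Real.exp_le_exp.2 h3).trans ?_
    have h4 : Real.exp (τ / 2) ^ 2 = 3 + T := by
      rw [← Real.exp_nat_mul]
      have : ((2 : ℕ) : ℝ) * (τ / 2) = τ := by push_cast; ring
      rw [this, hτd]
      unfold Lg
      rw [Real.exp_log (by positivity), abs_of_nonneg (by linarith : (0 : ℝ) ≤ T)]
    have h5 : 3 + T ≤ (1 + |t|) ^ 2 := by nlinarith
    have h6 : Real.exp (τ / 2) ^ 2 ≤ (1 + |t|) ^ 2 := by rw [h4]; exact h5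
    exact le_of_sq_le_sq h6 (by positivity)
  have h3 := D.main t δ (τ / V) (by linarith) hδ (by linarith) hl1 hexp
  refine h3.trans ?_
  unfold GW
  rw [Real.exp_le_exp]
  have eD : Dd (τ / V) δ = Real.log (1 + V / (τ * δ)) := by
    unfold Dd
    congr 2
    field_simp
  have hD0 := Dd_nonneg (by linarith : 0 < τ / V) hδ
  have hD2 := Dd_le hl1 hδ hδ4
  have hlog : Real.log (τ / V) ≤ Real.log τ := by
    refine Real.log_le_log (by positivity) ?_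
    rw [div_le_iff₀ hV0]
    nlinarith
  have h4 : Lg t / (τ / V) * Dd (τ / V) δ ≤ V * Real.log (1 + V / (τ * δ)) := by
    rw [← eD]
    refine mul_le_mul_of_nonneg_right ?_ hD0
    rw [div_le_iff₀ (by positivity)]
    have : (V : ℝ) * (τ / V) = τ := by field_simp
    rw [this]
    exact hLt
  have h5 : C * (1 + Real.log (τ / V) + Dd (τ / V) δ) ≤ 6 * C * Real.log (1 / δ) := by
    have : 1 + Real.log (τ / V) + Dd (τ / V) δ ≤ 6 * Real.log (1 / δ) := by linarith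
    nlinarith
  linarith

lemma th_self {n i : ℕ} (l m : ℝ) (h : i ≤ n) : th n l m i = l * (1 - (2 ^ i - 1) / m) := by
  unfold th; rw [if_pos h]

lemma pow_two_ge_one (i : ℕ) : (1 : ℝ) ≤ 2 ^ i := one_le_pow₀ (by norm_num)

lemma g_nonneg (i : ℕ) {m : ℝ} (hm : 0 < m) : 0 ≤ ((2 : ℝ) ^ i - 1) / m :=
  div_nonneg (by linarith [pow_two_ge_one i]) hm.le

lemma g_le_half {n i : ℕ} {m : ℝ} (hm : 0 < m) (hn : (2 : ℝ) ^ n - 1 ≤ m / 2) (hi : i ≤ n) :
    ((2 : ℝ) ^ i - 1) / m ≤ 1 / 2 := by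
  rw [div_le_iff₀ hm]
  have : (2 : ℝ) ^ i ≤ 2 ^ n := pow_le_pow_right₀ (by norm_num) hi
  linarith

lemma th_le {n i : ℕ} {l m : ℝ} (hl : 0 ≤ l) (hm : 0 < m) (hi : i ≤ n) : th n l m i ≤ l := by
  rw [th_self l m hi]
  have := g_nonneg i hm
  nlinarith

lemma cp_nonneg {C : ℝ} (D : Dat C) {l δ : ℝ} (hl : 1 ≤ l) (hδ : 0 < δ) (hδ1 : δ ≤ 1) {p : ℕ} (hp : p ∈ Pl l) :
    0 ≤ cc l δ p := by
  rw [mem_Pl] at hp
  unfold cc
  have h1 : (1 : ℝ) < p := by exact_mod_cast hp.2.one_lt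
  exact mul_nonneg (div_nonneg (Real.log_pos h1).le (Real.sqrt_nonneg _))
    (D.wnn l δ hl hδ hδ1 _ (Real.log_pos h1) (log_mem hp.2.one_lt.le hp.1))

lemma Pl_mono {a b : ℝ} (h : a ≤ b) : Pl a ⊆ Pl b := by
  intro p hp
  rw [mem_Pl] at hp ⊢
  exact ⟨hp.1.trans (Nat.floor_le_floor (Real.exp_le_exp.2 h)), hp.2⟩

/-- the trivial bound for a piece -/
lemma Pc_le {C : ℝ} (D : Dat C) {n i : ℕ} {l m δ t : ℝ} (hl : 1 ≤ l) (hm : 0 < m) (hδ : 0 < δ) (hδ1 : δ ≤ 1) (hi : i ≤ n) :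
    ‖Pc n m l δ t i‖ ≤ C * Real.exp (l / 2) * (1 + Dd l δ) := by
  refine le_trans ?_ (D.one l δ hl hδ hδ1)
  unfold Pc
  refine (norm_sum_le _ _).trans ?_
  have h1 : ∑ p ∈ Pl (th n l m i), ‖((cp n m l δ i p : ℝ) : ℂ) * (p : ℂ) ^ (-(t : ℂ) * I)‖ ≤ ∑ p ∈ Pl (th n l m i), cc l δ p := by
    refine Finset.sum_le_sum fun p hp => ?_
    have hp' := Pl_mono (th_le (by linarith) hm hi) hp
    have h0 := cp_nonneg D hl hδ hδ1 hp'
    rw [mem_Pl] at hp
    rw [norm_mul, norm_ppow hp.2.ne_zero, mul_one, Complex.norm_real, Real.norm_eq_abs]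
    unfold cp
    split_ifs
    · rw [abs_of_nonneg h0]
    · rw [abs_zero]; exact h0
  refine h1.trans ?_
  exact Finset.sum_le_sum_of_subset_of_nonneg (Pl_mono (th_le (by linarith) hm hi)) fun p hp _ => cp_nonneg D hl hδ hδ1 hp

lemma Pc_cont (n : ℕ) (m l δ : ℝ) (i : ℕ) : Continuous (fun t : ℝ => Pc n m l δ t i) := by
  unfold Pc
  refine continuous_finsetSum _ fun p hp => ?_
  rw [mem_Pl] at hp
  have hp0 : (p : ℂ) ≠ 0 := by exact_mod_cast hp.2.ne_zero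
  refine Continuous.mul continuous_const ?_
  refine Continuous.const_cpow (by fun_prop) (Or.inl hp0)

/-- the order of the moment -/
noncomputable def kq (m : ℝ) (V i : ℕ) : ℕ := V + ⌊(V : ℝ) * ((2 ^ i - 1) / m)⌋₊

/-- the integral of one term -/
lemma int_term2 {C : ℝ} (D : Dat C) {B : ℝ} (hB : 1 ≤ B)
    (hv : ∀ (n i : ℕ) (m l δ : ℝ), 1 ≤ l → 0 < δ → δ ≤ 1 → 1 ≤ m →
      (2 : ℝ) ^ n - 1 ≤ m / 2 → m ≤ 4 * 2 ^ n → m ≤ 4 * l → Real.log l ≤ 3 * m → Dd l δ ≤ 2 * m → i ≤ n →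
      ∑ p ∈ Pl (th n l m i), cp n m l δ i p ^ 2 ≤ B * 8 ^ i / m)
    {T δ m : ℝ} (hT : 3 ≤ T) (hδ : 0 < δ) (hδ4 : δ ≤ 1 / 4) (hm : m = Real.log (1 / δ)) {V n i : ℕ} (hV : 1 ≤ V)
    (hVt : (V : ℝ) ≤ Lg T) (hn1 : (2 : ℝ) ^ n - 1 ≤ m / 2) (hn2 : m ≤ 4 * 2 ^ n) (hml : m ≤ 4 * (Lg T / V))
    (hτ : Real.log (Lg T) ≤ 3 * m) (hi : i ≤ n) :
    ∫ t in (-(3 + T))..(3 + T), (‖Pc n m (Lg T / V) δ t i‖ / ((4 / 5) ^ i * V)) ^ (2 * kq m V i) ≤
      C * (3 + T) * (2 * B * 13 ^ i / (m * V)) ^ (kq m V i) := by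
  have hC := D.pos
  set τ := Lg T with hτd
  have hV0 : (0 : ℝ) < V := by exact_mod_cast hV
  have hV1 : (1 : ℝ) ≤ V := by exact_mod_cast hV
  have hτ0 : 0 < τ := hV0.trans_le hVt
  have hl1 : 1 ≤ τ / V := by rw [le_div_iff₀ hV0]; linarith
  have hℓ := ell_ge hδ hδ4
  rw [← hm] at hℓ
  have hm0 : 0 < m := by linarith
  set l := τ / V with hl
  have hexp : Real.exp τ = 3 + T := by
    rw [hτd]; unfold Lg
    rw [Real.exp_log (by positivity), abs_of_nonneg (by linarith : (0 : ℝ) ≤ T)]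
  set g := ((2 : ℝ) ^ i - 1) / m with hg
  have hg0 : 0 ≤ g := g_nonneg i hm0
  have hg1 : g ≤ 1 / 2 := g_le_half hm0 hn1 hi
  set k := kq m V i with hk
  have hk1 : (k : ℝ) ≤ V * (1 + g) := by
    rw [hk]; unfold kq
    push_cast
    have h := Nat.floor_le (show (0 : ℝ) ≤ (V : ℝ) * ((2 ^ i - 1) / m) from mul_nonneg hV0.le hg0)
    rw [← hg] at h
    linarith
  have hkV : V ≤ k := by rw [hk]; unfold kq; omega
  have hth : th n l m i = l * (1 - g) := th_self l m hi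
  have hth0 : 0 ≤ th n l m i := by
    rw [hth]
    have : 0 ≤ 1 - g := by linarith
    positivity
  have hX : ((⌊Real.exp (th n l m i)⌋₊ : ℕ) : ℝ) ^ k ≤ 3 + T := by
    have h1 : ((⌊Real.exp (th n l m i)⌋₊ : ℕ) : ℝ) ≤ Real.exp (th n l m i) := Nat.floor_le (Real.exp_pos _).le
    calc ((⌊Real.exp (th n l m i)⌋₊ : ℕ) : ℝ) ^ k ≤ Real.exp (th n l m i) ^ k := pow_le_pow_left₀ (Nat.cast_nonneg _) h1 k
      _ = Real.exp (k * th n l m i) := by rw [← Real.exp_nat_mul]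
      _ ≤ Real.exp τ := by
        rw [Real.exp_le_exp]
        calc (k : ℝ) * th n l m i ≤ V * (1 + g) * th n l m i := mul_le_mul_of_nonneg_right hk1 hth0
          _ = τ * (1 - g ^ 2) := by
            rw [hth, hl]
            field_simp
            ring
          _ ≤ τ := by nlinarith [sq_nonneg g]
      _ = _ := hexp
  have h1 := D.mom ⌊Real.exp (th n l m i)⌋₊ k (cp n m l δ i) (3 + T) (by linarith) hX
  have hlog : Real.log l ≤ 3 * m := by
    refine le_trans (Real.log_le_log (by positivity) ?_) hτ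
    rw [hl, div_le_iff₀ hV0]
    nlinarith
  have hD2 := Dd_le hl1 hδ hδ4
  rw [← hm] at hD2
  have h2 := hv n i m l δ hl1 hδ (by linarith) hℓ hn1 hn2 hml hlog hD2 hi
  set w := ((4 : ℝ) / 5) ^ i with hw
  have hw0 : 0 < w := by rw [hw]; positivity
  have e1 : ∀ t : ℝ, (‖Pc n m l δ t i‖ / (w * V)) ^ (2 * k) =
      (1 / (w * V)) ^ (2 * k) * ‖∑ p ∈ (Finset.range (⌊Real.exp (th n l m i)⌋₊ + 1)).filter Nat.Prime,
        ((cp n m l δ i p : ℝ) : ℂ) * (p : ℂ) ^ (-(t : ℂ) * I)‖ ^ (2 * k) := by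
    intro t
    rw [div_eq_mul_one_div, mul_pow, mul_comm]
    rfl
  simp_rw [e1]
  rw [intervalIntegral.integral_const_mul]
  have hfac : (k.factorial : ℝ) ≤ (k : ℝ) ^ k := by exact_mod_cast Nat.factorial_le_pow k
  have hk0 : (0 : ℝ) ≤ k := Nat.cast_nonneg k
  have hS0 : 0 ≤ ∑ p ∈ (Finset.range (⌊Real.exp (th n l m i)⌋₊ + 1)).filter Nat.Prime, cp n m l δ i p ^ 2 :=
    Finset.sum_nonneg fun p _ => sq_nonneg _
  have h2' : ∑ p ∈ (Finset.range (⌊Real.exp (th n l m i)⌋₊ + 1)).filter Nat.Prime, cp n m l δ i p ^ 2 ≤ B * 8 ^ i / m := h2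
  have hbase : (1 / (w * V)) ^ 2 * (k * (B * 8 ^ i / m)) ≤ 2 * B * 13 ^ i / (m * V) := by
    have hw2 : w ^ 2 * 25 ^ i = 16 ^ i := by
      rw [hw, ← pow_mul, mul_comm i 2, pow_mul, ← mul_pow]
      norm_num
    have hk2 : (k : ℝ) ≤ 2 * V := by nlinarith
    calc (1 / (w * V)) ^ 2 * (k * (B * 8 ^ i / m)) ≤ (1 / (w * V)) ^ 2 * (2 * V * (B * 8 ^ i / m)) := by gcongr
      _ = 2 * B * 8 ^ i / (w ^ 2 * (m * V)) := by field_simp
      _ ≤ 2 * B * 13 ^ i / (m * V) := by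
        rw [div_le_div_iff₀ (by positivity) (by positivity)]
        have h8 : (8 : ℝ) ^ i ≤ 13 ^ i * w ^ 2 := by
          -- multiply by 25^i
          have h25 : (0 : ℝ) < 25 ^ i := by positivity
          refine le_of_mul_le_mul_right ?_ h25
          calc (8 : ℝ) ^ i * 25 ^ i = 200 ^ i := by rw [← mul_pow]; norm_num
            _ ≤ 208 ^ i := by gcongr; norm_num
            _ = 13 ^ i * w ^ 2 * 25 ^ i := by
              rw [mul_assoc, hw2, ← mul_pow]; norm_num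
        have hmV : 0 ≤ 2 * B * (m * V) := by positivity
        calc 2 * B * 8 ^ i * (m * V) = 2 * B * (m * V) * 8 ^ i := by ring
          _ ≤ 2 * B * (m * V) * (13 ^ i * w ^ 2) := mul_le_mul_of_nonneg_left h8 hmV
          _ = _ := by ring
  calc (1 / (w * V)) ^ (2 * k) * ∫ t in (-(3 + T))..(3 + T), ‖∑ p ∈ (Finset.range (⌊Real.exp (th n l m i)⌋₊ + 1)).filter Nat.Prime,
        ((cp n m l δ i p : ℝ) : ℂ) * (p : ℂ) ^ (-(t : ℂ) * I)‖ ^ (2 * k) ≤
      (1 / (w * V)) ^ (2 * k) * (C * (3 + T) * k.factorial *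
        (∑ p ∈ (Finset.range (⌊Real.exp (th n l m i)⌋₊ + 1)).filter Nat.Prime, cp n m l δ i p ^ 2) ^ k) :=
        mul_le_mul_of_nonneg_left h1 (by positivity)
    _ ≤ (1 / (w * V)) ^ (2 * k) * (C * (3 + T) * (k : ℝ) ^ k * (B * 8 ^ i / m) ^ k) := by
        gcongr
    _ = C * (3 + T) * ((1 / (w * V)) ^ 2 * (k * (B * 8 ^ i / m))) ^ k := by
        rw [mul_pow ((1 / (w * V)) ^ 2), mul_pow (k : ℝ), ← pow_mul]; ring
    _ ≤ _ := by
        refine mul_le_mul_of_nonneg_left ?_ (by positivity)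
        exact pow_le_pow_left₀ (by positivity) hbase k

/-- the sum of the allowances of the pieces -/
lemma sum_w_le (n : ℕ) : ∑ i ∈ Finset.range n, ((4 : ℝ) / 5) ^ i ≤ 5 := by
  rw [geom_sum_eq (by norm_num)]
  have : (0 : ℝ) < (4 / 5) ^ n := by positivity
  rw [div_le_iff_of_neg (by norm_num)]
  linarith

end Pool.Agent.N964.MX
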