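import Mathlib
import Pool.Agent.N964.MX.K2

set_option autoImplicit false

/-!
# Project MX2: the mean
-/

namespace Pool.Agent.N964.MX

open Complex MeasureTheory
open Pool.Agent.H295R2 (fz Mx Zs)
open Pool.Agent.Y23 (IsZ mu Lg)

lemma m_three {m : ℝ} (hm : 400 ≤ m) : m ^ 3 ≤ Real.exp (m / 2) := by
  have h := Real.pow_div_factorial_le_exp (m / 2) (by linarith) 4
  refine le_trans ?_ h
  have h3 : 0 < m ^ 3 := by positivity
  have e : (m / 2) ^ 4 / ((Nat.factorial 4 : ℕ) : ℝ) = m ^ 3 * (m / 384) := by
    simp [Nat.factorial]; ring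
  rw [e]
  have : 1 ≤ m / 384 := by rw [le_div_iff₀ (by norm_num)]; linarith
  nlinarith

theorem mean2_of (h1 : S_main) (h2 : S_coef) (h3 : Pool.Agent.N967.S_mom) (h4 : S_small) (h5 : S_mean)
    (hs : S_split) (hvar : S_var) (hterm : S_term) : S_mean2 := by
  intro RH
  obtain ⟨C, D⟩ := dat_of h1 h2 h3 RH
  obtain ⟨C4, hC4, H4⟩ := h4 RH
  obtain ⟨Km, hKm, HKm⟩ := h5 RH
  obtain ⟨K, δ0, hK, hδ00, hδ04, hδ0e, HK⟩ := block2 D hs hvar hterm
  have hC := D.pos
  set m0 := Real.log (1 / δ0) with hm0d
  have hm0 : 400 ≤ m0 := by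
    rw [hm0d, Real.le_log_iff_exp_le (by positivity)]
    exact hδ0e
  set M := K + (9 * C + 2) + 2 * C4 with hM
  have hM0 : 0 < M := by positivity
  set Cb := Km * (m0 / δ0 + 9 * m0 ^ 2) * m0 ^ 2 with hCb
  have hCb0 : 0 < Cb := by positivity
  refine ⟨M + 1 + Cb, by positivity, fun T δ hT hδ hδ4 hLT => ?_⟩
  have hℓ := ell_ge hδ hδ4
  set m := Real.log (1 / δ) with hm
  set X := 1 / (δ * m ^ 2) with hX
  have hX0 : 0 < X := by positivity
  have hLT1 := Pool.Agent.Y23.one_le_Lg T
  rcases lt_or_ge δ0 δ with hδd | hδd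
  · -- large `δ`
    refine (HKm T δ hT hδ hδ4).trans (mul_le_mul_of_nonneg_left (Real.exp_le_exp.2 ?_) (by linarith))
    rw [← hm]
    have hmm0 : m ≤ m0 := Real.log_le_log (by positivity) (one_div_le_one_div_of_le hδ00 hδd.le)
    have a1 : m / δ ≤ m0 / δ0 := div_le_div₀ (by linarith) hmm0 hδ00 hδd.le
    have a2 : Real.log (Lg T) ≤ 3 * m0 := by
      have h6 : Real.log (Lg T) ≤ Real.log (1 / δ ^ 3) := Real.log_le_log (by linarith) hLT
      have h7 : Real.log (1 / δ ^ 3) = 3 * m := by
        rw [hm, ← one_div_pow, Real.log_pow]; norm_num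
      linarith
    have a3 : Real.log (Lg T) ^ 2 ≤ 9 * m0 ^ 2 := by
      have h6 := pow_le_pow_left₀ (Real.log_nonneg hLT1) a2 2
      calc _ ≤ _ := h6
        _ = 9 * m0 ^ 2 := by ring
    have a4 : 1 ≤ m0 ^ 2 * X := by
      rw [hX, mul_one_div, le_div_iff₀ (by positivity), one_mul]
      have h6 : m ^ 2 ≤ m0 ^ 2 := pow_le_pow_left₀ (by linarith) hmm0 2
      nlinarith [sq_nonneg m]
    calc Km * (m / δ) + Km * Real.log (Lg T) ^ 2 ≤ Km * (m0 / δ0) + Km * (9 * m0 ^ 2) := by gcongr
      _ = Km * (m0 / δ0 + 9 * m0 ^ 2) * 1 := by ring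
      _ ≤ Km * (m0 / δ0 + 9 * m0 ^ 2) * (m0 ^ 2 * X) := by
        refine mul_le_mul_of_nonneg_left a4 ?_
        positivity
      _ = Cb * X := by rw [hCb]; ring
      _ ≤ (M + 1 + Cb) * X := by
        refine mul_le_mul_of_nonneg_right ?_ hX0.le
        linarith
  · -- small `δ`
    have hmm0 : m0 ≤ m := Real.log_le_log (by positivity) (one_div_le_one_div_of_le hδ hδd)
    have hm400 : 400 ≤ m := by linarith
    have hmp : 0 < m := by linarith
    have hmexp : Real.exp m = 1 / δ := by rw [hm, Real.exp_log (by positivity)]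
    have f1 := m_three hm400
    have hXe : X = Real.exp m / m ^ 2 := by rw [hX, hmexp]; field_simp
    have hX3 : 1 / (δ * m ^ 3) = X / m := by rw [hX]; field_simp
    have hXm : Real.exp (m / 2) ≤ X / m := by
      rw [hXe, div_div, le_div_iff₀ (by positivity)]
      have h6 : m ^ 2 * m = m ^ 3 := by ring
      rw [h6]
      calc Real.exp (m / 2) * m ^ 3 ≤ Real.exp (m / 2) * Real.exp (m / 2) := by gcongr
        _ = Real.exp m := by rw [← Real.exp_add]; congr 1; ring
    have hXm2 : 200 ≤ X / m := by
      have := Real.add_one_le_exp (m / 2)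
      linarith
    have hmX : m ≤ X := by
      rw [le_div_iff₀ hmp] at hXm2
      nlinarith
    have hgc : Continuous (fun t : ℝ => ‖fz (1 / 2 + δ + t * I)‖) := (fz_cont RH hδ).norm
    have hpt : ∀ T t : ℝ, Lg T ≤ X / m → |t| ≤ T → ‖fz (1 / 2 + δ + t * I)‖ ≤ Real.exp (M * X) := by
      intro T t h6 h7
      rcases le_total |t| 1 with h | h
      · refine (H4 t δ h hδ hδ4).trans (Real.exp_le_exp.2 ?_)
        have h8 : C4 * (1 + m) ≤ 2 * C4 * X := by nlinarith
        have h9 : 0 ≤ (K + (9 * C + 2)) * X := by positivity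
        rw [hM, ← hm]
        nlinarith
      · refine (pt_one D hδ hδ4 h).trans (Real.exp_le_exp.2 ?_)
        rw [← hm]
        have h8 := Lg_mono h7
        have h9 : (2 * Lg t + 9 * C) * m ≤ (2 * (X / m) + 9 * C) * m := by
          gcongr
          linarith
        have h10 : (2 * (X / m) + 9 * C) * m = 2 * X + 9 * C * m := by field_simp
        have h11 : 9 * C * m ≤ 9 * C * X := by gcongr
        have h12 : 0 ≤ (K + 2 * C4) * X := by positivity
        rw [hM]
        nlinarith
    have hptI : ∀ T : ℝ, 1 ≤ T → Lg T ≤ X / m → ∫ t in (-T)..T, ‖fz (1 / 2 + δ + t * I)‖ ≤ 2 * T * Real.exp (M * X) := by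
      intro T hT h6
      have i1 : ∫ t in (-T)..T, ‖fz (1 / 2 + δ + t * I)‖ ≤ ∫ t in (-T)..T, Real.exp (M * X) := by
        refine intervalIntegral.integral_mono_on (by linarith) (hgc.intervalIntegrable _ _) (continuous_const.intervalIntegrable _ _) ?_
        intro t ht
        rw [Set.mem_Icc] at ht
        exact hpt T t h6 (abs_le.2 ⟨ht.1, ht.2⟩)
      rw [intervalIntegral.integral_const, smul_eq_mul] at i1
      have e : T - -T = 2 * T := by ring
      rwa [e] at i1
    have hLg3 : ∀ T : ℝ, 0 ≤ T → T ≤ 3 → Lg T ≤ X / m := by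
      intro T hT0 hT3
      refine le_trans ?_ hXm2
      unfold Lg
      rw [abs_of_nonneg hT0]
      have := Real.log_le_sub_one_of_pos (x := 3 + T) (by linarith)
      linarith
    have key : ∀ n : ℕ, ∀ T : ℝ, 1 ≤ T → T ≤ 3 * 2 ^ n → Lg T ≤ 1 / δ ^ 3 →
        ∫ t in (-T)..T, ‖fz (1 / 2 + δ + t * I)‖ ≤ 2 * T * Real.exp (M * X) := by
      intro n
      induction n with
      | zero =>
        intro T hT hT3 _
        exact hptI T hT (hLg3 T (by linarith) (by simpa using hT3))
      | succ n ih =>
        intro T hT hTn hLT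
        rcases le_or_gt (Lg T) (X / m) with h | h
        · exact hptI T hT h
        · have hT3 : 3 ≤ T := by
            by_contra hcon
            rw [not_le] at hcon
            have := hLg3 T (by linarith) hcon.le
            linarith
          have hLL : Lg (T / 2) ≤ Lg T := Lg_mono (by rw [abs_of_nonneg (by linarith)]; linarith)
          have h6 := ih (T / 2) (by linarith) (by rw [pow_succ] at hTn; linarith) (hLL.trans hLT)
          obtain ⟨R, hR1, hR2, hR3, hR4⟩ := HK T δ hT3 hδ hδd (by rw [← hm, hX3]; exact h.le) hLT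
          rw [← hm, ← hX] at hR4
          have i1 : ∫ t in (-T)..(-(T / 2)), ‖fz (1 / 2 + δ + t * I)‖ ≤ ∫ t in (-T)..(-(T / 2)), R t := by
            refine intervalIntegral.integral_mono_on (by linarith) (hgc.intervalIntegrable _ _) (hR1.intervalIntegrable _ _) ?_
            intro t ht
            rw [Set.mem_Icc] at ht
            refine hR3 t ?_ ?_
            · rw [abs_of_nonpos (by linarith [ht.2])]; linarith [ht.2]
            · rw [abs_of_nonpos (by linarith [ht.2])]; linarith [ht.1]
          have i2 : ∫ t in (T / 2)..T, ‖fz (1 / 2 + δ + t * I)‖ ≤ ∫ t in (T / 2)..T, R t := by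
            refine intervalIntegral.integral_mono_on (by linarith) (hgc.intervalIntegrable _ _) (hR1.intervalIntegrable _ _) ?_
            intro t ht
            rw [Set.mem_Icc] at ht
            refine hR3 t ?_ ?_
            · rw [abs_of_nonneg (by linarith [ht.1])]; exact ht.1
            · rw [abs_of_nonneg (by linarith [ht.1])]; exact ht.2
          have i3 : (∫ t in (-T)..(-(T / 2)), R t) + (∫ t in (T / 2)..T, R t) ≤ ∫ t in (-(3 + T))..(3 + T), R t := by
            have s1 : ∀ a b : ℝ, a ≤ b → 0 ≤ ∫ t in a..b, R t := fun a b hab =>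
              intervalIntegral.integral_nonneg hab fun t _ => hR2 t
            have s2 : ∫ t in (-(3 + T))..(3 + T), R t = (∫ t in (-(3 + T))..(-T), R t) + (∫ t in (-T)..(-(T / 2)), R t) +
                (∫ t in (-(T / 2))..(T / 2), R t) + (∫ t in (T / 2)..T, R t) + (∫ t in T..(3 + T), R t) := by
              rw [intervalIntegral.integral_add_adjacent_intervals (hR1.intervalIntegrable _ _) (hR1.intervalIntegrable _ _),
                intervalIntegral.integral_add_adjacent_intervals (hR1.intervalIntegrable _ _) (hR1.intervalIntegrable _ _),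
                intervalIntegral.integral_add_adjacent_intervals (hR1.intervalIntegrable _ _) (hR1.intervalIntegrable _ _),
                intervalIntegral.integral_add_adjacent_intervals (hR1.intervalIntegrable _ _) (hR1.intervalIntegrable _ _)]
            rw [s2]
            have := s1 (-(3 + T)) (-T) (by linarith)
            have := s1 (-(T / 2)) (T / 2) (by linarith)
            have := s1 T (3 + T) (by linarith)
            linarith
          have s2 : ∫ t in (-T)..T, ‖fz (1 / 2 + δ + t * I)‖ = (∫ t in (-T)..(-(T / 2)), ‖fz (1 / 2 + δ + t * I)‖) +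
            (∫ t in (-(T / 2))..(T / 2), ‖fz (1 / 2 + δ + t * I)‖) + (∫ t in (T / 2)..T, ‖fz (1 / 2 + δ + t * I)‖) := by
            rw [intervalIntegral.integral_add_adjacent_intervals (hgc.intervalIntegrable _ _) (hgc.intervalIntegrable _ _),
              intervalIntegral.integral_add_adjacent_intervals (hgc.intervalIntegrable _ _) (hgc.intervalIntegrable _ _)]
          have h7 : T * Real.exp (K * X) ≤ T * Real.exp (M * X) := by
            refine mul_le_mul_of_nonneg_left (Real.exp_le_exp.2 ?_) (by linarith)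
            refine mul_le_mul_of_nonneg_right ?_ hX0.le
            rw [hM]; linarith
          rw [s2]
          linarith
    obtain ⟨n, hn⟩ := pow_unbounded_of_one_lt T (one_lt_two)
    have h7 := key n T hT (by
      have : (0 : ℝ) < 2 ^ n := by positivity
      linarith) hLT
    refine h7.trans ?_
    have h8 : 2 ≤ Real.exp X := by
      have := Real.add_one_le_exp X
      linarith
    have h9 : 2 * T * Real.exp (M * X) ≤ T * (Real.exp X * Real.exp (M * X)) := by
      have h10 := Real.exp_pos (M * X)
      nlinarith [mul_le_mul_of_nonneg_right h8 (mul_nonneg (by linarith : 0 ≤ T) h10.le)]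
    refine h9.trans (mul_le_mul_of_nonneg_left ?_ (by linarith))
    rw [← Real.exp_add, Real.exp_le_exp]
    nlinarith [mul_pos hCb0 hX0]

end Pool.Agent.N964.MX
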