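import Mathlib
import Pool.Agent.N964.MX.K3

set_option autoImplicit false

/-!
# Project MX2: the numerical bound
-/

namespace Pool.Agent.N964.MX

lemma thirteen (i : ℕ) : (13 : ℝ) ^ i * Real.exp (-(((2 : ℝ) ^ i - 1) / 4)) ≤ 8000 := by
  have h1 := Real.pow_div_factorial_le_exp ((2 : ℝ) ^ i / 4) (by positivity) 4
  have e : ((2 : ℝ) ^ i / 4) ^ 4 / ((Nat.factorial 4 : ℕ) : ℝ) = 16 ^ i / 6144 := by
    have h16 : (16 : ℝ) ^ i = (2 ^ i) ^ 4 := by rw [← pow_mul, mul_comm, pow_mul]; norm_num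
    rw [h16]
    simp [Nat.factorial]; ring
  rw [e] at h1
  have h2 : Real.exp (-(((2 : ℝ) ^ i - 1) / 4)) = Real.exp (1 / 4) * (Real.exp ((2 : ℝ) ^ i / 4))⁻¹ := by
    rw [← Real.exp_neg, ← Real.exp_add]; congr 1; ring
  have h3 : (Real.exp ((2 : ℝ) ^ i / 4))⁻¹ ≤ (16 ^ i / 6144)⁻¹ := inv_anti₀ (by positivity) h1
  have h4 : Real.exp (1 / 4) ≤ 1.3 := by
    have h5 : Real.exp (1 / 4) ^ 4 = Real.exp 1 := by rw [← Real.exp_nat_mul]; norm_num
    by_contra hc
    rw [not_le] at hc
    have h6 : (1.3 : ℝ) ^ 4 ≤ Real.exp (1 / 4) ^ 4 := pow_le_pow_left₀ (by norm_num) hc.le 4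
    rw [h5] at h6
    have := Real.exp_one_lt_d9
    norm_num at h6
    linarith
  rw [h2]
  calc (13 : ℝ) ^ i * (Real.exp (1 / 4) * (Real.exp ((2 : ℝ) ^ i / 4))⁻¹) ≤ 13 ^ i * (1.3 * (16 ^ i / 6144)⁻¹) := by gcongr
    _ = 1.3 * 6144 * (13 ^ i / 16 ^ i) := by rw [inv_div]; ring
    _ ≤ 1.3 * 6144 * 1 := by
      gcongr
      rw [div_le_one (by positivity)]
      gcongr
      norm_num
    _ ≤ 8000 := by norm_num

theorem term : S_term := by
  intro B hB
  have hB0 : 0 < B := by linarith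
  have he5 : 0 < Real.exp 5 := Real.exp_pos _
  have he5b : Real.exp 5 ≤ 243 := by
    have h1 : Real.exp 5 = Real.exp 1 ^ 5 := by rw [← Real.exp_nat_mul]; norm_num
    rw [h1]
    have h2 : Real.exp 1 ≤ 3 := by linarith [Real.exp_one_lt_d9]
    calc Real.exp 1 ^ 5 ≤ 3 ^ 5 := pow_le_pow_left₀ (Real.exp_pos _).le h2 5
      _ = 243 := by norm_num
  have hδ4 : Real.exp (-(400 + 60000 * B)) ≤ 1 / 4 := by
    rw [Real.exp_neg, one_div]
    refine inv_anti₀ (by norm_num) ?_
    have := Real.add_one_le_exp (400 + 60000 * B)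
    linarith
  refine ⟨5 + 64000 * Real.exp 5 * B, Real.exp (-(400 + 60000 * B)), by positivity, Real.exp_pos _, hδ4, ?_⟩
  intro δ τ V i hδ hδ0 hτe hτ3 hV1 hV2 hi
  set m := Real.log (1 / δ) with hm
  have hmexp : Real.exp m = 1 / δ := by rw [hm, Real.exp_log (by positivity)]
  have hmB : 400 + 60000 * B ≤ m := by
    rw [hm, Real.le_log_iff_exp_le (by positivity), le_div_iff₀ hδ]
    calc Real.exp (400 + 60000 * B) * δ ≤ Real.exp (400 + 60000 * B) * Real.exp (-(400 + 60000 * B)) := by gcongr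
      _ = 1 := by rw [← Real.exp_add]; simp
  obtain ⟨f1, f2⟩ := m_facts hB0 hmB
  have hm400 : 400 ≤ m := by linarith
  have hm0 : 0 < m := by linarith
  have he2 : (7 : ℝ) ≤ Real.exp 2 := by
    have h1 : Real.exp 2 = Real.exp 1 * Real.exp 1 := by rw [← Real.exp_add]; norm_num
    have := Real.exp_one_gt_d9
    rw [h1]
    nlinarith
  have hτ0 : 0 < τ := by linarith
  have hlτ2 : 2 ≤ Real.log τ := by rw [Real.le_log_iff_exp_le hτ0]; exact hτe
  have hlτ0 : 0 < Real.log τ := by linarith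
  set v : ℝ := (V : ℝ) with hv
  have hve : Real.exp (m / 2) ≤ v := by
    refine le_trans ?_ hV1
    have h1 : 1 / (δ * m ^ 3) = Real.exp m / m ^ 3 := by rw [hmexp]; field_simp
    rw [h1, le_div_iff₀ (by positivity)]
    calc Real.exp (m / 2) * m ^ 3 ≤ Real.exp (m / 2) * Real.exp (m / 2) := by gcongr
      _ = Real.exp m := by rw [← Real.exp_add]; congr 1; ring
  have hv0 : 0 < v := (Real.exp_pos _).trans_le hve
  have hv1 : 1 ≤ v := le_trans (Real.one_le_exp (by positivity)) hve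
  have hlv : m / 2 ≤ Real.log v := by rw [Real.le_log_iff_exp_le hv0]; exact hve
  have hvτ : v * 2 ≤ τ := by
    rw [le_div_iff₀ hlτ0] at hV2
    nlinarith
  have hlτ : m / 2 ≤ Real.log τ := by
    rw [Real.le_log_iff_exp_le hτ0]; linarith
  have hτ3e : τ ≤ Real.exp (3 * m) := by
    refine hτ3.trans (le_of_eq ?_)
    have h1 : Real.exp (3 * m) = Real.exp m ^ 3 := by rw [← Real.exp_nat_mul]; norm_num
    rw [h1, hmexp]; ring
  set X := 1 / (δ * m ^ 2) with hX
  have hX0 : 0 < X := by positivity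
  have hmX : m ≤ X := by
    have hXe : X = Real.exp m / m ^ 2 := by rw [hX, hmexp]; field_simp
    rw [hXe, le_div_iff₀ (by positivity)]
    have h1 : m * m ^ 2 = m ^ 3 := by ring
    rw [h1]
    exact f1.trans (Real.exp_le_exp.2 (by linarith))
  set g := ((2 : ℝ) ^ i - 1) / m with hg
  have hg0 : 0 ≤ g := g_nonneg i hm0
  set q := B * 13 ^ i / (m * v) with hq
  have hq0 : 0 < q := by positivity
  set y := (v + 1) / (τ * δ) with hy
  have hy0 : 0 < y := by positivity
  -- `q` is small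
  have h2i : (2 : ℝ) ^ i ≤ m := by linarith
  have h13 : (13 : ℝ) ^ i ≤ m ^ 4 := by
    calc (13 : ℝ) ^ i ≤ 16 ^ i := by gcongr; norm_num
      _ = (2 ^ i) ^ 4 := by rw [← pow_mul, mul_comm, pow_mul]; norm_num
      _ ≤ m ^ 4 := by gcongr
  have hqs : q ≤ Real.exp (-(Real.log v / 2)) := by
    have h1 : Real.exp (Real.log v / 2) * Real.exp (Real.log v / 2) = v := by
      rw [← Real.exp_add]
      have : Real.log v / 2 + Real.log v / 2 = Real.log v := by ring
      rw [this, Real.exp_log hv0]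
    have h2 : Real.exp (m / 4) ≤ Real.exp (Real.log v / 2) := Real.exp_le_exp.2 (by linarith)
    have h3 : B * m ^ 3 ≤ Real.exp (Real.log v / 2) := by
      have : 0 ≤ B * m ^ 3 := by positivity
      linarith
    rw [Real.exp_neg, hq, div_le_iff₀ (by positivity)]
    have h4 : (Real.exp (Real.log v / 2))⁻¹ * (m * v) = m * Real.exp (Real.log v / 2) := by
      nth_rewrite 2 [← h1]
      field_simp
    rw [h4]
    calc B * 13 ^ i ≤ B * m ^ 4 := by gcongr
      _ = m * (B * m ^ 3) := by ring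
      _ ≤ _ := by gcongr
  -- the extra power
  have hextra : q ^ ⌊v * g⌋₊ ≤ Real.exp (Real.log v / 2 - v * ((2 ^ i - 1) / 4)) := by
    have h1 : q ^ ⌊v * g⌋₊ ≤ Real.exp (-(Real.log v / 2)) ^ ⌊v * g⌋₊ := pow_le_pow_left₀ hq0.le hqs _
    refine h1.trans ?_
    rw [← Real.exp_nat_mul, Real.exp_le_exp]
    have h2 : v * g - 1 < (⌊v * g⌋₊ : ℝ) := Nat.sub_one_lt_floor _
    have h3 : 0 ≤ Real.log v / 2 := by linarith
    have h4 : (v * g - 1) * (Real.log v / 2) ≤ (⌊v * g⌋₊ : ℝ) * (Real.log v / 2) := mul_le_mul_of_nonneg_right h2.le h3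
    have h5 : v * ((2 ^ i - 1) / 4) ≤ v * g * (Real.log v / 2) := by
      have h6 : ((2 : ℝ) ^ i - 1) / 4 ≤ g * (Real.log v / 2) := by
        have h7 : ((2 : ℝ) ^ i - 1) / 4 = g * (m / 4) := by rw [hg]; field_simp
        rw [h7]
        refine mul_le_mul_of_nonneg_left ?_ hg0
        linarith
      calc v * ((2 ^ i - 1) / 4) ≤ v * (g * (Real.log v / 2)) := mul_le_mul_of_nonneg_left h6 hv0.le
        _ = _ := by ring
    nlinarith
  -- collect
  set A := 8000 * Real.exp 5 * B / m with hA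
  have hA0 : 0 < A := by positivity
  have hmain : Real.exp ((v + 1) * Real.log (1 + y) + 5 * (v + 1)) * q ^ (V + ⌊v * g⌋₊) ≤
      Real.exp 5 * (1 + y) * Real.exp (Real.log v / 2) * (A * (1 + y) / v) ^ V := by
    have e1 : Real.exp ((v + 1) * Real.log (1 + y) + 5 * (v + 1)) = (Real.exp 5 * (1 + y)) ^ (V + 1) := by
      have h2 : Real.exp 5 * (1 + y) = Real.exp (Real.log (1 + y) + 5) := by
        rw [Real.exp_add, Real.exp_log (by linarith)]; ring
      rw [h2, ← Real.exp_nat_mul]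
      congr 1
      push_cast
      rw [← hv]; ring
    have e2 : Real.exp (Real.log v / 2 - v * ((2 ^ i - 1) / 4)) =
        Real.exp (Real.log v / 2) * (Real.exp (-(((2 : ℝ) ^ i - 1) / 4))) ^ V := by
      rw [← Real.exp_nat_mul, ← Real.exp_add]
      congr 1
      rw [← hv]; ring
    rw [e1, pow_add q, pow_succ (Real.exp 5 * (1 + y))]
    calc (Real.exp 5 * (1 + y)) ^ V * (Real.exp 5 * (1 + y)) * (q ^ V * q ^ ⌊v * g⌋₊) ≤
        (Real.exp 5 * (1 + y)) ^ V * (Real.exp 5 * (1 + y)) * (q ^ V *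
          (Real.exp (Real.log v / 2) * (Real.exp (-(((2 : ℝ) ^ i - 1) / 4))) ^ V)) := by
          rw [← e2]
          gcongr
      _ = Real.exp 5 * (1 + y) * Real.exp (Real.log v / 2) *
          (Real.exp 5 * (1 + y) * (q * Real.exp (-(((2 : ℝ) ^ i - 1) / 4)))) ^ V := by
          rw [mul_pow (Real.exp 5 * (1 + y)) (q * _), mul_pow q]; ring
      _ ≤ _ := by
          refine mul_le_mul_of_nonneg_left ?_ (by positivity)
          refine pow_le_pow_left₀ (by positivity) ?_ V
          have h1 := thirteen i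
          have h2 : q * Real.exp (-(((2 : ℝ) ^ i - 1) / 4)) ≤ B * 8000 / (m * v) := by
            rw [hq, div_mul_eq_mul_div, mul_assoc]
            gcongr
          calc Real.exp 5 * (1 + y) * (q * Real.exp (-(((2 : ℝ) ^ i - 1) / 4))) ≤ Real.exp 5 * (1 + y) * (B * 8000 / (m * v)) := by gcongr
            _ = A * (1 + y) / v := by rw [hA]; field_simp
  refine hmain.trans ?_
  -- the power
  set Q := 2 * A / (τ * δ) with hQ
  have hQ0 : 0 < Q := by positivity
  have hbase : A * (1 + y) / v ≤ 1 / 4 + Q := by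
    have h1 : A * (1 + y) / v = A / v + A * (y / v) := by field_simp
    rw [h1]
    have h2 : A / v ≤ 1 / 4 := by
      rw [hA, div_div, div_le_div_iff₀ (by positivity) (by norm_num)]
      -- 8000 e^5 B * 4 ≤ 1 * (m v)
      have h3 : 9 * B * m ^ 3 ≤ v := f2.trans ((Real.exp_le_exp.2 (by linarith)).trans hve)
      have h4 : (400 : ℝ) ^ 3 ≤ m ^ 3 := pow_le_pow_left₀ (by norm_num) hm400 3
      have h5 : 9 * B * 400 ^ 3 ≤ v := by
        refine le_trans ?_ h3
        gcongr
      have h6 : 400 * (9 * B * 400 ^ 3) ≤ m * v := by gcongr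
      have h7 : Real.exp 5 * B ≤ 243 * B := by gcongr
      nlinarith
    have h5 : y / v ≤ 2 / (τ * δ) := by
      rw [hy, div_div, div_le_div_iff₀ (by positivity) (by positivity)]
      have : 0 < τ * δ := by positivity
      nlinarith
    have h6 : A * (y / v) ≤ A * (2 / (τ * δ)) := by gcongr
    have h7 : A * (2 / (τ * δ)) = Q := by rw [hQ]; ring
    linarith
  have hpow : (A * (1 + y) / v) ^ V ≤ Real.exp (64000 * Real.exp 5 * B * X) := by
    refine (pow_le_pow_left₀ (by positivity) hbase V).trans ?_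
    rcases le_or_gt Q (3 / 4) with h | h
    · refine (pow_le_one₀ (by positivity) (by linarith)).trans ?_
      exact Real.one_le_exp (by positivity)
    · have h2 : 1 / 4 + Q ≤ 2 * Q := by linarith
      refine (pow_le_pow_left₀ (by positivity) h2 V).trans ?_
      have h3 : (2 * Q) ^ V = Real.exp (v * Real.log (2 * Q)) := by
        rw [hv, Real.exp_nat_mul, Real.exp_log (by positivity)]
      rw [h3, Real.exp_le_exp]
      have h4 : Real.log (2 * Q) ≤ 2 * Q := by
        have := Real.log_le_sub_one_of_pos (x := 2 * Q) (by positivity)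
        linarith
      calc v * Real.log (2 * Q) ≤ v * (2 * Q) := by gcongr
        _ ≤ (τ / Real.log τ) * (2 * Q) := by gcongr
        _ = 4 * A / (δ * Real.log τ) := by rw [hQ]; field_simp; ring
        _ ≤ 4 * A / (δ * (m / 2)) := by gcongr
        _ = 64000 * Real.exp 5 * B * X := by rw [hA, hX]; field_simp; ring
  have hfront : Real.exp 5 * (1 + y) * Real.exp (Real.log v / 2) ≤ Real.exp (5 * X) := by
    have h1 : y ≤ Real.exp m := by
      rw [hmexp, hy, div_le_div_iff₀ (by positivity) hδ]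
      nlinarith
    have h2 : Real.exp (Real.log v / 2) ≤ Real.exp (3 / 2 * m) := by
      rw [Real.exp_le_exp]
      have h3 : Real.log v ≤ 3 * m := by
        rw [Real.log_le_iff_le_exp hv0]; linarith
      linarith
    have h3 : 1 + y ≤ Real.exp (m + 1) := by
      rw [Real.exp_add]
      have h4 : (2 : ℝ) ≤ Real.exp 1 := by linarith [Real.exp_one_gt_d9]
      have h5 : 1 ≤ Real.exp m := Real.one_le_exp hm0.le
      nlinarith
    calc Real.exp 5 * (1 + y) * Real.exp (Real.log v / 2) ≤ Real.exp 5 * Real.exp (m + 1) * Real.exp (3 / 2 * m) := by gcongr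
      _ = Real.exp (5 + (m + 1) + 3 / 2 * m) := by rw [← Real.exp_add, ← Real.exp_add]
      _ ≤ _ := by rw [Real.exp_le_exp]; linarith
  calc Real.exp 5 * (1 + y) * Real.exp (Real.log v / 2) * (A * (1 + y) / v) ^ V ≤
      Real.exp (5 * X) * Real.exp (64000 * Real.exp 5 * B * X) := by gcongr
    _ = _ := by rw [← Real.exp_add]; congr 1; ring

end Pool.Agent.N964.MX
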