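import Mathlib
import Pool.Agent.N964.MX.I2

set_option autoImplicit false

/-!
# Project MX: the Mertens function under the Riemann hypothesis
-/

namespace Pool.Agent.N964.MX

open Complex MeasureTheory Filter Topology
open Pool.Agent.H295R2
open Pool.Agent.Y23 (Lg)

theorem M_of (h : S_mean) : S_M := by
  intro RH
  obtain ⟨K, hK, HK⟩ := h RH
  obtain ⟨C1, hC1, H1⟩ := dy_term K hK.le
  -- threshold for `δ ≤ 1/4`
  have ht : ∀ᶠ x : ℝ in atTop, Real.log x ≤ 1 / 16 * x := by
    have h2 : (fun x : ℝ => Real.log x) =o[atTop] fun x : ℝ => x := Real.isLittleO_log_id_atTop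
    filter_upwards [h2.def (show (0 : ℝ) < 1 / 16 by norm_num), eventually_ge_atTop 1] with x hx hx1
    rw [Real.norm_eq_abs, Real.norm_eq_abs, abs_of_nonneg (by linarith : (0 : ℝ) ≤ x)] at hx
    exact (le_abs_self _).trans hx
  obtain ⟨L0, hL0⟩ := eventually_atTop.1 ht
  set L1 := max L0 1 with hL1
  have hL10 : 0 < L1 := by rw [hL1]; positivity
  refine ⟨4 * L1 + (K + C1 + 200), by positivity, fun y hy => ?_⟩
  have hy0 : 0 < y := by linarith
  have hL := log_ge hy
  have hLL := loglog_ge hy
  have hQ := QQ_ge hy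
  have hsy : 1 ≤ Real.sqrt y := by rw [Real.one_le_sqrt]; linarith
  change |Mx y| ≤ Real.sqrt y * Real.exp ((4 * L1 + (K + C1 + 200)) * QQ y)
  rcases le_or_gt (Real.log y) L1 with h1 | h1
  · -- small `y`
    have h2 := abs_Mx_le hy0.le
    have h3 : y = Real.sqrt y * Real.exp (Real.log y / 2) := by
      have h4 : Real.exp (Real.log y / 2) = Real.sqrt y := by
        rw [Real.sqrt_eq_rpow, Real.rpow_def_of_pos hy0]
        congr 1; ring
      rw [h4, Real.mul_self_sqrt hy0.le]
    refine h2.trans ?_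
    nth_rewrite 1 [h3]
    refine mul_le_mul_of_nonneg_left (Real.exp_le_exp.2 ?_) (by linarith)
    have : 0 ≤ (K + C1 + 200) * QQ y := by positivity
    nlinarith
  · have hLL0 := hL0 (Real.log y) ((le_max_left _ _).trans h1.le)
    set L := Real.log y with hLd
    have hL0' : 0 < L := by linarith
    set δ := Real.sqrt (Real.log L / L) with hδd
    have hq0 : 0 < Real.log L / L := by positivity
    have hδ : 0 < δ := Real.sqrt_pos.2 hq0
    have hδ4 : δ ≤ 1 / 4 := by
      rw [hδd]
      refine Real.sqrt_le_iff.2 ⟨by norm_num, ?_⟩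
      rw [div_le_iff₀ hL0']
      linarith
    -- the two exponents
    have hQd : QQ y = Real.sqrt (L * Real.log L) := rfl
    have e1 : δ * L = QQ y := by
      rw [hQd, hδd]
      have h3 : L * Real.log L = (Real.log L / L) * L ^ 2 := by field_simp
      rw [h3, Real.sqrt_mul hq0.le, Real.sqrt_sq hL0'.le]
    have e2 : Real.log (1 / δ) / δ ≤ QQ y := by
      rw [div_le_iff₀ hδ]
      have h3 : QQ y * δ = Real.log L := by
        rw [← e1]
        have h4 : δ * δ = Real.log L / L := Real.mul_self_sqrt hq0.le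
        calc δ * L * δ = (δ * δ) * L := by ring
          _ = _ := by rw [h4]; field_simp
      rw [h3]
      refine Real.log_le_log (by positivity) ?_
      rw [div_le_iff₀ hδ]
      -- 1 ≤ L δ = QQ
      have h5 : L * δ = QQ y := by rw [← e1]; ring
      rw [h5]
      have h6 : 1 ≤ QQ y := by
        have h7 : 16 * Real.log L ≤ L := by linarith
        -- `QQ ^ 2 = L log L`, and `δ ≤ 1/4` gives `QQ ≥ 4 log L`; use `1/δ ≥ 4`
        have h8 : 1.28 ≤ L := by linarith
        have h9 : (1 : ℝ) ≤ L * Real.log L := by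
          rcases le_or_gt L 3 with hl | hl
          · -- then `16 log L ≤ 3` and `log L ≥ 0.08`
            exfalso
            have h10 := Real.one_sub_inv_le_log_of_pos (x := L) (by linarith)
            have h11 : L⁻¹ ≤ (1.28 : ℝ)⁻¹ := inv_anti₀ (by norm_num) h8
            have h12 : (1.28 : ℝ)⁻¹ ≤ 0.79 := by norm_num
            linarith
          · have h10 := Real.one_sub_inv_le_log_of_pos (x := L) (by linarith)
            have h11 : L⁻¹ ≤ (3 : ℝ)⁻¹ := inv_anti₀ (by norm_num) hl.le
            nlinarith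
        rw [hQd]
        exact Real.one_le_sqrt.2 h9
      exact h6
    have h2 := mx_le RH hδ hδ4 (by linarith : 1 ≤ y)
    have h3 := int_bound (g := fun t => ‖fz (1 / 2 + δ + t * I)‖) ((fz_cont RH hδ).norm) (fun t => norm_nonneg _)
      (E := Real.exp (K * (Real.log (1 / δ) / δ))) (K := K) (B := Real.exp (C1 * QQ y)) hy (Real.exp_pos _).le
      (int_fw RH hδ hδ4 (by linarith)) (fun T hT => by
        refine (HK T δ hT hδ hδ4).trans (le_of_eq ?_)
        rw [← Real.exp_add]) (H1 y hy) hK.le
    have e3 : y ^ (1 / 2 + δ) = Real.sqrt y * Real.exp (QQ y) := by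
      rw [Real.rpow_add hy0, Real.sqrt_eq_rpow, ← e1]
      congr 1
      rw [Real.rpow_def_of_pos hy0, ← hLd, mul_comm]
    rw [e3] at h2
    have h4 : Real.exp (K * (Real.log (1 / δ) / δ)) ≤ Real.exp (K * QQ y) := by
      rw [Real.exp_le_exp]
      exact mul_le_mul_of_nonneg_left e2 hK.le
    have h5 : 2750 * (Real.sqrt y * Real.exp (QQ y)) * (∫ t : ℝ, ‖fz (1 / 2 + δ + t * I)‖ * wt y t) ≤
        2750 * (Real.sqrt y * Real.exp (QQ y)) * (9 * Real.exp (K * QQ y) * Real.exp (C1 * QQ y)) := by
      refine mul_le_mul_of_nonneg_left (h3.trans ?_) (by positivity)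
      gcongr
    have h6 : 2750 * (Real.sqrt y * Real.exp (QQ y)) * (9 * Real.exp (K * QQ y) * Real.exp (C1 * QQ y)) =
        24750 * (Real.sqrt y * Real.exp ((K + C1 + 1) * QQ y)) := by
      have : Real.exp ((K + C1 + 1) * QQ y) = Real.exp (QQ y) * (Real.exp (K * QQ y) * Real.exp (C1 * QQ y)) := by
        rw [← Real.exp_add, ← Real.exp_add]
        congr 1
        ring
      rw [this]
      ring
    rw [h6] at h5
    have h7 : (24770 : ℝ) ≤ Real.exp (199 * QQ y) := by
      have h8 : (40 : ℝ) ≤ 199 * QQ y := by linarith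
      have h9 : Real.exp 40 ≤ Real.exp (199 * QQ y) := Real.exp_le_exp.2 h8
      have h10 : (2 : ℝ) ^ 40 ≤ Real.exp 40 := by
        have h11 : (2 : ℝ) ≤ Real.exp 1 := by linarith [Real.exp_one_gt_d9]
        have h12 : Real.exp 40 = Real.exp 1 ^ 40 := by
          rw [← Real.exp_nat_mul]; norm_num
        rw [h12]
        gcongr
      norm_num at h10
      linarith
    have h8 : (1 : ℝ) ≤ Real.sqrt y * Real.exp ((K + C1 + 1) * QQ y) := by
      have h9 : 1 ≤ Real.exp ((K + C1 + 1) * QQ y) := Real.one_le_exp (by positivity)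
      nlinarith
    calc |Mx y| ≤ 20 + 24750 * (Real.sqrt y * Real.exp ((K + C1 + 1) * QQ y)) := by linarith
      _ ≤ 24770 * (Real.sqrt y * Real.exp ((K + C1 + 1) * QQ y)) := by linarith
      _ ≤ Real.exp (199 * QQ y) * (Real.sqrt y * Real.exp ((K + C1 + 1) * QQ y)) := by gcongr
      _ = Real.sqrt y * (Real.exp (199 * QQ y) * Real.exp ((K + C1 + 1) * QQ y)) := by ring
      _ ≤ _ := by
        refine mul_le_mul_of_nonneg_left ?_ (by linarith)
        rw [← Real.exp_add, Real.exp_le_exp]
        have : 0 ≤ 4 * L1 * QQ y := by positivity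
        nlinarith

end Pool.Agent.N964.MX
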