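import Mathlib
import Pool.Agent.N964.MX.I3
import Pool.Agent.N964.D1
import Pool.Agent.H295R2.T8
import Pool.Agent.N221.MXA
import Pool.Agent.N284.MXB
import Pool.Agent.N123.MXC
import Pool.Agent.N99.MXD
import Pool.Agent.N816.MXE
import Pool.Agent.N279.MXG
import Pool.Agent.N967.Mom

set_option autoImplicit false

/-!
# Project MX: assembly and converse
-/

namespace Pool.Agent.N964.MX

open Complex MeasureTheory Filter Topology
open Pool.Agent.H295R2
open Pool.Agent.Y23 (Lg)

theorem coef_all : S_coef := Pool.Agent.N99.MXD.coef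

theorem main_all : S_main :=
  main_of (Pool.Agent.N816.MXE.int_of Pool.Agent.N221.ef Pool.Agent.N284.MXB.lim Pool.Agent.N123.MXC.gamma) coef_all

theorem mean_all : S_mean := mean_of main_all coef_all Pool.Agent.N967.mom Pool.Agent.N279.MXG.small

theorem M_all : S_M := M_of mean_all

lemma QQ_mono {u v : ℝ} (hu : 3 ≤ u) (huv : u ≤ v) : QQ u ≤ QQ v := by
  unfold QQ
  have h1 := log_ge hu
  have h2 : Real.log u ≤ Real.log v := Real.log_le_log (by linarith) huv
  have h3 := loglog_ge hu
  have h4 : Real.log (Real.log u) ≤ Real.log (Real.log v) := Real.log_le_log (by linarith) h2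
  exact Real.sqrt_le_sqrt (mul_le_mul h2 h4 (by linarith) (by linarith))

lemma QQ_small {c : ℝ} (hc : 0 < c) : ∀ᶠ x : ℝ in atTop, QQ x ≤ c * Real.log x := by
  have h2 : (fun x : ℝ => Real.log x) =o[atTop] fun x : ℝ => x := Real.isLittleO_log_id_atTop
  have h3 : ∀ᶠ x : ℝ in atTop, |Real.log x| ≤ c ^ 2 * |x| := h2.def (by positivity)
  filter_upwards [Real.tendsto_log_atTop.eventually h3, eventually_ge_atTop 3] with x hx hx3
  have h4 := log_ge hx3
  have h5 := loglog_ge hx3
  rw [abs_of_nonneg (by linarith), abs_of_nonneg (by linarith : (0 : ℝ) ≤ Real.log x)] at hx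
  unfold QQ
  refine Real.sqrt_le_iff.2 ⟨by positivity, ?_⟩
  nlinarith

theorem conv {C : ℝ} (h : ∀ x : ℝ, 3 ≤ x → |Mx x| ≤ Real.sqrt x * Real.exp (C * QQ x)) : RiemannHypothesis := by
  rw [Pool.Agent.N964.rh_free]
  have key : zetaSup ≤ 1 / 2 := by
    by_contra hc
    rw [not_le] at hc
    set ε := (zetaSup - 1 / 2) / 4 with hε
    have hε0 : 0 < ε := by rw [hε]; linarith
    have h1 := mertens_local_lower (δ := 1) one_pos le_rfl hε0
    have h2 := tendsto_natCast_atTop_atTop.eventually (QQ_small (c := ε / (|C| + 1)) (by positivity))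
    have h3 : ∀ᶠ n : ℕ in atTop, (3 : ℝ) < (n : ℝ) ^ (1 / 2 : ℝ) :=
      ((tendsto_rpow_atTop (by norm_num)).comp tendsto_natCast_atTop_atTop).eventually_gt_atTop 3
    obtain ⟨n, hn1, hn2, hn3, hn4⟩ := (h1.and (h2.and (h3.and (eventually_ge_atTop 3)))).exists
    obtain ⟨k, hk1, hk2, hk3⟩ := hn1
    rw [Real.rpow_one] at hk2
    have hn : (3 : ℝ) ≤ n := by exact_mod_cast hn4
    have hn0 : (0 : ℝ) < n := by linarith
    have hk0 : (0 : ℝ) < k := by exact_mod_cast hk1
    have hk1' : (1 : ℝ) ≤ k := by exact_mod_cast hk1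
    have hle : (n : ℝ) / k ≤ n := by
      rw [div_le_iff₀ hk0]
      nlinarith
    have hup : |Mx ((n : ℝ) / k)| ≤ (n : ℝ) ^ (1 / 2 + ε) := by
      have e1 : (n : ℝ) ^ (1 / 2 + ε) = Real.sqrt n * Real.exp (ε * Real.log n) := by
        rw [Real.rpow_add hn0, Real.sqrt_eq_rpow]
        congr 1
        rw [Real.rpow_def_of_pos hn0, mul_comm]
      rcases le_or_gt 3 ((n : ℝ) / k) with h4 | h4
      · refine (h _ h4).trans ?_
        rw [e1]
        refine mul_le_mul (Real.sqrt_le_sqrt hle) (Real.exp_le_exp.2 ?_) (Real.exp_pos _).le (Real.sqrt_nonneg _)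
        have h5 := QQ_mono h4 hle
        have h6 := QQ_ge h4
        have h7 : C * QQ ((n : ℝ) / k) ≤ |C| * QQ n := by
          calc C * QQ ((n : ℝ) / k) ≤ |C| * QQ ((n : ℝ) / k) := mul_le_mul_of_nonneg_right (le_abs_self C) (by linarith)
            _ ≤ _ := mul_le_mul_of_nonneg_left h5 (abs_nonneg _)
        refine h7.trans ?_
        have h8 : QQ n * (|C| + 1) ≤ ε * Real.log n := by
          have h9 : 0 < |C| + 1 := by positivity
          have h10 := mul_le_mul_of_nonneg_right hn2 h9.le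
          have e : ε / (|C| + 1) * Real.log n * (|C| + 1) = ε * Real.log n := by field_simp
          rw [e] at h10
          exact h10
        have h9 := QQ_ge hn
        nlinarith
      · have h5 : 0 ≤ (n : ℝ) / k := by positivity
        refine (abs_Mx_le h5).trans ?_
        rw [e1]
        have h6 : 1 ≤ Real.exp (ε * Real.log n) := Real.one_le_exp (by
          have := Real.log_nonneg (by linarith : (1 : ℝ) ≤ n)
          positivity)
        rw [← Real.sqrt_eq_rpow] at hn3
        nlinarith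
    have h5 : (n : ℝ) ^ (zetaSup - ε) ≤ (n : ℝ) ^ (1 / 2 + ε) := hk3.trans hup
    have h6 : (n : ℝ) ^ (1 / 2 + ε) < (n : ℝ) ^ (zetaSup - ε) := by
      refine Real.rpow_lt_rpow_of_exponent_lt (by linarith) ?_
      rw [hε]; linarith
    linarith
  intro s hs h0
  have h1 : Zs s ≠ 0 := zetaSup_free s (by linarith)
  by_cases hs1 : s = 1
  · rw [hs1] at h0
    exact riemannZeta_one_ne_zero h0
  · rw [← Zs_eq hs1] at h1
    exact h1 (by rw [h0, mul_zero])

theorem rh_iff : RiemannHypothesis ↔ ∃ C : ℝ, ∀ x : ℝ, 3 ≤ x →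
    |Mx x| ≤ Real.sqrt x * Real.exp (C * Real.sqrt (Real.log x * Real.log (Real.log x))) := by
  constructor
  · intro RH
    obtain ⟨C, _, hC⟩ := M_all RH
    exact ⟨C, hC⟩
  · rintro ⟨C, hC⟩
    exact conv hC

end Pool.Agent.N964.MX
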