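import Mathlib
import Pool.Agent.N964.MX.J
import Pool.Agent.N964.MX.Defs2

set_option autoImplicit false

/-!
# Project MX2: the converse
-/

namespace Pool.Agent.N964.MX

open Complex MeasureTheory Filter Topology
open Pool.Agent.H295R2
open Pool.Agent.Y23 (Lg)

/-- the exponent -/
noncomputable def QR (y : ℝ) : ℝ := Real.sqrt (Real.log y) / Real.log (Real.log y)

lemma QR_le {y : ℝ} (hy : 3 ≤ y) : QR y ≤ 12.5 * Real.sqrt (Real.log y) := by
  unfold QR
  have h2 := loglog_ge hy
  rw [div_le_iff₀ (by linarith)]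
  have h3 := Real.sqrt_nonneg (Real.log y)
  nlinarith

lemma QR_nonneg {y : ℝ} (hy : 3 ≤ y) : 0 ≤ QR y := by
  unfold QR
  have h2 := loglog_ge hy
  exact div_nonneg (Real.sqrt_nonneg _) (by linarith)

theorem conv2 : S_conv2 := by
  rintro ⟨C, h⟩
  rw [Pool.Agent.N964.rh_free]
  have key : zetaSup ≤ 1 / 2 := by
    by_contra hc
    rw [not_le] at hc
    set ε := (zetaSup - 1 / 2) / 4 with hε
    have hε0 : 0 < ε := by rw [hε]; linarith
    have h1 := mertens_local_lower (δ := 1) one_pos le_rfl hε0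
    -- the constant
    set K := (12.5 * |C|) ^ 2 / (2 * ε) with hK
    have hK0 : 0 ≤ K := by rw [hK]; positivity
    have hbd : ∀ z : ℝ, 3 ≤ z → C * QR z ≤ K + ε / 2 * Real.log z := by
      intro z hz
      have h2 := QR_le hz
      have h3 := QR_nonneg hz
      have h4 : C * QR z ≤ |C| * (12.5 * Real.sqrt (Real.log z)) :=
        mul_le_mul (le_abs_self C) h2 h3 (abs_nonneg C)
      have h5 : Real.sqrt (Real.log z) ^ 2 = Real.log z := Real.sq_sqrt (by linarith [log_ge hz])
      have h6 : 12.5 * |C| * Real.sqrt (Real.log z) ≤ K + ε / 2 * Real.sqrt (Real.log z) ^ 2 := by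
        rw [hK, ← sub_le_iff_le_add, le_div_iff₀ (by positivity)]
        nlinarith [sq_nonneg (12.5 * |C| - ε * Real.sqrt (Real.log z)), sq_nonneg (12.5 * |C|)]
      rw [h5] at h6
      linarith
    have h3 : ∀ᶠ n : ℕ in atTop, (3 : ℝ) < (n : ℝ) ^ (1 / 2 : ℝ) :=
      ((tendsto_rpow_atTop (by norm_num)).comp tendsto_natCast_atTop_atTop).eventually_gt_atTop 3
    have h4 : ∀ᶠ n : ℕ in atTop, Real.exp K < (n : ℝ) ^ (ε / 2) :=
      ((tendsto_rpow_atTop (by positivity)).comp tendsto_natCast_atTop_atTop).eventually_gt_atTop _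
    obtain ⟨n, hn1, hn2, hn3, hn4⟩ := (h1.and (h4.and (h3.and (eventually_ge_atTop 3)))).exists
    obtain ⟨k, hk1, hk2, hk3⟩ := hn1
    rw [Real.rpow_one] at hk2
    have hn : (3 : ℝ) ≤ n := by exact_mod_cast hn4
    have hn0 : (0 : ℝ) < n := by linarith
    have hk0 : (0 : ℝ) < k := by exact_mod_cast hk1
    have hk1' : (1 : ℝ) ≤ k := by exact_mod_cast hk1
    have hle : (n : ℝ) / k ≤ n := by
      rw [div_le_iff₀ hk0]
      nlinarith
    have e1 : (n : ℝ) ^ (1 / 2 + ε) = Real.sqrt n * ((n : ℝ) ^ (ε / 2) * Real.exp (ε / 2 * Real.log n)) := by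
      have h5 : Real.exp (ε / 2 * Real.log n) = (n : ℝ) ^ (ε / 2) := by
        rw [Real.rpow_def_of_pos hn0, mul_comm]
      rw [h5, Real.sqrt_eq_rpow, ← Real.rpow_add hn0, ← Real.rpow_add hn0]
      congr 1; ring
    have hup : |Mx ((n : ℝ) / k)| ≤ (n : ℝ) ^ (1 / 2 + ε) := by
      have hlog0 : 0 ≤ Real.log n := Real.log_nonneg (by linarith)
      rcases le_or_gt 3 ((n : ℝ) / k) with h4 | h4
      · refine (h _ h4).trans ?_
        rw [e1]
        refine mul_le_mul (Real.sqrt_le_sqrt hle) ?_ (Real.exp_pos _).le (Real.sqrt_nonneg _)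
        have h5 := hbd _ h4
        have h6 : Real.log ((n : ℝ) / k) ≤ Real.log n := Real.log_le_log (by linarith) hle
        have h7 : C * (Real.sqrt (Real.log ((n : ℝ) / k)) / Real.log (Real.log ((n : ℝ) / k))) ≤ K + ε / 2 * Real.log n := by
          refine h5.trans ?_
          have : ε / 2 * Real.log ((n : ℝ) / k) ≤ ε / 2 * Real.log n := by gcongr
          linarith
        calc _ ≤ Real.exp (K + ε / 2 * Real.log n) := Real.exp_le_exp.2 h7
          _ = Real.exp K * Real.exp (ε / 2 * Real.log n) := Real.exp_add _ _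
          _ ≤ _ := by gcongr
      · have h5 : 0 ≤ (n : ℝ) / k := by positivity
        refine (abs_Mx_le h5).trans ?_
        rw [← Real.sqrt_eq_rpow] at hn3
        have h6 : 1 ≤ Real.exp (ε / 2 * Real.log n) := Real.one_le_exp (by positivity)
        have h7 : 1 ≤ (n : ℝ) ^ (ε / 2) := Real.one_le_rpow (by linarith) (by positivity)
        rw [e1]
        have h8 : 1 ≤ (n : ℝ) ^ (ε / 2) * Real.exp (ε / 2 * Real.log n) := by nlinarith
        nlinarith
    have h5 : (n : ℝ) ^ (zetaSup - ε) ≤ (n : ℝ) ^ (1 / 2 + ε) := hk3.trans hup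
    have h6 : (n : ℝ) ^ (1 / 2 + ε) < (n : ℝ) ^ (zetaSup - ε) := by
      refine Real.rpow_lt_rpow_of_exponent_lt (by linarith) ?_
      rw [hε]; linarith
    linarith
  intro s hs h0
  have h1 : Zs s ≠ 0 := zetaSup_free s (by linarith)
  by_cases hs1 : s = 1
  · rw [hs1] at h0
    exact riemannZeta_one_ne_zero h0
  · rw [← Zs_eq hs1] at h1
    exact h1 (by rw [h0, mul_zero])

end Pool.Agent.N964.MX
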