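import Mathlib
import Pool.Agent.N964.MX.K3
import Pool.Agent.N964.MX.K4
import Pool.Agent.N964.MX.K5
import Pool.Agent.N429.MX2A
import Pool.Agent.N136.MX2B
import Pool.Agent.N364.MX2C
import Pool.Agent.N152.MX2E

set_option autoImplicit false

/-!
# Project MX2: assembly
-/

namespace Pool.Agent.N964.MX

open Pool.Agent.H295R2

theorem mean2_all : S_mean2 :=
  mean2_of main_all coef_all Pool.Agent.N967.mom Pool.Agent.N279.MXG.small mean_all
    Pool.Agent.N364.MX2C.split
    (Pool.Agent.N364.MX2C.var_of Pool.Agent.N429.MX2A.edge Pool.Agent.N136.MX2B.loc coef_all) term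

theorem M2_all : S_M2 := Pool.Agent.N152.MX2E.M2_of mean2_all mean_all

theorem rh_iff2 : RiemannHypothesis ↔ ∃ C : ℝ, ∀ x : ℝ, 3 ≤ x →
    |Mx x| ≤ Real.sqrt x * Real.exp (C * (Real.sqrt (Real.log x) / Real.log (Real.log x))) := by
  constructor
  · intro RH
    obtain ⟨C, _, hC⟩ := M2_all RH
    exact ⟨C, hC⟩
  · exact conv2

end Pool.Agent.N964.MX
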